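import Mathlib
import Pool.Agent.W527.TateDefs

/-!
# Abelian varieties over finite fields whose traces of Frobenius lie in a totally real field
-/

set_option autoImplicit false

namespace Pool.Agent.P8H27.RF

open NumberField Pool.Agent.W527.TateRing

/-- The ring of cohomology classes of `X` which is generated by the Tate classes of even degree at
most `d`: the smallest system of cohomology classes of `X` which contains these classes and is
stable under linear combinations and cup products. -/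
inductive GenByDegree {Ω : Type} [Field Ω] (q d : ℕ) (X : FrobSpace Ω) :
    (κ : Type) → Coh X κ → Prop
  /-- Tate classes of small even degree -/
  | small {κ : Type} [Finite κ] (hκ : Even (Nat.card κ)) (hd : Nat.card κ ≤ d) (f : Coh X κ)
      (hf : IsTate q f) : GenByDegree q d X κ f
  | zero (κ : Type) : GenByDegree q d X κ 0
  | add {κ : Type} (f g : Coh X κ) (hf : GenByDegree q d X κ f) (hg : GenByDegree q d X κ g) :
      GenByDegree q d X κ (f + g)
  | smul {κ : Type} (a : Ω) (f : Coh X κ) (hf : GenByDegree q d X κ f) :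
      GenByDegree q d X κ (a • f)
  /-- renaming of the variables -/
  | reindex {κ κ' : Type} (e : κ ≃ κ') (f : Coh X κ) (hf : GenByDegree q d X κ f) :
      GenByDegree q d X κ' (f.domDomCongr e)
  /-- cup products (up to a factor) -/
  | cup {κ κ' : Type} [Fintype κ] [DecidableEq κ] [Fintype κ'] [DecidableEq κ']
      (f : Coh X κ) (g : Coh X κ') (hf : GenByDegree q d X κ f)
      (hg : GenByDegree q d X κ' g) (h : Coh X (κ ⊕ κ'))
      (hh : ∀ v : κ ⊕ κ' → X.V, h v = ∑ σ : Equiv.Perm (κ ⊕ κ'), ((Equiv.Perm.sign σ : ℤ) : Ω) *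
        (f (fun k => v (σ (Sum.inl k))) * g (fun k => v (σ (Sum.inr k))))) :
      GenByDegree q d X (κ ⊕ κ') h

variable {L : Type} [Field L]

/-- The Frobenius of `X` is semisimple and each of its eigenvalues `α` is supersingular (a power of
`α ^ 2 / q` is `1`) or a root of `T ^ 2 - b T + q` for a number `b ∈ S`, that is, of its image
under an embedding of `L`. -/
def TracesIn (q : ℕ) (S : Set (𝓞 L)) {Ω : Type} [Field Ω] (X : FrobSpace Ω) : Prop :=
  Submodule.span Ω {v : X.V | ∃ α : Ω, X.F v = α • v ∧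
    ((∃ s : ℕ, 0 < s ∧ α ^ (2 * s) = (q : Ω) ^ s) ∨
      ∃ φ : L →+* Ω, ∃ b ∈ S, α ^ 2 - φ b * α + q = 0)} = ⊤

/-- All conjugates of the numbers in `S` have absolute value at most `2 √q`. -/
def WeilBound (q : ℕ) (S : Set (𝓞 L)) : Prop :=
  ∀ b ∈ S, ∀ σ : L →+* ℂ, ‖σ b‖ ^ 2 ≤ 4 * q

/-- The smaller slope of the polynomial `T ^ 2 - x T + q`, `q = p ^ m`, where `x` is an integral
element of an algebraic closure of `ℚ_p`: the minimum of `1 / 2` and the valuation of `x`, normalized
such that the valuation of `q` is one. -/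
noncomputable def slope (p m : ℕ) [Fact p.Prime] (x : PadicAlgCl p) : ℝ :=
  - Real.logb ((p : ℝ) ^ m) (max ‖x‖ (√((p : ℝ) ^ m))⁻¹)

/-- If `b ^ 2 - 4 q` and `b' ^ 2 - 4 q` differ by the square of a number in `L`, where `b` is in `S`
and `b'` is conjugate to a number in `S`, then the polynomials `T ^ 2 - b T + q` and
`T ^ 2 - b' T + q` have the same slopes at all places above `p`. -/
def EqualSlopes [CharZero L] (p m : ℕ) [Fact p.Prime] (S : Set (𝓞 L)) : Prop :=
  ∀ b ∈ S, ∀ b' ∈ S, ∀ σ : L ≃ₐ[ℚ] L,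
    IsSquare (((b : L) ^ 2 - 4 * (p : L) ^ m) * ((σ (b' : L)) ^ 2 - 4 * (p : L) ^ m)) →
      ∀ τ : L →+* PadicAlgCl p, slope p m (τ b) = slope p m (τ (σ (b' : L)))

/-- The slopes of the polynomials `T ^ 2 - b T + q`, `b ∈ S`, belong to `Λ`. -/
def SlopesIn (p m : ℕ) [Fact p.Prime] (Λ : Set ℝ) (S : Set (𝓞 L)) : Prop :=
  ∀ b ∈ S, ∀ τ : L →+* PadicAlgCl p, slope p m (τ b) ∈ Λ

/-- No number in `S` is divisible by a prime ideal above `p`: the roots of `T ^ 2 - b T + q` are
ordinary Weil numbers. -/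
def PrimeTo (p : ℕ) (S : Set (𝓞 L)) : Prop :=
  ∀ b ∈ S, ∀ P ∈ Ideal.primesOver (Ideal.span {(p : ℤ)}) (𝓞 L), b ∉ P

/-- The number of prime ideals of `L` above `p`. -/
noncomputable def numPrimes (p : ℕ) (L : Type) [Field L] : ℕ :=
  (Ideal.primesOver (Ideal.span {(p : ℤ)}) (𝓞 L)).ncard

end Pool.Agent.P8H27.RF
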