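import Mathlib

/-!
# Zero-sum families of sign vectors
-/

set_option autoImplicit false

namespace Pool.Agent.P8H27.RF

open Finset

/-- Every nonempty family of vectors of length `t` with entries `0, 1, -1`, where the zeros of all
vectors are at the same places and not all entries are zero, with sum zero, has a nonempty
subfamily of at most `d` vectors with sum zero. -/
def Bound (t d : ℕ) : Prop :=
  ∀ (B : Type) [Fintype B] (ε : B → Fin t → SignType), (∀ k k' i, ε k i = 0 → ε k' i = 0) →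
    (∃ k i, ε k i ≠ 0) → (∀ i, ∑ k, (ε k i : ℤ) = 0) →
    ∃ S : Finset B, S.Nonempty ∧ S.card ≤ d ∧ ∀ i, ∑ k ∈ S, (ε k i : ℤ) = 0

theorem Bound.mono_left {s t d : ℕ} (h : Bound t d) (hst : s ≤ t) : Bound s d := by
  classical
  intro B _ ε h0 h1 h2
  let ε' : B → Fin t → SignType := fun k i => if hi : (i : ℕ) < s then ε k ⟨i, hi⟩ else 0
  have g0 : ∀ k k' i, ε' k i = 0 → ε' k' i = 0 := by
    intro k k' i hi
    by_cases his : (i : ℕ) < s
    · simp only [ε', his, dif_pos] at hi ⊢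
      exact h0 _ _ _ hi
    · simp only [ε', his, dif_neg, not_false_eq_true]
  have g1 : ∃ k i, ε' k i ≠ 0 := by
    obtain ⟨k, i, hki⟩ := h1
    refine ⟨k, ⟨i, i.2.trans_le hst⟩, ?_⟩
    simp only [ε', i.2, dif_pos]
    exact hki
  have g2 : ∀ i, ∑ k, (ε' k i : ℤ) = 0 := by
    intro i
    by_cases his : (i : ℕ) < s
    · simp only [ε', his, dif_pos]
      exact h2 _
    · simp only [ε', his, dif_neg, not_false_eq_true, SignType.coe_zero, sum_const_zero]
  obtain ⟨S, hS, hd, hsum⟩ := h B ε' g0 g1 g2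
  refine ⟨S, hS, hd, fun i => ?_⟩
  have h3 := hsum ⟨i, i.2.trans_le hst⟩
  simp only [ε', i.2, dif_pos] at h3
  exact h3

theorem Bound.mono_right {t d e : ℕ} (h : Bound t d) (hde : d ≤ e) : Bound t e := by
  intro B _ ε h0 h1 h2
  obtain ⟨S, hS, hd, hsum⟩ := h B ε h0 h1 h2
  exact ⟨S, hS, hd.trans hde, hsum⟩

/-- The bounds exist, by Dickson's lemma. -/
theorem exists_bound (t : ℕ) : ∃ d, Bound t d := by
  classical
  let V := Fin t → SignType
  let P : (V → ℕ) → Prop := fun n => n ≠ 0 ∧ ∀ i, ∑ v : V, (n v : ℤ) * (v i : ℤ) = 0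
  have hfin : {n | Minimal P n}.Finite :=
    WellQuasiOrderedLE.finite_of_isAntichain (setOfPred_minimal_antichain P)
  refine ⟨hfin.toFinset.sup fun n => ∑ v, n v, fun B _ ε h0 h1 h2 => ?_⟩
  let n : V → ℕ := fun v => #{k : B | ε k = v}
  have hn : P n := by
    refine ⟨fun h => ?_, fun i => ?_⟩
    · obtain ⟨k, i, hki⟩ := h1
      have h3 : n (ε k) = 0 := by rw [h]; rfl
      have h4 : k ∈ ({k' : B | ε k' = ε k} : Finset B) := by simp
      rw [card_eq_zero.1 h3] at h4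
      exact absurd h4 (notMem_empty k)
    · rw [← h2 i, ← sum_fiberwise (s := univ) (g := ε) (f := fun k => (ε k i : ℤ))]
      refine sum_congr rfl fun v _ => ?_
      rw [sum_congr rfl (g := fun _ => (v i : ℤ))
        (fun k hk => by rw [(mem_filter.1 hk).2]), sum_const, nsmul_eq_mul]
  obtain ⟨n', hn', hmin⟩ := exists_minimal_le_of_wellFoundedLT P n hn
  choose T hT hTc using fun v : V => exists_subset_card_eq (hn' v)
  have hTε : ∀ v, ∀ k ∈ T v, ε k = v := fun v k hk => (mem_filter.1 (hT v hk)).2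
  have hdisj : ∀ v ∈ (univ : Finset V), ∀ v' ∈ (univ : Finset V), v ≠ v' →
      Disjoint (T v) (T v') := by
    intro v _ v' _ hvv
    rw [Finset.disjoint_left]
    intro k hk hk'
    exact hvv ((hTε v k hk).symm.trans (hTε v' k hk'))
  have hcard : (univ.biUnion T).card = ∑ v, n' v := by
    rw [card_biUnion hdisj]
    exact sum_congr rfl fun v _ => hTc v
  refine ⟨univ.biUnion T, ?_, ?_, fun i => ?_⟩
  · rw [← card_pos, hcard]
    by_contra hcon
    apply hmin.1.1
    funext v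
    have h3 : ∑ v, n' v = 0 := by omega
    exact (sum_eq_zero_iff.1 h3) v (mem_univ v)
  · rw [hcard]
    exact le_sup (f := fun n : V → ℕ => ∑ v, n v) (hfin.mem_toFinset.2 hmin)
  · rw [sum_biUnion hdisj, ← hmin.1.2 i]
    refine sum_congr rfl fun v _ => ?_
    rw [sum_congr rfl (g := fun _ => (v i : ℤ))
        (fun k hk => by rw [hTε v k hk]), sum_const, nsmul_eq_mul, hTc]

theorem sign_aux1 : ∀ x y z w : SignType, (x = 0 → z = 0) → (y = 0 → w = 0) → (z = 0 → x = 0) →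
    (w = 0 → y = 0) → z ≠ -x ∨ w ≠ -y → (0 : ℤ) ≤ (x : ℤ) * z + (y : ℤ) * w := by
  intro x y z w
  rcases x with _ | _ | _ <;> rcases y with _ | _ | _ <;> rcases z with _ | _ | _ <;>
    rcases w with _ | _ | _ <;> decide

theorem bound_two : Bound 2 2 := by
  classical
  intro B _ ε h0 ⟨k₁, i₁, h1⟩ h2
  by_cases hcon : ∃ k₂, ∀ i, ε k₂ i = - ε k₁ i
  · obtain ⟨k₂, hk₂⟩ := hcon
    have hne : k₁ ≠ k₂ := by
      rintro rfl
      have h3 := hk₂ i₁
      revert h3 h1
      generalize ε k₁ i₁ = x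
      revert x
      decide
    refine ⟨{k₁, k₂}, by simp, card_le_two, fun i => ?_⟩
    rw [sum_pair hne, hk₂]
    generalize ε k₁ i = x
    revert x
    decide
  · exfalso
    push Not at hcon
    have h3 : ∑ k, ((ε k₁ 0 : ℤ) * ε k 0 + (ε k₁ 1 : ℤ) * ε k 1) = 0 := by
      rw [sum_add_distrib, ← mul_sum, ← mul_sum, h2, h2, mul_zero, mul_zero, add_zero]
    have h4 : ∀ k, 0 ≤ (ε k₁ 0 : ℤ) * ε k 0 + (ε k₁ 1 : ℤ) * ε k 1 := by
      intro k
      obtain ⟨i, hi⟩ := hcon k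
      have a0 := h0 k₁ k 0
      have a1 := h0 k₁ k 1
      have b0 := h0 k k₁ 0
      have b1 := h0 k k₁ 1
      have hi' : ε k 0 ≠ - ε k₁ 0 ∨ ε k 1 ≠ - ε k₁ 1 := by
        fin_cases i
        · exact Or.inl hi
        · exact Or.inr hi
      exact sign_aux1 _ _ _ _ a0 a1 b0 b1 hi'
    have h5 : 0 < (ε k₁ 0 : ℤ) * ε k₁ 0 + (ε k₁ 1 : ℤ) * ε k₁ 1 := by
      have h1' : ε k₁ 0 ≠ 0 ∨ ε k₁ 1 ≠ 0 := by
        fin_cases i₁
        · exact Or.inl h1
        · exact Or.inr h1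
      revert h1'
      generalize ε k₁ 0 = x
      generalize ε k₁ 1 = y
      revert x y
      decide
    exact absurd h3 (sum_pos' (fun k _ => h4 k) ⟨k₁, mem_univ _, h5⟩).ne'

theorem bound_three : Bound 3 4 := by
  classical
  intro B _ ε h0 ⟨k₁, i₁, h1⟩ h2
  by_cases hcon : ∃ k₂, ∀ i, ε k₂ i = - ε k₁ i
  · obtain ⟨k₂, hk₂⟩ := hcon
    have hne : k₁ ≠ k₂ := by
      rintro rfl
      have h3 := hk₂ i₁
      revert h3 h1
      generalize ε k₁ i₁ = x
      revert x
      decide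
    refine ⟨{k₁, k₂}, by simp, card_le_two.trans (by norm_num), fun i => ?_⟩
    rw [sum_pair hne, hk₂]
    generalize ε k₁ i = x
    revert x
    decide
  push Not at hcon
  -- an element which is opposite to `k₁` in the coordinates `i`, `j`
  have key : ∀ i j : Fin 3, i ≠ j → ε k₁ i ≠ 0 →
      ∃ k, (ε k₁ i : ℤ) * ε k i + (ε k₁ j : ℤ) * ε k j < 0 := by
    intro i j hij hi
    by_contra hk
    push Not at hk
    have h3 : ∑ k, ((ε k₁ i : ℤ) * ε k i + (ε k₁ j : ℤ) * ε k j) = 0 := by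
      rw [sum_add_distrib, ← mul_sum, ← mul_sum, h2, h2, mul_zero, mul_zero, add_zero]
    have h5 : 0 < (ε k₁ i : ℤ) * ε k₁ i + (ε k₁ j : ℤ) * ε k₁ j := by
      revert hi
      generalize ε k₁ i = x
      generalize ε k₁ j = y
      revert x y
      decide
    exact absurd h3 (sum_pos' (fun k _ => hk k) ⟨k₁, mem_univ _, h5⟩).ne'
  have hall : ∀ i, ε k₁ i ≠ 0 := by
    intro i hi
    obtain ⟨j, l, hjl, hl, huniv⟩ : ∃ j l : Fin 3, j ≠ l ∧ ε k₁ j ≠ 0 ∧
        ∀ r, r = i ∨ r = j ∨ r = l := by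
      have hne : i ≠ i₁ := fun h => h1 (h ▸ hi)
      have h6 : ∀ i i₁ : Fin 3, i ≠ i₁ → ∃ l, i₁ ≠ l ∧ ∀ r, r = i ∨ r = i₁ ∨ r = l := by
        decide
      obtain ⟨l, hl, hr⟩ := h6 i i₁ hne
      exact ⟨i₁, l, hl, h1, hr⟩
    obtain ⟨k, hk⟩ := key j l hjl hl
    obtain ⟨r, hr⟩ := hcon k
    apply hr
    have a0 := h0 k₁ k i hi
    have aj := h0 k₁ k j
    have al := h0 k₁ k l
    have bj := h0 k k₁ j
    have bl := h0 k k₁ l
    rcases huniv r with rfl | rfl | rfl
    · rw [a0, hi]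
      rfl
    · revert hk aj al bj bl
      generalize ε k₁ r = x
      generalize ε k₁ l = y
      generalize ε k r = z
      generalize ε k l = w
      revert x y z w
      decide
    · revert hk aj al bj bl
      generalize ε k₁ j = x
      generalize ε k₁ r = y
      generalize ε k j = z
      generalize ε k r = w
      revert x y z w
      decide
  obtain ⟨a, ha⟩ := key 1 2 (by decide) (hall 1)
  obtain ⟨b, hb⟩ := key 0 2 (by decide) (hall 0)
  obtain ⟨c, hc⟩ := key 0 1 (by decide) (hall 0)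
  have hne : ∀ k, ε k 0 ≠ - ε k₁ 0 ∨ ε k 1 ≠ - ε k₁ 1 ∨ ε k 2 ≠ - ε k₁ 2 := by
    intro k
    obtain ⟨i, hi⟩ := hcon k
    fin_cases i
    · exact Or.inl hi
    · exact Or.inr (Or.inl hi)
    · exact Or.inr (Or.inr hi)
  have hz : ∀ k i, ε k i ≠ 0 := fun k i h => hall i (h0 k k₁ i h)
  have ha' : ε a 0 = ε k₁ 0 ∧ ε a 1 = - ε k₁ 1 ∧ ε a 2 = - ε k₁ 2 := by
    have z0 := hz a 0
    have z1 := hz a 1
    have z2 := hz a 2
    have y0 := hz k₁ 0
    have y1 := hz k₁ 1
    have y2 := hz k₁ 2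
    have hn := hne a
    revert z0 z1 z2 y0 y1 y2 hn ha
    generalize ε a 0 = x0
    generalize ε a 1 = x1
    generalize ε a 2 = x2
    generalize ε k₁ 0 = w0
    generalize ε k₁ 1 = w1
    generalize ε k₁ 2 = w2
    revert x0 x1 x2 w0 w1 w2
    decide
  have hb' : ε b 0 = - ε k₁ 0 ∧ ε b 1 = ε k₁ 1 ∧ ε b 2 = - ε k₁ 2 := by
    have z0 := hz b 0
    have z1 := hz b 1
    have z2 := hz b 2
    have y0 := hz k₁ 0
    have y1 := hz k₁ 1
    have y2 := hz k₁ 2
    have hn := hne b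
    revert z0 z1 z2 y0 y1 y2 hn hb
    generalize ε b 0 = x0
    generalize ε b 1 = x1
    generalize ε b 2 = x2
    generalize ε k₁ 0 = w0
    generalize ε k₁ 1 = w1
    generalize ε k₁ 2 = w2
    revert x0 x1 x2 w0 w1 w2
    decide
  have hc' : ε c 0 = - ε k₁ 0 ∧ ε c 1 = - ε k₁ 1 ∧ ε c 2 = ε k₁ 2 := by
    have z0 := hz c 0
    have z1 := hz c 1
    have z2 := hz c 2
    have y0 := hz k₁ 0
    have y1 := hz k₁ 1
    have y2 := hz k₁ 2
    have hn := hne c
    revert z0 z1 z2 y0 y1 y2 hn hc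
    generalize ε c 0 = x0
    generalize ε c 1 = x1
    generalize ε c 2 = x2
    generalize ε k₁ 0 = w0
    generalize ε k₁ 1 = w1
    generalize ε k₁ 2 = w2
    revert x0 x1 x2 w0 w1 w2
    decide
  have hself : ∀ i, ε k₁ i ≠ - ε k₁ i := by
    intro i
    have := hall i
    revert this
    generalize ε k₁ i = x
    revert x
    decide
  have e1 : k₁ ≠ a := fun h => hself 1 (by rw [← ha'.2.1, ← h])
  have e2 : k₁ ≠ b := fun h => hself 0 (by rw [← hb'.1, ← h])
  have e3 : k₁ ≠ c := fun h => hself 0 (by rw [← hc'.1, ← h])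
  have e4 : a ≠ b := fun h => hself 0 (by rw [← hb'.1, ← h, ha'.1])
  have e5 : a ≠ c := fun h => hself 0 (by rw [← hc'.1, ← h, ha'.1])
  have e6 : b ≠ c := fun h => hself 1 (by rw [← hc'.2.1, ← h, hb'.2.1])
  refine ⟨{k₁, a, b, c}, by simp, card_le_four, fun i => ?_⟩
  rw [sum_insert (by simp [e1, e2, e3]), sum_insert (by simp [e4, e5]), sum_pair e6]
  fin_cases i
  · change (ε k₁ 0 : ℤ) + (ε a 0 + (ε b 0 + ε c 0)) = 0
    rw [ha'.1, hb'.1, hc'.1]
    generalize ε k₁ 0 = x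
    revert x
    decide
  · change (ε k₁ 1 : ℤ) + (ε a 1 + (ε b 1 + ε c 1)) = 0
    rw [ha'.2.1, hb'.2.1, hc'.2.1]
    generalize ε k₁ 1 = x
    revert x
    decide
  · change (ε k₁ 2 : ℤ) + (ε a 2 + (ε b 2 + ε c 2)) = 0
    rw [ha'.2.2, hb'.2.2, hc'.2.2]
    generalize ε k₁ 2 = x
    revert x
    decide

end Pool.Agent.P8H27.RF

namespace Pool.Agent.P8H27.RF

open Finset

/-- Every nonempty family of vectors of length `t` with entries in `V` and sum zero has a nonempty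
subfamily of at most `d` vectors with sum zero. -/
def BoundR (t : ℕ) (V : Set ℝ) (d : ℕ) : Prop :=
  ∀ (B : Type) [Fintype B] [Nonempty B] (v : B → Fin t → ℝ), (∀ k i, v k i ∈ V) →
    (∀ i, ∑ k, v k i = 0) → ∃ S : Finset B, S.Nonempty ∧ S.card ≤ d ∧ ∀ i, ∑ k ∈ S, v k i = 0

/-- The bounds exist, by Dickson's lemma. -/
theorem exists_boundR (t : ℕ) {V : Set ℝ} (hV : V.Finite) : ∃ d, BoundR t V d := by
  classical
  let _ : Fintype V := hV.fintype
  let U := Fin t → V
  let P : (U → ℕ) → Prop := fun n => n ≠ 0 ∧ ∀ i, ∑ v : U, (n v : ℝ) * (v i : ℝ) = 0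
  have hfin : {n | Minimal P n}.Finite :=
    WellQuasiOrderedLE.finite_of_isAntichain (setOfPred_minimal_antichain P)
  refine ⟨hfin.toFinset.sup fun n => ∑ v, n v, fun B _ _ w hw h2 => ?_⟩
  let ε : B → U := fun k i => ⟨w k i, hw k i⟩
  have h2' : ∀ i, ∑ k, (ε k i : ℝ) = 0 := h2
  let n : U → ℕ := fun v => #{k : B | ε k = v}
  have hn : P n := by
    refine ⟨fun h => ?_, fun i => ?_⟩
    · obtain ⟨k⟩ := (inferInstance : Nonempty B)
      have h3 : n (ε k) = 0 := by rw [h]; rfl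
      have h4 : k ∈ ({k' : B | ε k' = ε k} : Finset B) := by simp
      rw [card_eq_zero.1 h3] at h4
      exact absurd h4 (notMem_empty k)
    · rw [← h2' i, ← sum_fiberwise (s := univ) (g := ε) (f := fun k => (ε k i : ℝ))]
      refine sum_congr rfl fun v _ => ?_
      rw [sum_congr rfl (g := fun _ => (v i : ℝ))
        (fun k hk => by rw [(mem_filter.1 hk).2]), sum_const, nsmul_eq_mul]
  obtain ⟨n', hn', hmin⟩ := exists_minimal_le_of_wellFoundedLT P n hn
  choose T hT hTc using fun v : U => exists_subset_card_eq (hn' v)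
  have hTε : ∀ v, ∀ k ∈ T v, ε k = v := fun v k hk => (mem_filter.1 (hT v hk)).2
  have hdisj : ∀ v ∈ (univ : Finset U), ∀ v' ∈ (univ : Finset U), v ≠ v' →
      Disjoint (T v) (T v') := by
    intro v _ v' _ hvv
    rw [Finset.disjoint_left]
    intro k hk hk'
    exact hvv ((hTε v k hk).symm.trans (hTε v' k hk'))
  have hcard : (univ.biUnion T).card = ∑ v, n' v := by
    rw [card_biUnion hdisj]
    exact sum_congr rfl fun v _ => hTc v
  refine ⟨univ.biUnion T, ?_, ?_, fun i => ?_⟩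
  · rw [← card_pos, hcard]
    by_contra hcon
    apply hmin.1.1
    funext v
    have h3 : ∑ v, n' v = 0 := by omega
    exact (sum_eq_zero_iff.1 h3) v (mem_univ v)
  · rw [hcard]
    exact le_sup (f := fun n : U → ℕ => ∑ v, n v) (hfin.mem_toFinset.2 hmin)
  · change ∑ k ∈ univ.biUnion T, (ε k i : ℝ) = 0
    rw [sum_biUnion hdisj, ← hmin.1.2 i]
    refine sum_congr rfl fun v _ => ?_
    rw [sum_congr rfl (g := fun _ => (v i : ℝ))
        (fun k hk => by rw [hTε v k hk]), sum_const, nsmul_eq_mul, hTc]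

end Pool.Agent.P8H27.RF
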