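import Mathlib
import Pool.Agent.H485R3.K3Type

/-!
# Embeddings of a number field into an algebraic closure of `ℚ_p` which define the same prime ideal
-/

set_option autoImplicit false

namespace Pool.Agent.P8H27.RF

open NumberField Pool.Agent.H485R3

section conj

variable {p : ℕ} [hp : Fact p.Prime] {L : Type*} [Field L] [NumberField L]

theorem norm_conj (δ : PadicAlgCl p ≃ₐ[ℚ_[p]] PadicAlgCl p) (x : PadicAlgCl p) :
    ‖δ x‖ = ‖x‖ := by
  rw [← PadicAlgCl.spectralNorm_eq, ← PadicAlgCl.spectralNorm_eq]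
  exact (spectralNorm_eq_of_equiv δ x).symm

theorem norm_of_not_mem (τ : L →+* PadicAlgCl p) {b : 𝓞 L} (hb : b ∉ primeOf p τ) :
    ‖τ (algebraMap (𝓞 L) L b)‖ = 1 := by
  rw [mem_primeOf, not_lt] at hb
  exact le_antisymm (norm_int_le p τ b) hb

theorem norm_int_eq_of_primeOf (τ τ' : L →+* PadicAlgCl p) (h : primeOf p τ = primeOf p τ')
    (w : 𝓞 L) : ‖τ (algebraMap (𝓞 L) L w)‖ = ‖τ' (algebraMap (𝓞 L) L w)‖ := by
  rcases eq_or_ne w 0 with rfl | hw
  · rw [map_zero, map_zero, map_zero]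
  obtain ⟨n, γ, hn, hγ0, hγ⟩ := exists_principal_pow (primeOf p τ) (primeOf_ne_bot p τ)
  have key : ∀ w : 𝓞 L, w ≠ 0 → ∃ a : ℕ,
      ‖τ (algebraMap (𝓞 L) L w)‖ ^ n = ‖τ (algebraMap (𝓞 L) L γ)‖ ^ a ∧
      ‖τ' (algebraMap (𝓞 L) L w)‖ ^ n = ‖τ' (algebraMap (𝓞 L) L γ)‖ ^ a := by
    intro w hw
    obtain ⟨a, b, hab, hb⟩ := pow_decomp' (primeOf p τ) (primeOf_ne_bot p τ)
      (primeOf_isPrime p τ) n γ hγ0 hγ w hw
    have hb' : b ∉ primeOf p τ' := h ▸ hb
    refine ⟨a, ?_, ?_⟩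
    · have h1 := congrArg (fun x => ‖τ (algebraMap (𝓞 L) L x)‖) hab
      simp only [map_pow, map_mul, norm_pow, norm_mul] at h1
      rw [h1, norm_of_not_mem τ hb, mul_one]
    · have h1 := congrArg (fun x => ‖τ' (algebraMap (𝓞 L) L x)‖) hab
      simp only [map_pow, map_mul, norm_pow, norm_mul] at h1
      rw [h1, norm_of_not_mem τ' hb', mul_one]
  have hp0 : ((p : ℕ) : 𝓞 L) ≠ 0 := by exact_mod_cast hp.out.ne_zero
  obtain ⟨a, ha, ha'⟩ := key ((p : ℕ) : 𝓞 L) hp0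
  rw [map_natCast, map_natCast] at ha ha'
  have ha0 : a ≠ 0 := by
    rintro rfl
    rw [pow_zero] at ha
    have h1 := pow_lt_one₀ (norm_nonneg _) (norm_p_lt p) hn.ne'
    exact absurd ha h1.ne
  have hγγ : ‖τ (algebraMap (𝓞 L) L γ)‖ = ‖τ' (algebraMap (𝓞 L) L γ)‖ := by
    rw [← pow_left_inj₀ (norm_nonneg _) (norm_nonneg _) ha0, ← ha, ← ha']
  obtain ⟨b, hb, hb'⟩ := key w hw
  rw [← pow_left_inj₀ (norm_nonneg _) (norm_nonneg _) hn.ne', hb, hb', hγγ]

theorem norm_eq_of_primeOf (τ τ' : L →+* PadicAlgCl p) (h : primeOf p τ = primeOf p τ')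
    (x : L) : ‖τ x‖ = ‖τ' x‖ := by
  obtain ⟨a, b, hb, rfl⟩ := IsFractionRing.div_surjective (A := 𝓞 L) x
  rw [map_div₀, map_div₀, norm_div, norm_div, norm_int_eq_of_primeOf τ τ' h,
    norm_int_eq_of_primeOf τ τ' h]

theorem hom_ext_of_gen {K : Type*} [Field K] [CharZero K] {A : Type*} [Field A] [CharZero A]
    {π : K} (hgen : IntermediateField.adjoin ℚ {π} = ⊤) {σ τ : K →+* A} (h : σ π = τ π) :
    σ = τ := by
  let σ' : K →ₐ[ℚ] A := RingHom.equivRatAlgHom K A σ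
  let τ' : K →ₐ[ℚ] A := RingHom.equivRatAlgHom K A τ
  have h1 : ∀ x ∈ IntermediateField.adjoin ℚ {π}, σ' x = τ' x := by
    intro x hx
    induction hx using IntermediateField.adjoin_induction with
    | mem x hx =>
      rw [Set.mem_singleton_iff.1 hx]
      exact h
    | algebraMap x => rw [AlgHom.commutes, AlgHom.commutes]
    | add x y _ _ hx hy => rw [map_add, map_add, hx, hy]
    | inv x _ hx => rw [map_inv₀, map_inv₀, hx]
    | mul x y _ _ hx hy => rw [map_mul, map_mul, hx, hy]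
  exact RingHom.ext fun x => h1 x (by rw [hgen]; trivial)

/-- Embeddings that define the same absolute value are conjugate over `ℚ_p`. -/
theorem exists_conj (τ τ' : L →+* PadicAlgCl p) (h : ∀ x : L, ‖τ x‖ = ‖τ' x‖) :
    ∃ δ : PadicAlgCl p ≃ₐ[ℚ_[p]] PadicAlgCl p, ∀ x, τ' x = δ (τ x) := by
  classical
  obtain ⟨θ, hθ⟩ := Field.exists_primitive_element ℚ L
  set f := minpoly ℚ_[p] (τ θ) with hf
  have hint : IsIntegral ℚ_[p] (τ θ) := Algebra.IsIntegral.isIntegral _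
  -- the equality of norms for all polynomials with coefficients in `ℚ_p`
  let n := f.natDegree + 1
  have key : ∀ a : Fin n → ℚ_[p],
      ‖∑ i, algebraMap ℚ_[p] (PadicAlgCl p) (a i) * τ θ ^ (i : ℕ)‖ =
      ‖∑ i, algebraMap ℚ_[p] (PadicAlgCl p) (a i) * τ' θ ^ (i : ℕ)‖ := by
    have hdense : DenseRange (Pi.map (fun (_ : Fin n) => ((↑) : ℚ → ℚ_[p]))) :=
      DenseRange.piMap fun _ => Padic.denseRange_ratCast p
    intro a
    refine hdense.induction_on (p := fun a : Fin n → ℚ_[p] =>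
      ‖∑ i, algebraMap ℚ_[p] (PadicAlgCl p) (a i) * τ θ ^ (i : ℕ)‖ =
      ‖∑ i, algebraMap ℚ_[p] (PadicAlgCl p) (a i) * τ' θ ^ (i : ℕ)‖) a ?_ ?_
    · refine isClosed_eq ?_ ?_
      · exact (continuous_finsetSum _ fun i _ => ((continuous_algebraMap ℚ_[p]
          (PadicAlgCl p)).comp (continuous_apply i)).mul continuous_const).norm
      · exact (continuous_finsetSum _ fun i _ => ((continuous_algebraMap ℚ_[p]
          (PadicAlgCl p)).comp (continuous_apply i)).mul continuous_const).norm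
    · intro b
      have h1 : ∀ σ : L →+* PadicAlgCl p, ∑ i : Fin n, algebraMap ℚ_[p] (PadicAlgCl p)
          (Pi.map (fun (_ : Fin n) => ((↑) : ℚ → ℚ_[p])) b i) * σ θ ^ (i : ℕ) =
          σ (∑ i : Fin n, ((b i : ℚ) : L) * θ ^ (i : ℕ)) := by
        intro σ
        rw [map_sum]
        refine Finset.sum_congr rfl fun i _ => ?_
        rw [map_mul, map_pow, map_ratCast]
        congr 1
      rw [h1, h1, h]
  have h1 : ∀ σ : L →+* PadicAlgCl p, Polynomial.aeval (σ θ) f =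
      ∑ i : Fin n, algebraMap ℚ_[p] (PadicAlgCl p) (f.coeff i) * σ θ ^ (i : ℕ) := by
    intro σ
    rw [Polynomial.aeval_eq_sum_range, ← Fin.sum_univ_eq_sum_range
      (fun i => f.coeff i • σ θ ^ i)]
    exact Finset.sum_congr rfl fun i _ => by rw [Algebra.smul_def]
  have h2 : Polynomial.aeval (τ' θ) f = 0 := by
    have h3 := key fun i => f.coeff i
    rw [← h1 τ, ← h1 τ', hf, minpoly.aeval, norm_zero] at h3
    rw [hf]
    exact norm_eq_zero.1 h3.symm
  have hconj : IsConjRoot ℚ_[p] (τ θ) (τ' θ) := (isConjRoot_iff_aeval_eq_zero hint).2 h2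
  obtain ⟨δ, hδ⟩ := hconj.exists_algEquiv
  refine ⟨δ.symm, fun x => ?_⟩
  have h3 : τ' = ((δ.symm : PadicAlgCl p ≃ₐ[ℚ_[p]] PadicAlgCl p) :
      PadicAlgCl p →+* PadicAlgCl p).comp τ := by
    apply hom_ext_of_gen hθ
    change τ' θ = δ.symm (τ θ)
    rw [← hδ, AlgEquiv.symm_apply_apply]
  exact RingHom.congr_fun h3 x

end conj

end Pool.Agent.P8H27.RF
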