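import Mathlib
import Pool.Agent.P8H27.RF.Local
import Pool.Agent.H485R3.Rel
import Pool.Agent.H485R3.Exact.ExoticMain

/-!
# Weil numbers in a Galois number field and their weights
-/

set_option autoImplicit false
set_option linter.unusedSectionVars false

namespace Pool.Agent.P8H27.RF

open NumberField Pool.Agent.H485R3 Pool.Agent.H485R3.Exact Pool.Agent.H925R2

/-- `a` is a Weil `q`-number. -/
structure IsWeil (q : ℕ) {E : Type} [Field E] (a : E) : Prop where
  int : IsIntegral ℤ a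
  int' : IsIntegral ℤ ((q : E) / a)
  abs : ∀ e : E →+* ℂ, ‖e a‖ ^ 2 = q

section

variable {p m : ℕ} [hp : Fact p.Prime] {E : Type} [Field E] [NumberField E] [IsGalois ℚ E]

theorem norm_padic (l : ℕ) [Fact l.Prime] : ‖(l : PadicAlgCl l)‖ = (l : ℝ)⁻¹ := by
  have h1 : (l : PadicAlgCl l) = algebraMap ℚ_[l] (PadicAlgCl l) (l : ℚ_[l]) := by simp
  rw [h1, PadicAlgCl.norm_extends, Padic.norm_p]

theorem norm_padic_ne (l : ℕ) [Fact l.Prime] (hl : l ≠ p) : ‖((p ^ m : ℕ) : PadicAlgCl l)‖ = 1 := by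
  push_cast
  have h4 : (p : PadicAlgCl l) = algebraMap ℚ_[l] (PadicAlgCl l) (p : ℚ_[l]) := by simp
  rw [norm_pow, h4, PadicAlgCl.norm_extends,
    Padic.norm_natCast_eq_one_iff.2 ((Nat.coprime_primes (Fact.out : l.Prime) hp.out).2 hl),
    one_pow]

theorem log_norm_q : Real.log ‖((p ^ m : ℕ) : PadicAlgCl p)‖ = - (m * Real.log p) := by
  push_cast
  rw [norm_pow, Real.log_pow, norm_padic, Real.log_inv]
  ring

theorem q_ne (K : Type) [Field K] [CharZero K] : ((p ^ m : ℕ) : K) ≠ 0 := by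
  exact_mod_cast (pow_pos hp.out.pos m).ne'

/-- Twice the slope minus `m`, times `log p`. -/
noncomputable def wt (jp : E →+* PadicAlgCl p) (m : ℕ) (g : E ≃ₐ[ℚ] E) (a : E) : ℝ :=
  - (2 * Real.log ‖jp (g a)‖ + m * Real.log p)

theorem IsWeil.ne_zero {a : E} (h : IsWeil (p ^ m) a) : a ≠ 0 := by
  rintro rfl
  obtain ⟨e⟩ := (inferInstance : Nonempty (E →+* ℂ))
  have h1 := h.abs e
  rw [map_zero, norm_zero] at h1
  have h2 : (0 : ℝ) < ((p ^ m : ℕ) : ℝ) := by exact_mod_cast pow_pos hp.out.pos m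
  rw [← h1] at h2
  norm_num at h2

variable (jp : E →+* PadicAlgCl p)

theorem norm_pos' {a : E} (h : a ≠ 0) (g : E ≃ₐ[ℚ] E) : 0 < ‖jp (g a)‖ :=
  norm_pos_iff.2 ((map_ne_zero jp).2 ((map_ne_zero g).2 h))

theorem wt_inv {a : E} (h : a ≠ 0) (g : E ≃ₐ[ℚ] E) :
    wt jp m g (((p ^ m : ℕ) : E) / a) = - wt jp m g a := by
  unfold wt
  have h1 : jp (g (((p ^ m : ℕ) : E) / a)) = ((p ^ m : ℕ) : PadicAlgCl p) / jp (g a) := by
    rw [map_div₀, map_div₀, map_natCast, map_natCast]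
  have h2 : Real.log ‖jp (g (((p ^ m : ℕ) : E) / a))‖ =
      - (m * Real.log p) - Real.log ‖jp (g a)‖ := by
    rw [h1, norm_div, Real.log_div (norm_ne_zero_iff.2 (q_ne _)) (norm_pos' jp h g).ne',
      log_norm_q]
  rw [h2]
  ring

theorem log_prod {K : Type} [Fintype K] {a : K → E} (ha : ∀ k, a k ≠ 0) (g : E ≃ₐ[ℚ] E) :
    2 * Real.log ‖jp (g (∏ k, a k))‖ + Fintype.card K * (m * Real.log p) =
      - ∑ k, wt jp m g (a k) := by
  have h2 : Real.log ‖jp (g (∏ k, a k))‖ = ∑ k, Real.log ‖jp (g (a k))‖ := by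
    rw [map_prod, map_prod, norm_prod, Real.log_prod]
    exact fun k _ => (norm_pos' jp (ha k) g).ne'
  unfold wt
  rw [h2, ← Finset.sum_neg_distrib, Finset.mul_sum]
  simp only [neg_neg]
  rw [Finset.sum_add_distrib, Finset.sum_const, Finset.card_univ, nsmul_eq_mul]

/-- Multiplicative relations give balanced families. -/
theorem sum_of_rel {K : Type} [Fintype K] {a : K → E} (ha : ∀ k, a k ≠ 0) {s : ℕ} (hs : 0 < s)
    (hrel : (∏ k, a k) ^ (2 * s) = ((p ^ m : ℕ) : E) ^ (s * Fintype.card K)) (g : E ≃ₐ[ℚ] E) :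
    ∑ k, wt jp m g (a k) = 0 := by
  have h1 := log_prod (m := m) jp ha g
  have h2 := congrArg (fun x => Real.log ‖jp (g x)‖) hrel
  simp only [map_pow, norm_pow, Real.log_pow, map_natCast] at h2
  rw [log_norm_q] at h2
  have hs' : (s : ℝ) ≠ 0 := by exact_mod_cast hs.ne'
  have h4 : (s : ℝ) * (2 * Real.log ‖jp (g (∏ k, a k))‖ +
      Fintype.card K * (m * Real.log p)) = 0 := by
    push_cast at h2
    linear_combination h2
  have h5 := (mul_eq_zero.1 h4).resolve_left hs'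
  rw [h5] at h1
  linarith

/-- Balanced families give multiplicative relations. -/
theorem rel_of_sum {K : Type} [Fintype K] {a : K → E} (ha : ∀ k, IsWeil (p ^ m) (a k))
    (hsum : ∀ g : E ≃ₐ[ℚ] E, ∑ k, wt jp m g (a k) = 0) :
    ∃ s : ℕ, 0 < s ∧ (∏ k, a k) ^ (2 * s) = ((p ^ m : ℕ) : E) ^ (s * Fintype.card K) := by
  have hp0 : (0 : ℝ) < p := by exact_mod_cast hp.out.pos
  have ha0 : ∀ k, a k ≠ 0 := fun k => (ha k).ne_zero
  have hP0 : ∏ k, a k ≠ 0 := Finset.prod_ne_zero_iff.2 fun k _ => ha0 k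
  have hq0 : ((p ^ m : ℕ) : E) ≠ 0 := q_ne E
  obtain ⟨s, hs, hz⟩ : ∃ s : ℕ, 0 < s ∧
      ((∏ k, a k) ^ 2 / ((p ^ m : ℕ) : E) ^ (Fintype.card K)) ^ s = 1 := by
    apply root_of_unity
    · intro l _ e
      rw [map_div₀, map_pow, map_pow, norm_div, norm_pow, norm_pow, map_natCast]
      by_cases hl : l = p
      · subst hl
        let ealg : E →ₐ[ℚ] PadicAlgCl l := (jp : E →+* PadicAlgCl l).toRatAlgHom
        obtain ⟨g, hg⟩ := Pool.Agent.H485R3.exists_gal ealg e
        have hg' : ∀ x, e x = jp (g x) := hg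
        rw [hg']
        have h1 := log_prod (m := m) jp ha0 g
        rw [hsum g, neg_zero] at h1
        have h2 : 0 < ‖jp (g (∏ k, a k))‖ := norm_pos' jp hP0 g
        have h3 : Real.log ‖((l ^ m : ℕ) : PadicAlgCl l)‖ = - (m * Real.log l) := log_norm_q
        have h4 : 0 < ‖((l ^ m : ℕ) : PadicAlgCl l)‖ := norm_pos_iff.2 (q_ne _)
        have h5 : Real.log (‖jp (g (∏ k, a k))‖ ^ 2) =
            Real.log (‖((l ^ m : ℕ) : PadicAlgCl l)‖ ^ Fintype.card K) := by
          rw [Real.log_pow, Real.log_pow, h3]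
          push_cast
          linarith
        rw [Real.log_injOn_pos (Set.mem_Ioi.2 (pow_pos h2 2))
          (Set.mem_Ioi.2 (pow_pos h4 (Fintype.card K))) h5, div_self (pow_pos h4 _).ne']
      · have h1 : ‖e (∏ k, a k)‖ = 1 := by
          rw [map_prod, norm_prod]
          refine Finset.prod_eq_one fun k _ => ?_
          have e1 : ‖e (a k)‖ ≤ 1 := norm_le_one_of_isIntegral l _
            ((ha k).int.map (e : E →+* PadicAlgCl l).toIntAlgHom)
          have e2 : ‖e (((p ^ m : ℕ) : E) / a k)‖ ≤ 1 := norm_le_one_of_isIntegral l _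
            ((ha k).int'.map (e : E →+* PadicAlgCl l).toIntAlgHom)
          have e3 : ‖e (a k)‖ * ‖e (((p ^ m : ℕ) : E) / a k)‖ = 1 := by
            rw [← norm_mul, ← map_mul, mul_div_cancel₀ _ (ha0 k), map_natCast, norm_padic_ne l hl]
          by_contra hne
          have e4 : ‖e (a k)‖ < 1 := lt_of_le_of_ne e1 hne
          have e5 : ‖e (a k)‖ * ‖e (((p ^ m : ℕ) : E) / a k)‖ < 1 :=
            mul_lt_one_of_nonneg_of_lt_one_left (norm_nonneg _) e4 e2
          exact absurd e3 e5.ne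
        rw [h1, norm_padic_ne l hl, one_pow, one_pow, div_one]
    · intro e
      have h1 : ‖e (∏ k, a k)‖ ^ 2 = (((p ^ m : ℕ) : ℝ)) ^ Fintype.card K := by
        have hw : ∀ k, ‖e (a k)‖ ^ 2 = ((p ^ m : ℕ) : ℝ) := fun k => (ha k).abs (e : E →+* ℂ)
        rw [map_prod, norm_prod, ← Finset.prod_pow, Finset.prod_congr rfl (fun k _ => hw k),
          Finset.prod_const, Finset.card_univ]
      rw [map_div₀, map_pow, map_pow, norm_div, norm_pow, norm_pow, map_natCast,
        Complex.norm_natCast, h1]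
      refine div_self (pow_pos ?_ _).ne'
      exact_mod_cast pow_pos hp.out.pos m
  refine ⟨s, hs, ?_⟩
  rw [div_pow, div_eq_one_iff_eq (pow_ne_zero _ (pow_ne_zero _ hq0))] at hz
  rw [pow_mul, hz, ← pow_mul, mul_comm]

end

end Pool.Agent.P8H27.RF
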