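import Mathlib
import Pool.Agent.P8H27.RF.Wt
import Pool.Agent.P8H27.RF.Sign

/-!
# Blocks of Weil numbers with real parts in a Galois field
-/

set_option autoImplicit false
set_option linter.unusedSectionVars false
set_option linter.unusedVariables false

namespace Pool.Agent.P8H27.RF

open NumberField Pool.Agent.H485R3 Pool.Agent.H485R3.Exact Pool.Agent.H925R2

noncomputable section

variable {p m : ℕ} [hp : Fact p.Prime] {L : Type} [Field L] [NumberField L] {E : Type} [Field E]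
  [NumberField E] [IsGalois ℚ E] [Algebra L E]

variable (L) in
/-- The number `a + q / a` belongs to `L`. -/
def RealIn (q : ℕ) (a : E) : Prop := ∃ b : L, a + (q : E) / a = algebraMap L E b

/-- `E ≃ₐ[L] E` as automorphisms over `ℚ`. -/
def res (w : E ≃ₐ[L] E) : E ≃ₐ[ℚ] E := w.restrictScalars ℚ

theorem res_apply (w : E ≃ₐ[L] E) (x : E) : res w x = w x := rfl

theorem conj_or {q : ℕ} {a : E} (ha : a ≠ 0) (h : RealIn L q a) (w : E ≃ₐ[L] E) :
    w a = a ∨ w a = (q : E) / a := by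
  obtain ⟨b, hb⟩ := h
  have hwa : w a ≠ 0 := (map_ne_zero w).2 ha
  have h1 : w a + (q : E) / w a = a + (q : E) / a := by
    have h2 := congrArg w hb
    rw [map_add, map_div₀, map_natCast, AlgEquiv.commutes, ← hb] at h2
    exact h2
  have h3 : (w a - a) * (w a - (q : E) / a) = 0 := by
    field_simp at h1 ⊢
    linear_combination h1
  rcases mul_eq_zero.1 h3 with h4 | h4
  · exact Or.inl (sub_eq_zero.1 h4)
  · exact Or.inr (sub_eq_zero.1 h4)

/-- The character of the Galois group of `E / L` defined by `a`. -/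
def chi {q : ℕ} (hq : (q : E) ≠ 0) {a : E} (ha : a ≠ 0) (h : RealIn L q a)
    (hne : a ≠ (q : E) / a) : (E ≃ₐ[L] E) →* ℝ where
  toFun w := by classical exact if w a = a then 1 else -1
  map_one' := by simp
  map_mul' w w' := by
    classical
    have hne' : (q : E) / a ≠ a := hne.symm
    have hqa : ∀ v : E ≃ₐ[L] E, v ((q : E) / a) = (q : E) / v a := fun v => by
      rw [map_div₀, map_natCast]
    have hqq : (q : E) / ((q : E) / a) = a := by
      field_simp
    rcases conj_or ha h w with h1 | h1 <;> rcases conj_or ha h w' with h2 | h2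
    · rw [AlgEquiv.mul_apply, h2, h1]
      simp
    · rw [AlgEquiv.mul_apply, h2, hqa, h1, if_neg hne', if_pos rfl]
      simp
    · rw [AlgEquiv.mul_apply, h2, h1, if_neg hne', if_pos rfl]
      simp
    · rw [AlgEquiv.mul_apply, h2, hqa, h1, hqq, if_neg hne', if_pos rfl]
      simp

theorem chi_apply_pos {q : ℕ} (hq : (q : E) ≠ 0) {a : E} (ha : a ≠ 0) (h : RealIn L q a)
    (hne : a ≠ (q : E) / a) {w : E ≃ₐ[L] E} (hw : w a = a) : chi hq ha h hne w = 1 :=
  if_pos hw

theorem chi_apply_neg {q : ℕ} (hq : (q : E) ≠ 0) {a : E} (ha : a ≠ 0) (h : RealIn L q a)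
    (hne : a ≠ (q : E) / a) {w : E ≃ₐ[L] E} (hw : w a = (q : E) / a) :
    chi hq ha h hne w = -1 :=
  if_neg (by rw [hw]; exact hne.symm)

theorem chi_sq {q : ℕ} (hq : (q : E) ≠ 0) {a : E} (ha : a ≠ 0) (h : RealIn L q a)
    (hne : a ≠ (q : E) / a) (w : E ≃ₐ[L] E) :
    chi hq ha h hne w = 1 ∨ chi hq ha h hne w = -1 := by
  rcases conj_or ha h w with h1 | h1
  · exact Or.inl (chi_apply_pos hq ha h hne h1)
  · exact Or.inr (chi_apply_neg hq ha h hne h1)

variable (jp : E →+* PadicAlgCl p)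

theorem wt_mul (g h : E ≃ₐ[ℚ] E) (a : E) : wt jp m (g * h) a = wt jp m g (h a) := rfl

theorem wt_chi {a : E} (ha : a ≠ 0) (h : RealIn L (p ^ m) a) (hne : a ≠ ((p ^ m : ℕ) : E) / a)
    (g : E ≃ₐ[ℚ] E) (w : E ≃ₐ[L] E) :
    wt jp m g (w a) = chi (q_ne E) ha h hne w * wt jp m g a := by
  rcases conj_or ha h w with h1 | h1
  · rw [chi_apply_pos _ _ _ _ h1, h1, one_mul]
  · rw [chi_apply_neg _ _ _ _ h1, h1, wt_inv jp ha]
    ring

/-- If the characters are equal then the numbers generate the same extension of `L`. -/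
theorem isSquare_of_chi [IsGalois L E] {q : ℕ} (hq : (q : E) ≠ 0) {a a' : E} (ha : a ≠ 0)
    (ha' : a' ≠ 0) (h : RealIn L q a) (h' : RealIn L q a') (hne : a ≠ (q : E) / a)
    (hne' : a' ≠ (q : E) / a') (hchi : chi hq ha h hne = chi hq ha' h' hne') {b b' : L}
    (hb : a + (q : E) / a = algebraMap L E b) (hb' : a' + (q : E) / a' = algebraMap L E b') :
    IsSquare ((b ^ 2 - 4 * q) * (b' ^ 2 - 4 * q)) := by
  have hqa : ∀ (v : E ≃ₐ[L] E) (a : E), v ((q : E) / a) = (q : E) / v a := fun v a => by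
    rw [map_div₀, map_natCast]
  have hfix : ∀ w : E ≃ₐ[L] E, w ((a - (q : E) / a) * (a' - (q : E) / a')) =
      (a - (q : E) / a) * (a' - (q : E) / a') := by
    intro w
    rw [map_mul, map_sub, map_sub, hqa, hqa]
    have h1 : chi hq ha h hne w = chi hq ha' h' hne' w := by rw [hchi]
    have hqq : ∀ a : E, a ≠ 0 → (q : E) / ((q : E) / a) = a := by
      intro a ha
      field_simp
    rcases conj_or ha h w with h2 | h2 <;> rcases conj_or ha' h' w with h3 | h3
    · rw [h2, h3]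
    · rw [chi_apply_pos _ _ _ _ h2, chi_apply_neg _ _ _ _ h3] at h1
      norm_num at h1
    · rw [chi_apply_neg _ _ _ _ h2, chi_apply_pos _ _ _ _ h3] at h1
      norm_num at h1
    · rw [h2, h3, hqq a ha, hqq a' ha']
      ring
  obtain ⟨c, hc⟩ := (IsGalois.mem_range_algebraMap_iff_fixed (F := L) (E := E) _).2 hfix
  refine ⟨c, (algebraMap L E).injective ?_⟩
  have e1 : (a - (q : E) / a) ^ 2 = (a + (q : E) / a) ^ 2 - 4 * q := by
    field_simp
    ring
  have e2 : (a' - (q : E) / a') ^ 2 = (a' + (q : E) / a') ^ 2 - 4 * q := by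
    field_simp
    ring
  rw [map_mul, map_mul, map_sub, map_sub, map_pow, map_pow, map_mul, map_natCast, ← hb, ← hb', hc]
  have e3 : (algebraMap L E) 4 = 4 := map_ofNat _ 4
  rw [e3, ← e1, ← e2]
  ring

/-- Relations decompose into relations inside the blocks. -/
theorem block_sum {K : Type} [Fintype K] {a : K → E} (ha : ∀ k, a k ≠ 0)
    (h : ∀ k, RealIn L (p ^ m) (a k)) (hne : ∀ k, a k ≠ ((p ^ m : ℕ) : E) / a k)
    (hsum : ∀ g : E ≃ₐ[ℚ] E, ∑ k, wt jp m g (a k) = 0) (χ : (E ≃ₐ[L] E) →* ℝ)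
    (S : Finset K) (hS : ∀ k, k ∈ S ↔ chi (q_ne E) (ha k) (h k) (hne k) = χ)
    (g : E ≃ₐ[ℚ] E) : ∑ k ∈ S, wt jp m g (a k) = 0 := by
  classical
  by_cases hemp : S = ∅
  · rw [hemp, Finset.sum_empty]
  obtain ⟨k₀, hk₀⟩ := Finset.nonempty_iff_ne_empty.2 hemp
  let X : K → ((E ≃ₐ[L] E) →* ℝ) := fun k => chi (q_ne E) (ha k) (h k) (hne k)
  have h1 : ∑ f ∈ Finset.univ.image X,
      (∑ k ∈ Finset.univ.filter (fun k => X k = f), wt jp m g (a k)) •
        ((f : (E ≃ₐ[L] E) → ℝ)) = 0 := by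
    funext w
    rw [Finset.sum_apply]
    have h2 := hsum (g * res w)
    have h3 : ∀ k, wt jp m (g * res w) (a k) = wt jp m g (a k) * X k w := by
      intro k
      rw [wt_mul, res_apply, wt_chi jp (ha k) (h k) (hne k), mul_comm]
    rw [Finset.sum_congr rfl (fun k _ => h3 k)] at h2
    rw [← Finset.sum_fiberwise_of_maps_to (s := Finset.univ) (t := Finset.univ.image X) (g := X)
      (fun k _ => Finset.mem_image_of_mem X (Finset.mem_univ k))] at h2
    rw [Pi.zero_apply, ← h2]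
    refine Finset.sum_congr rfl fun f _ => ?_
    rw [Pi.smul_apply, smul_eq_mul, Finset.sum_mul]
    refine Finset.sum_congr rfl fun k hk => ?_
    rw [(Finset.mem_filter.1 hk).2]
  have h2 := linearIndependent_iff'.1 (linearIndependent_monoidHom (E ≃ₐ[L] E) ℝ)
    (Finset.univ.image X)
    (fun f => ∑ k ∈ Finset.univ.filter (fun k => X k = f), wt jp m g (a k)) h1 χ ?_
  · rw [← h2]
    refine Finset.sum_congr ?_ fun _ _ => rfl
    ext k
    rw [hS k, Finset.mem_filter]
    exact ⟨fun hh => ⟨Finset.mem_univ k, hh⟩, fun hh => hh.2⟩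
  · rw [Finset.mem_image]
    exact ⟨k₀, Finset.mem_univ _, (hS k₀).1 hk₀⟩

/-- The embedding of `L` defined by `g`. -/
def emb (g : E ≃ₐ[ℚ] E) : L →+* PadicAlgCl p :=
  (jp.comp (g : E →+* E)).comp (algebraMap L E)

theorem emb_apply (g : E ≃ₐ[ℚ] E) (x : L) : emb jp g x = jp (g (algebraMap L E x)) := rfl

/-- Elements of the Galois group with the same prime ideal of `L`. -/
theorem transfer [IsScalarTower ℚ L E] (g g' : E ≃ₐ[ℚ] E)
    (hP : primeOf p (emb (L := L) jp g) = primeOf p (emb (L := L) jp g')) :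
    ∃ w : E ≃ₐ[L] E, ∀ a : E, wt jp m g a = wt jp m g' (w a) := by
  obtain ⟨δ, hδ⟩ := exists_conj (emb (L := L) jp g') (emb (L := L) jp g)
    (norm_eq_of_primeOf _ _ hP.symm)
  let e : E →+* PadicAlgCl p := (δ : PadicAlgCl p →+* PadicAlgCl p).comp
    (jp.comp (g' : E →+* E))
  obtain ⟨h, hh⟩ := Pool.Agent.H485R3.exists_gal (jp.toRatAlgHom) (e.toRatAlgHom)
  have hh' : ∀ x, δ (jp (g' x)) = jp (h x) := hh
  have hg : ∀ x : L, g (algebraMap L E x) = h (algebraMap L E x) := by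
    intro x
    apply jp.injective
    rw [← hh', ← emb_apply, ← emb_apply, hδ]
  let w : E ≃ₐ[L] E := AlgEquiv.ofRingEquiv (f := ((g.trans h.symm : E ≃ₐ[ℚ] E) : E ≃+* E))
    (fun x => by
      change h.symm (g (algebraMap L E x)) = _
      rw [hg, AlgEquiv.symm_apply_apply])
  refine ⟨w, fun a => ?_⟩
  have hw : h (w a) = g a := by
    change h (h.symm (g a)) = g a
    rw [AlgEquiv.apply_symm_apply]
  unfold wt
  rw [← hw, ← hh', norm_conj]

end

end Pool.Agent.P8H27.RF
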