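import Mathlib
import Pool.Agent.P8H27.RF.Block

/-!
# Small balanced subfamilies
-/

set_option autoImplicit false
set_option linter.unusedSectionVars false
set_option linter.unusedVariables false

namespace Pool.Agent.P8H27.RF

open NumberField Pool.Agent.H485R3 Pool.Agent.H485R3.Exact Pool.Agent.H925R2

noncomputable section

variable {p m : ℕ} [hp : Fact p.Prime] {L : Type} [Field L] [NumberField L] {E : Type} [Field E]
  [NumberField E] [IsGalois ℚ E] [Algebra L E]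

theorem primeOf_mem (τ : L →+* PadicAlgCl p) :
    primeOf p τ ∈ Ideal.primesOver (Ideal.span {(p : ℤ)}) (𝓞 L) := by
  have hprime := primeOf_isPrime p τ
  refine ⟨hprime, ⟨?_⟩⟩
  have hmax : (Ideal.span {(p : ℤ)}).IsMaximal :=
    Int.ideal_span_isMaximal_of_prime p
  refine hmax.eq_of_le (Ideal.IsPrime.under ℤ (primeOf p τ)).ne_top ?_
  rw [Ideal.span_singleton_le_iff_mem, Ideal.mem_comap]
  have h1 := p_mem_primeOf p τ
  rwa [map_natCast]

/-- The classes of elements of the Galois group defined by the prime ideals of `L` above `p`. -/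
theorem exists_index [IsScalarTower ℚ L E] (jp : E →+* PadicAlgCl p) {t : ℕ}
    (hT : (Ideal.primesOver (Ideal.span {(p : ℤ)}) (𝓞 L)).ncard ≤ t) :
    ∃ P : (E ≃ₐ[ℚ] E) → Fin t, ∀ g g', P g = P g' →
      ∃ w : E ≃ₐ[L] E, ∀ a : E, wt jp m g a = wt jp m g' (w a) := by
  classical
  have hp0 : (Ideal.span {(p : ℤ)}) ≠ ⊥ := by
    rw [Ne, Ideal.span_singleton_eq_bot]
    exact_mod_cast hp.out.ne_zero
  have hmax : (Ideal.span {(p : ℤ)}).IsMaximal :=
    Int.ideal_span_isMaximal_of_prime p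
  have hfin : (Ideal.primesOver (Ideal.span {(p : ℤ)}) (𝓞 L)).Finite :=
    IsDedekindDomain.primesOver_finite _ _
  let _ : Fintype (Ideal.primesOver (Ideal.span {(p : ℤ)}) (𝓞 L)) := hfin.fintype
  have hcard : Fintype.card (Ideal.primesOver (Ideal.span {(p : ℤ)}) (𝓞 L)) ≤
      Fintype.card (Fin t) := by
    rw [Fintype.card_fin, ← Nat.card_eq_fintype_card, Nat.card_coe_set_eq]
    exact hT
  obtain ⟨f⟩ := Function.Embedding.nonempty_of_card_le hcard
  refine ⟨fun g => f ⟨primeOf p (emb (L := L) jp g), primeOf_mem _⟩, fun g g' hgg => ?_⟩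
  have h1 := f.injective hgg
  exact transfer jp g g' (congrArg Subtype.val h1)

/-- Every balanced family contains a balanced subfamily of bounded cardinality. -/
theorem exists_block (jp : E →+* PadicAlgCl p) {t d : ℕ} (hb : Bound t d)
    (P : (E ≃ₐ[ℚ] E) → Fin t) (hP : ∀ g g', P g = P g' →
      ∃ w : E ≃ₐ[L] E, ∀ a : E, wt jp m g a = wt jp m g' (w a))
    {K : Type} [Fintype K] [Nonempty K] {a : K → E} (ha : ∀ k, a k ≠ 0)
    (h : ∀ k, RealIn L (p ^ m) (a k)) (hne : ∀ k, a k ≠ ((p ^ m : ℕ) : E) / a k)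
    (hnz : ∀ k, ∃ g, wt jp m g (a k) ≠ 0)
    (hsame : ∀ k k', chi (q_ne E) (ha k) (h k) (hne k) = chi (q_ne E) (ha k') (h k') (hne k') →
      ∀ g, |wt jp m g (a k)| = |wt jp m g (a k')|)
    (hsum : ∀ g : E ≃ₐ[ℚ] E, ∑ k, wt jp m g (a k) = 0) :
    ∃ S : Finset K, S.Nonempty ∧ S.card ≤ d ∧ Even S.card ∧
      ∀ g : E ≃ₐ[ℚ] E, ∑ k ∈ S, wt jp m g (a k) = 0 := by
  classical
  obtain ⟨k₀⟩ := (inferInstance : Nonempty K)
  let X : K → ((E ≃ₐ[L] E) →* ℝ) := fun k => chi (q_ne E) (ha k) (h k) (hne k)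
  let S₀ : Finset K := Finset.univ.filter fun k => X k = X k₀
  have hS₀ : ∀ k, k ∈ S₀ ↔ X k = X k₀ := fun k => by simp [S₀]
  have hbal := block_sum jp ha h hne hsum (X k₀) S₀ hS₀
  have hk₀ : k₀ ∈ S₀ := (hS₀ k₀).2 rfl
  let rep : Fin t → (E ≃ₐ[ℚ] E) := fun i => if hi : ∃ g, P g = i then hi.choose else 1
  have hrep : ∀ g, P (rep (P g)) = P g := by
    intro g
    have hi : ∃ g', P g' = P g := ⟨g, rfl⟩
    simp only [rep, dif_pos hi]
    exact hi.choose_spec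
  let ε : {k // k ∈ S₀} → Fin t → SignType := fun k i =>
    if ∃ g, P g = i then SignType.sign (wt jp m (rep i) (a k)) else 0
  have hε : ∀ (k : {k // k ∈ S₀}) g, ε k (P g) = SignType.sign (wt jp m (rep (P g)) (a k)) :=
    fun k g => if_pos ⟨g, rfl⟩
  have hε0 : ∀ (k : {k // k ∈ S₀}) i, (¬ ∃ g, P g = i) → ε k i = 0 := fun k i hi => if_neg hi
  have habs : ∀ (k k' : {k // k ∈ S₀}) g, |wt jp m g (a k)| = |wt jp m g (a k')| := fun k k' g =>
    hsame k k' (((hS₀ k).1 k.2).trans ((hS₀ k').1 k'.2).symm) g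
  have hwt : ∀ (k : {k // k ∈ S₀}) g, wt jp m (rep (P g)) (a k) =
      ((ε k (P g) : ℤ) : ℝ) * |wt jp m (rep (P g)) (a k₀)| := by
    intro k g
    rw [hε, ← habs k ⟨k₀, hk₀⟩]
    rw [SignType.intCast_cast]
    exact (sign_mul_abs (wt jp m (rep (P g)) (a k))).symm
  -- the comparison of `g` and its representative
  have hcmp : ∀ g, ∃ s : ℝ, s ≠ 0 ∧ ∀ k : {k // k ∈ S₀},
      wt jp m g (a k) = s * wt jp m (rep (P g)) (a k) := by
    intro g
    obtain ⟨w, hw⟩ := hP g (rep (P g)) (hrep g).symm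
    refine ⟨X k₀ w, ?_, fun k => ?_⟩
    · rcases chi_sq (q_ne E) (ha k₀) (h k₀) (hne k₀) w with h1 | h1
      · change chi (q_ne E) (ha k₀) (h k₀) (hne k₀) w ≠ 0
        rw [h1]
        exact one_ne_zero
      · change chi (q_ne E) (ha k₀) (h k₀) (hne k₀) w ≠ 0
        rw [h1]
        norm_num
    · rw [hw, wt_chi jp (ha k) (h k) (hne k), ← (hS₀ k).1 k.2]
  obtain ⟨g₁, hg₁⟩ := hnz k₀
  have hg₁' : wt jp m (rep (P g₁)) (a k₀) ≠ 0 := by
    obtain ⟨s, hs, hs'⟩ := hcmp g₁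
    intro h0
    apply hg₁
    rw [hs' ⟨k₀, hk₀⟩, h0, mul_zero]
  have hεne : ∀ k : {k // k ∈ S₀}, ε k (P g₁) ≠ 0 := by
    intro k h0
    have h1 := hwt k g₁
    rw [h0] at h1
    have h2 := habs k ⟨k₀, hk₀⟩ (rep (P g₁))
    rw [h1] at h2
    simp only [SignType.coe_zero, Int.cast_zero, zero_mul, abs_zero] at h2
    exact hg₁' (abs_eq_zero.1 h2.symm)
  have b0 : ∀ k k' i, ε k i = 0 → ε k' i = 0 := by
    intro k k' i hk
    by_cases hi : ∃ g, P g = i
    · obtain ⟨g, rfl⟩ := hi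
      rw [hε, sign_eq_zero_iff] at hk ⊢
      have h1 := habs k k' (rep (P g))
      rw [hk, abs_zero] at h1
      exact abs_eq_zero.1 h1.symm
    · exact hε0 k' i hi
  have b2 : ∀ i, ∑ k, (ε k i : ℤ) = 0 := by
    intro i
    by_cases hi : ∃ g, P g = i
    · obtain ⟨g, rfl⟩ := hi
      by_cases hc : wt jp m (rep (P g)) (a k₀) = 0
      · refine Finset.sum_eq_zero fun k _ => ?_
        have h1 := habs k ⟨k₀, hk₀⟩ (rep (P g))
        rw [hc, abs_zero, abs_eq_zero] at h1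
        rw [hε, h1, sign_zero]
        rfl
      · have h1 := hbal (rep (P g))
        rw [← Finset.sum_coe_sort S₀, Finset.sum_congr rfl (fun k _ => hwt k g),
          ← Finset.sum_mul] at h1
        have h2 := (mul_eq_zero.1 h1).resolve_right (abs_ne_zero.2 hc)
        exact_mod_cast h2
    · refine Finset.sum_eq_zero fun k _ => ?_
      rw [hε0 k i hi]
      rfl
  obtain ⟨S, hS, hd, hS0⟩ := hb {k // k ∈ S₀} ε b0 ⟨⟨k₀, hk₀⟩, P g₁, hεne _⟩ b2
  refine ⟨S.map (Function.Embedding.subtype _), hS.map, by rwa [Finset.card_map], ?_, fun g => ?_⟩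
  · rw [Finset.card_map]
    have h1 : Even (∑ k ∈ S, ((ε k (P g₁) : ℤ) - 1)) := by
      refine Finset.even_sum _ fun k _ => ?_
      have h2 := hεne k
      revert h2
      generalize ε k (P g₁) = x
      revert x
      decide
    rw [Finset.sum_sub_distrib, hS0, zero_sub, even_neg, Finset.sum_const, nsmul_eq_mul,
      mul_one] at h1
    exact_mod_cast h1
  · rw [Finset.sum_map]
    obtain ⟨s, hs, hs'⟩ := hcmp g
    change ∑ k ∈ S, wt jp m g (a k) = 0
    rw [Finset.sum_congr rfl (fun k _ => hs' k), ← Finset.mul_sum,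
      Finset.sum_congr rfl (fun k _ => hwt k g), ← Finset.sum_mul]
    have h1 : ∑ k ∈ S, ((ε k (P g) : ℤ) : ℝ) = 0 := by exact_mod_cast hS0 (P g)
    rw [h1, zero_mul, mul_zero]

/-- Every balanced family contains a balanced subfamily of bounded cardinality: finitely many
slopes. -/
theorem exists_block_of_slopes (jp : E →+* PadicAlgCl p) {t d : ℕ} {V : Set ℝ}
    (hb : BoundR t V d) (hV0 : (0 : ℝ) ∈ V) {r : ℝ} (hr : r ≠ 0)
    (P : (E ≃ₐ[ℚ] E) → Fin t) (hP : ∀ g g', P g = P g' →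
      ∃ w : E ≃ₐ[L] E, ∀ a : E, wt jp m g a = wt jp m g' (w a))
    {K : Type} [Fintype K] [Nonempty K] {a : K → E} (ha : ∀ k, a k ≠ 0)
    (h : ∀ k, RealIn L (p ^ m) (a k)) (hne : ∀ k, a k ≠ ((p ^ m : ℕ) : E) / a k)
    (hV : ∀ k g, wt jp m g (a k) / r ∈ V)
    (hsum : ∀ g : E ≃ₐ[ℚ] E, ∑ k, wt jp m g (a k) = 0) :
    ∃ S : Finset K, S.Nonempty ∧ S.card ≤ d ∧
      ∀ g : E ≃ₐ[ℚ] E, ∑ k ∈ S, wt jp m g (a k) = 0 := by
  classical
  obtain ⟨k₀⟩ := (inferInstance : Nonempty K)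
  let X : K → ((E ≃ₐ[L] E) →* ℝ) := fun k => chi (q_ne E) (ha k) (h k) (hne k)
  let S₀ : Finset K := Finset.univ.filter fun k => X k = X k₀
  have hS₀ : ∀ k, k ∈ S₀ ↔ X k = X k₀ := fun k => by simp [S₀]
  have hbal := block_sum jp ha h hne hsum (X k₀) S₀ hS₀
  have hk₀ : k₀ ∈ S₀ := (hS₀ k₀).2 rfl
  let rep : Fin t → (E ≃ₐ[ℚ] E) := fun i => if hi : ∃ g, P g = i then hi.choose else 1
  have hrep : ∀ g, P (rep (P g)) = P g := by
    intro g
    have hi : ∃ g', P g' = P g := ⟨g, rfl⟩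
    simp only [rep, dif_pos hi]
    exact hi.choose_spec
  let v : {k // k ∈ S₀} → Fin t → ℝ := fun k i => wt jp m (rep i) (a k) / r
  have hcmp : ∀ g, ∃ s : ℝ, ∀ k : {k // k ∈ S₀},
      wt jp m g (a k) = s * wt jp m (rep (P g)) (a k) := by
    intro g
    obtain ⟨w, hw⟩ := hP g (rep (P g)) (hrep g).symm
    refine ⟨X k₀ w, fun k => ?_⟩
    rw [hw, wt_chi jp (ha k) (h k) (hne k), ← (hS₀ k).1 k.2]
  have : Nonempty {k // k ∈ S₀} := ⟨⟨k₀, hk₀⟩⟩
  obtain ⟨S, hS, hd, hS0⟩ := hb {k // k ∈ S₀} v (fun k i => hV k _) (fun i => by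
    have h1 := hbal (rep i)
    rw [← Finset.sum_coe_sort S₀] at h1
    simp only [v]
    rw [← Finset.sum_div, h1, zero_div])
  refine ⟨S.map (Function.Embedding.subtype _), hS.map, by rwa [Finset.card_map], fun g => ?_⟩
  rw [Finset.sum_map]
  obtain ⟨s, hs'⟩ := hcmp g
  change ∑ k ∈ S, wt jp m g (a k) = 0
  rw [Finset.sum_congr rfl (fun k _ => hs' k), ← Finset.mul_sum]
  have h1 := hS0 (P g)
  simp only [v] at h1
  rw [← Finset.sum_div, div_eq_zero_iff] at h1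
  rw [h1.resolve_right hr, mul_zero]

end

end Pool.Agent.P8H27.RF
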