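import Mathlib
import Pool.Agent.P8H27.RF.Main
import Pool.Agent.P8H27.RF.Defs

/-!
# A Galois number field containing given algebraic numbers; Weil numbers from their traces
-/

set_option autoImplicit false
set_option linter.unusedSectionVars false
set_option linter.unusedVariables false

namespace Pool.Agent.P8H27.RF

open NumberField Module Pool.Agent.H485R3 Pool.Agent.H925R2

/-- A Galois number field `E` in `Ω` with given elements. -/
theorem exists_field {L : Type} [Field L] [NumberField L] {Ω : Type} [Field Ω] [CharZero Ω]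
    [IsAlgClosed Ω] (φ₀ : L →+* Ω) {K : Type} [Fintype K] (c : K → Ω)
    (hc : ∀ k, IsIntegral ℚ (c k)) :
    ∃ (E : Type) (_ : Field E) (_ : NumberField E) (_ : IsGalois ℚ E) (_ : Algebra L E)
      (_ : IsScalarTower ℚ L E) (_ : IsGalois L E) (jΩ : E →+* Ω) (a : K → E),
      (∀ k, jΩ (a k) = c k) ∧ ∀ x : L, jΩ (algebraMap L E x) = φ₀ x := by
  classical
  obtain ⟨θ, hθ⟩ := Field.exists_primitive_element ℚ L
  let φ : L →ₐ[ℚ] Ω := φ₀.toRatAlgHom
  have hθi : IsIntegral ℚ θ := Algebra.IsIntegral.isIntegral θ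
  let f : Polynomial ℚ := minpoly ℚ θ * ∏ k, minpoly ℚ (c k)
  have hf0 : f ≠ 0 := mul_ne_zero (minpoly.ne_zero hθi)
    (Finset.prod_ne_zero_iff.2 fun k _ => minpoly.ne_zero (hc k))
  have hsplit : (f.map (algebraMap ℚ Ω)).Splits := IsAlgClosed.splits _
  let E : IntermediateField ℚ Ω := IntermediateField.adjoin ℚ (f.rootSet Ω)
  have hSF : Polynomial.IsSplittingField ℚ E f :=
    IntermediateField.adjoin_rootSet_isSplittingField hsplit
  have hfd : FiniteDimensional ℚ E := Polynomial.IsSplittingField.finiteDimensional E f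
  have hnormal : Normal ℚ E := Normal.of_isSplittingField f
  have hNF : NumberField E := { to_charZero := inferInstance, to_finiteDimensional := hfd }
  have hGal : IsGalois ℚ E := { }
  have hmem : ∀ x : Ω, Polynomial.aeval x f = 0 → x ∈ E := fun x hx =>
    IntermediateField.subset_adjoin ℚ _ ((Polynomial.mem_rootSet_of_ne hf0).2 hx)
  have hcE : ∀ k, c k ∈ E := by
    intro k
    apply hmem
    rw [map_mul, map_prod, Finset.prod_eq_zero (Finset.mem_univ k) (minpoly.aeval ℚ (c k)),
      mul_zero]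
  have hθE : φ θ ∈ E := by
    apply hmem
    rw [map_mul, Polynomial.aeval_algHom_apply, minpoly.aeval, map_zero, zero_mul]
  have hLE : ∀ x : L, φ x ∈ E := by
    intro x
    have hx : x ∈ IntermediateField.adjoin ℚ {θ} := by rw [hθ]; trivial
    induction hx using IntermediateField.adjoin_induction with
    | mem x hx =>
      rw [Set.mem_singleton_iff.1 hx]
      exact hθE
    | algebraMap x =>
      rw [AlgHom.commutes]
      exact E.algebraMap_mem x
    | add x y _ _ hx hy =>
      rw [map_add]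
      exact E.add_mem hx hy
    | inv x _ hx =>
      rw [map_inv₀]
      exact E.inv_mem hx
    | mul x y _ _ hx hy =>
      rw [map_mul]
      exact E.mul_mem hx hy
  let ℓ : L →ₐ[ℚ] E := φ.codRestrict E.toSubalgebra hLE
  let _ : Algebra L E := (ℓ : L →+* E).toAlgebra
  have htow : IsScalarTower ℚ L E := IsScalarTower.of_algebraMap_eq fun x =>
    (ℓ.commutes x).symm
  have hgalL : IsGalois L E := IsGalois.tower_top_of_isGalois ℚ L E
  exact ⟨E, inferInstance, hNF, hGal, inferInstance, htow, hgalL, (E.val : E →+* Ω),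
    fun k => ⟨c k, hcE k⟩, fun k => rfl, fun x => rfl⟩

/-- The roots of a real quadratic polynomial with nonpositive discriminant. -/
theorem normSq_of_root {z : ℂ} {b q : ℝ} (hb : b ^ 2 ≤ 4 * q) (hz : z ^ 2 - b * z + q = 0) :
    ‖z‖ ^ 2 = q := by
  have h1 := congrArg Complex.re hz
  have h2 := congrArg Complex.im hz
  simp only [sq, Complex.add_re, Complex.sub_re, Complex.mul_re, Complex.ofReal_re,
    Complex.ofReal_im, Complex.add_im, Complex.sub_im, Complex.mul_im, Complex.zero_re,
    Complex.zero_im] at h1 h2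
  rw [Complex.sq_norm, Complex.normSq_apply]
  have h3 : z.im * (2 * z.re - b) = 0 := by linarith
  rcases mul_eq_zero.1 h3 with h4 | h4
  · rw [h4] at h1 ⊢
    have h5 : (z.re - b / 2) ^ 2 ≤ 0 := by nlinarith
    have h6 : z.re - b / 2 = 0 := by
      have := le_antisymm h5 (sq_nonneg _)
      exact pow_eq_zero_iff (two_ne_zero) |>.1 this
    have h7 : z.re = b / 2 := by linarith
    rw [h7] at h1 ⊢
    nlinarith
  · have h5 : b = 2 * z.re := by linarith
    rw [h5] at h1
    nlinarith

variable {p m : ℕ} [hp : Fact p.Prime] {L : Type} [Field L] [NumberField L] {E : Type} [Field E]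
  [NumberField E] [IsGalois ℚ E] [Algebra L E]

/-- Weil numbers from their traces. -/
theorem isWeil_of_trace [IsTotallyReal L] {a : E} {β : L} (hβ : IsIntegral ℤ β)
    (hbound : ∀ σ : L →+* ℂ, ‖σ β‖ ^ 2 ≤ 4 * ((p ^ m : ℕ) : ℝ)) (ha : a ≠ 0)
    (h : a + ((p ^ m : ℕ) : E) / a = algebraMap L E β) : IsWeil (p ^ m) a := by
  have h1 : a ^ 2 - algebraMap L E β * a + ((p ^ m : ℕ) : E) = 0 := by
    rw [← h]
    field_simp
    ring
  have hβE : IsIntegral ℤ (algebraMap L E β) := hβ.map (algebraMap L E).toIntAlgHom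
  have hint : IsIntegral ℤ a := by
    let R := integralClosure ℤ E
    let βR : R := ⟨algebraMap L E β, hβE⟩
    have h2 : IsIntegral R a := by
      refine ⟨Polynomial.X ^ 2 - Polynomial.C βR * Polynomial.X +
        Polynomial.C ((p ^ m : ℕ) : R), ?_, ?_⟩
      · monicity!
      · simp only [Polynomial.eval₂_add, Polynomial.eval₂_sub, Polynomial.eval₂_mul,
          Polynomial.eval₂_pow, Polynomial.eval₂_X, Polynomial.eval₂_C]
        rw [map_natCast]
        exact h1
    exact isIntegral_trans a h2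
  refine ⟨hint, ?_, fun e => ?_⟩
  · have h3 : ((p ^ m : ℕ) : E) / a = algebraMap L E β - a := by
      rw [← h]
      ring
    rw [h3]
    exact hβE.sub hint
  · obtain ⟨r, hr⟩ : ∃ r : ℝ, (r : ℂ) = e (algebraMap L E β) := by
      have h4 := IsTotallyReal.complexEmbedding_isReal (e.comp (algebraMap L E))
      have h5 := RingHom.congr_fun h4 β
      exact Complex.conj_eq_iff_real.1 h5 |>.imp fun r hr => hr.symm
    have h6 : (e a) ^ 2 - (r : ℂ) * (e a) + (((p ^ m : ℕ) : ℝ) : ℂ) = 0 := by
      have h7 := congrArg e h1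
      rw [map_add, map_sub, map_mul, map_pow, map_natCast, map_zero, ← hr] at h7
      rw [← h7]
      push_cast
      rfl
    refine normSq_of_root ?_ h6
    have h8 := hbound (e.comp (algebraMap L E))
    have h9 : (e.comp (algebraMap L E)) β = (r : ℂ) := hr.symm
    rw [h9, Complex.norm_real, Real.norm_eq_abs, sq_abs] at h8
    exact h8

variable (jp : E →+* PadicAlgCl p)

/-- The absolute value of the weight is determined by the slope. -/
theorem abs_wt (hm : 0 < m) {a : E} (ha : a ≠ 0) {β : L}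
    (h : a + ((p ^ m : ℕ) : E) / a = algebraMap L E β) (g : E ≃ₐ[ℚ] E) :
    |wt jp m g a| = m * Real.log p * (1 - 2 * slope p m (jp (g (algebraMap L E β)))) := by
  have hp1 : (1 : ℝ) < p := by exact_mod_cast hp.out.one_lt
  have hlogp : 0 < Real.log p := Real.log_pos hp1
  have hm0 : (0 : ℝ) < m := by exact_mod_cast hm
  have hmlog : 0 < (m : ℝ) * Real.log p := mul_pos hm0 hlogp
  set z := jp (g a) with hz
  set z' := jp (g (((p ^ m : ℕ) : E) / a)) with hz'
  have hz0 : 0 < ‖z‖ := norm_pos' jp ha g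
  have hz'0 : 0 < ‖z'‖ := norm_pos' jp (div_ne_zero (q_ne E) ha) g
  have hx : jp (g (algebraMap L E β)) = z + z' := by rw [← h, map_add, map_add]
  have e1 : 2 * Real.log ‖z‖ = - (m * Real.log p) - wt jp m g a := by
    unfold wt
    ring
  have e2 : 2 * Real.log ‖z'‖ = - (m * Real.log p) + wt jp m g a := by
    have h1 := wt_inv (m := m) jp ha g
    have h2 : 2 * Real.log ‖z'‖ = - (m * Real.log p) -
        wt jp m g (((p ^ m : ℕ) : E) / a) := by
      unfold wt
      ring
    rw [h2, h1]
    ring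
  have hs : Real.log (√((p : ℝ) ^ m))⁻¹ = - (m * Real.log p) / 2 := by
    rw [Real.log_inv, Real.log_sqrt (by positivity), Real.log_pow]
    ring
  have hs0 : 0 < (√((p : ℝ) ^ m))⁻¹ := by positivity
  have hmax : Real.log (max ‖z + z'‖ (√((p : ℝ) ^ m))⁻¹) =
      (- (m * Real.log p) + |wt jp m g a|) / 2 := by
    rcases lt_trichotomy ‖z‖ ‖z'‖ with hlt | heq | hlt
    · have h3 : ‖z + z'‖ = ‖z'‖ := by
        rw [IsUltrametricDist.norm_add_eq_max_of_norm_ne_norm hlt.ne, max_eq_right hlt.le]
      have h4 : 2 * Real.log ‖z‖ < 2 * Real.log ‖z'‖ :=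
        mul_lt_mul_of_pos_left (Real.log_lt_log hz0 hlt) two_pos
      have h5 : 0 < wt jp m g a := by linarith
      have h6 : (√((p : ℝ) ^ m))⁻¹ ≤ ‖z'‖ := by
        rw [← Real.log_le_log_iff hs0 hz'0, hs]
        linarith
      rw [h3, max_eq_left h6, abs_of_pos h5]
      linarith
    · have h4 : Real.log ‖z‖ = Real.log ‖z'‖ := by rw [heq]
      have h5 : wt jp m g a = 0 := by linarith
      have h6 : ‖z + z'‖ ≤ (√((p : ℝ) ^ m))⁻¹ := by
        refine (IsUltrametricDist.norm_add_le_max _ _).trans ?_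
        rw [← heq, max_self, ← Real.log_le_log_iff hz0 hs0, hs]
        linarith
      rw [max_eq_right h6, hs, h5, abs_zero, add_zero]
    · have h3 : ‖z + z'‖ = ‖z‖ := by
        rw [IsUltrametricDist.norm_add_eq_max_of_norm_ne_norm hlt.ne', max_eq_left hlt.le]
      have h4 : 2 * Real.log ‖z'‖ < 2 * Real.log ‖z‖ :=
        mul_lt_mul_of_pos_left (Real.log_lt_log hz'0 hlt) two_pos
      have h5 : wt jp m g a < 0 := by linarith
      have h6 : (√((p : ℝ) ^ m))⁻¹ ≤ ‖z‖ := by
        rw [← Real.log_le_log_iff hs0 hz0, hs]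
        linarith
      rw [h3, max_eq_left h6, abs_of_neg h5]
      linarith
  rw [hx]
  unfold slope
  rw [Real.logb, hmax, Real.log_pow]
  field_simp
  ring

end Pool.Agent.P8H27.RF
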