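import Mathlib
import Pool.Agent.P8H27.RF.Defs
import Pool.Agent.W527.TateBasis

/-!
# From balanced subfamilies to generators of the ring of Tate classes
-/

set_option autoImplicit false
set_option linter.unusedSectionVars false
set_option linter.unusedVariables false

namespace Pool.Agent.P8H27.RF

open Module Equiv NumberField Pool.Agent.W527.TateRing

noncomputable section

variable {Ω : Type} [Field Ω] {X : FrobSpace Ω} {q d : ℕ} {κ κ' : Type}

theorem isTate_of_gen {f : Coh X κ} (h : GenByDegree q d X κ f) : IsTate q f := by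
  induction h with
  | small hκ hd f hf => exact hf
  | zero κ => exact tate_zero κ
  | add f g _ _ ihf ihg => exact tate_add ihf ihg
  | smul a f _ ih => exact tate_smul a ih
  | reindex e f _ ih => exact tate_reindex e ih
  | cup f g _ _ h hh ihf ihg => exact tate_cup ihf ihg h hh

/-- The classes of the ring as a subspace. -/
def RG (q d : ℕ) (X : FrobSpace Ω) (κ : Type) : Submodule Ω (Coh X κ) where
  carrier := {f | GenByDegree q d X κ f}
  add_mem' hf hg := GenByDegree.add _ _ hf hg
  zero_mem' := GenByDegree.zero κ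
  smul_mem' a _ hf := GenByDegree.smul a _ hf

theorem mem_RG {f : Coh X κ} : f ∈ RG q d X κ ↔ GenByDegree q d X κ f := Iff.rfl

variable [Fintype κ] [DecidableEq κ] [Fintype κ'] [DecidableEq κ']

theorem gmono_sum [CharZero Ω] {ξ : κ → Module.Dual Ω X.V}
    {ξ' : κ' → Module.Dual Ω X.V} (h1 : mono ξ ∈ RG q d X κ)
    (h2 : mono ξ' ∈ RG q d X κ') : mono (Sum.elim ξ ξ') ∈ RG q d X (κ ⊕ κ') := by
  have h3 : cupAlt (mono ξ) (mono ξ') ∈ RG q d X (κ ⊕ κ') :=
    GenByDegree.cup _ _ h1 h2 _ (cupAlt_apply _ _)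
  rw [mono_cup] at h3
  have h4 : (Fintype.card (Perm κ) : Ω) * (Fintype.card (Perm κ') : Ω) ≠ 0 := by
    rw [← Nat.cast_mul]
    exact Nat.cast_ne_zero.2 (Nat.mul_ne_zero Fintype.card_ne_zero Fintype.card_ne_zero)
  have h5 := Submodule.smul_mem _ (((Fintype.card (Perm κ) : Ω) * (Fintype.card (Perm κ') : Ω))⁻¹) h3
  rwa [smul_smul, inv_mul_cancel₀ h4, one_smul] at h5

/-- Splitting off a subset of the variables. -/
theorem gmono_split [CharZero Ω] (S : Finset κ) {ξ : κ → Module.Dual Ω X.V}
    (h1 : mono (fun k : {k // k ∈ S} => ξ k) ∈ RG q d X {k // k ∈ S})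
    (h2 : mono (fun k : {k // k ∉ S} => ξ k) ∈ RG q d X {k // k ∉ S}) :
    mono ξ ∈ RG q d X κ := by
  have h3 := gmono_sum h1 h2
  have h4 : (mono (Sum.elim (fun k : {k // k ∈ S} => ξ k) (fun k : {k // k ∉ S} => ξ k))).domDomCongr
      (Equiv.sumCompl (fun k => k ∈ S)) ∈ RG q d X κ := GenByDegree.reindex _ _ h3
  rw [mono_reindex] at h4
  have h5 : (fun k => Sum.elim (fun k : {k // k ∈ S} => ξ k) (fun k : {k // k ∉ S} => ξ k)
      ((Equiv.sumCompl (fun k => k ∈ S)).symm k)) = ξ := by
    funext k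
    by_cases hk : k ∈ S
    · rw [Equiv.sumCompl_symm_apply_of_pos hk]
      rfl
    · rw [Equiv.sumCompl_symm_apply_of_neg hk]
      rfl
  rwa [h5] at h4

omit [DecidableEq κ] in
/-- The product of the numbers is, up to a root of unity, a power of `√q`. -/
def Rel (q : ℕ) (c : κ → Ω) : Prop :=
  ∃ s : ℕ, 0 < s ∧ (∏ k, c k) ^ (2 * s) = (q : Ω) ^ (s * Fintype.card κ)

omit [DecidableEq κ] in
theorem Rel.pow {c : κ → Ω} {s : ℕ}
    (h : (∏ k, c k) ^ (2 * s) = (q : Ω) ^ (s * Fintype.card κ)) (t : ℕ) :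
    (∏ k, c k) ^ (2 * (s * t)) = (q : Ω) ^ (s * t * Fintype.card κ) := by
  rw [← mul_assoc, pow_mul, h, ← pow_mul]
  congr 1
  ring

theorem Rel.compl (hq : (q : Ω) ≠ 0) {c : κ → Ω} (h : Rel q c) (S : Finset κ)
    (hS : Rel q (fun k : {k // k ∈ S} => c k)) : Rel q (fun k : {k // k ∉ S} => c k) := by
  classical
  obtain ⟨s, hs, h⟩ := h
  obtain ⟨t, ht, hS⟩ := hS
  refine ⟨s * t, Nat.mul_pos hs ht, ?_⟩
  have h1 := Rel.pow h t
  have h2 := Rel.pow hS s
  have h3 : ∏ k, c k = (∏ k : {k // k ∈ S}, c k) * ∏ k : {k // k ∉ S}, c k := by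
    rw [← Finset.prod_mul_prod_compl S c, ← Finset.prod_coe_sort S]
    congr 1
    exact Finset.prod_subtype Sᶜ (fun k => Finset.mem_compl) c
  have hcard : Fintype.card κ = Fintype.card {k // k ∈ S} + Fintype.card {k // k ∉ S} := by
    rw [Fintype.card_subtype_compl, Fintype.card_coe]
    have := Finset.card_le_univ S
    omega
  rw [mul_comm t s] at h2
  rw [h3, mul_pow, h2, hcard, mul_add, pow_add] at h1
  exact mul_left_cancel₀ (pow_ne_zero _ hq) h1

/-- From the existence of small balanced subfamilies to the generation of the ring. -/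
theorem gen_of_decomp [CharZero Ω] (hq : (q : Ω) ≠ 0) {η : Type} [Fintype η] (b : Basis η Ω X.V)
    (c : η → Ω) (hb : ∀ e, X.F (b e) = c e • b e)
    (H : ∀ (K : Type) [Fintype K] [Nonempty K] (x : K → η), Even (Fintype.card K) →
      Rel q (fun k => c (x k)) → ∃ S : Finset K, S.Nonempty ∧ Even S.card ∧ S.card ≤ d ∧
        Rel q (fun k : {k // k ∈ S} => c (x k)))
    {f : Coh X κ} (hκ : Even (Fintype.card κ)) (hf : IsTate q f) : GenByDegree q d X κ f := by
  classical
  have hcoord : ∀ (e : η) (v : X.V), b.coord e (X.F v) = c e * b.coord e v := by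
    intro x v
    have h5 : (b.coord x) ∘ₗ X.F = c x • b.coord x := by
      apply b.ext
      intro e'
      simp only [LinearMap.comp_apply, LinearMap.smul_apply, hb, map_smul, smul_eq_mul,
        Basis.coord_apply, Basis.repr_self]
      by_cases h : e' = x
      · rw [h]
      · rw [Finsupp.single_eq_of_ne' h, mul_zero, mul_zero]
    exact LinearMap.congr_fun h5 v
  -- the monomials
  have hmono : ∀ (n : ℕ) (K : Type) [Fintype K] [DecidableEq K] (x : K → η),
      Fintype.card K = n → Even n → Rel q (fun k => c (x k)) →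
      mono (fun k => b.coord (x k)) ∈ RG q d X K := by
    intro n
    induction n using Nat.strong_induction_on with
    | _ n ih =>
    intro K _ _ x hcard hev hrel
    have hmonoT : ∀ (K' : Type) [Fintype K'] [DecidableEq K'] (x : K' → η),
        Rel q (fun k => c (x k)) → IsTate q (mono (X := X) (fun k => b.coord (x k))) := by
      intro K' _ _ x ⟨s, hs, h⟩
      exact isTate_mono (fun k v => hcoord (x k) v) hs h
    rcases isEmpty_or_nonempty K with he | hne
    · refine GenByDegree.small ?_ ?_ _ (hmonoT K x hrel)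
      · rw [Nat.card_of_isEmpty]
        exact Even.zero
      · rw [Nat.card_of_isEmpty]
        exact Nat.zero_le _
    obtain ⟨S, hS1, hS2, hS3, hS4⟩ := H K x (hcard ▸ hev) hrel
    have h1 : mono (fun k : {k // k ∈ S} => b.coord (x k)) ∈ RG q d X {k // k ∈ S} := by
      refine GenByDegree.small ?_ ?_ _ (hmonoT {k // k ∈ S} (fun k => x k) hS4)
      · rwa [Nat.card_eq_fintype_card, Fintype.card_coe]
      · rwa [Nat.card_eq_fintype_card, Fintype.card_coe]
    refine gmono_split S h1 (ih (Fintype.card {k // k ∉ S}) ?_ {k // k ∉ S} (fun k => x k) rfl ?_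
      (Rel.compl hq hrel S hS4))
    · rw [← hcard]
      obtain ⟨k, hk⟩ := hS1
      exact Fintype.card_subtype_lt (x := k) (fun h => h hk)
    · have h1 : Fintype.card {k // k ∉ S} = n - S.card := by
        rw [Fintype.card_subtype_compl, hcard, Fintype.card_coe]
      rw [h1]
      have h2 : S.card ≤ n := by
        rw [← hcard]
        exact Finset.card_le_univ S
      exact (Nat.even_sub h2).2 ⟨fun _ => hS2, fun _ => hev⟩
  obtain ⟨s, hs, hf⟩ := hf
  have h1 := form_expand' b f
  have h2 : ((Fintype.card (Perm κ) : ℕ) : Ω) • f ∈ RG q d X κ := by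
    rw [h1]
    refine Submodule.sum_mem _ fun x _ => ?_
    by_cases hx : f (fun k => b (x k)) = 0
    · rw [hx, zero_smul]
      exact Submodule.zero_mem _
    · refine Submodule.smul_mem _ _ (hmono _ κ x rfl hκ ⟨s, hs, ?_⟩)
      have h3 := hf (fun k => b (x k))
      have h4 : ∀ (r : ℕ) (y : η), (X.F ^ r) (b y) = c y ^ r • b y := by
        intro r y
        induction r with
        | zero => simp
        | succ r ih =>
          rw [pow_succ', Module.End.mul_apply, ih, map_smul, hb, smul_smul, pow_succ]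
      have h5 : f (fun k => (X.F ^ (2 * s)) (b (x k))) =
          (∏ k, c (x k) ^ (2 * s)) * f (fun k => b (x k)) := by
        have h6 : (fun k => (X.F ^ (2 * s)) (b (x k))) =
            fun k => c (x k) ^ (2 * s) • b (x k) := funext fun k => h4 _ _
        rw [h6]
        exact f.toMultilinearMap.map_smul_univ _ _
      rw [h5, Finset.prod_pow, Nat.card_eq_fintype_card] at h3
      exact mul_right_cancel₀ hx h3
  have hne : ((Fintype.card (Perm κ) : ℕ) : Ω) ≠ 0 := Nat.cast_ne_zero.2 Fintype.card_ne_zero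
  have h6 := Submodule.smul_mem _ (((Fintype.card (Perm κ) : ℕ) : Ω))⁻¹ h2
  rwa [smul_smul, inv_mul_cancel₀ hne, one_smul] at h6

/-- An eigenbasis. -/
theorem exists_eigenbasis {P : Ω → Prop}
    (h : Submodule.span Ω {v : X.V | ∃ α : Ω, X.F v = α • v ∧ P α} = ⊤) :
    ∃ (η : Type) (_ : Fintype η) (b : Basis η Ω X.V) (c : η → Ω),
      (∀ e, X.F (b e) = c e • b e) ∧ ∀ e, P (c e) := by
  classical
  let S : Set X.V := {v : X.V | ∃ α : Ω, X.F v = α • v ∧ P α}
  let b := Module.Basis.ofSpan (K := Ω) (s := S) h.ge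
  have : Finite ((linearIndepOn_empty Ω id).extend (Set.empty_subset S)) :=
    Module.Finite.finite_basis b
  let _ : Fintype ((linearIndepOn_empty Ω id).extend (Set.empty_subset S)) := Fintype.ofFinite _
  have h3 : ∀ e, ∃ α : Ω, X.F (b e) = α • b e ∧ P α := fun e =>
    Module.Basis.ofSpan_subset (K := Ω) (s := S) h.ge ⟨e, rfl⟩
  choose c hc using h3
  exact ⟨_, inferInstance, b, c, fun e => (hc e).1, fun e => (hc e).2⟩

end

end Pool.Agent.P8H27.RF
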