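import Mathlib
import Pool.Agent.P8H27.RF.Fld
import Pool.Agent.P8H27.RF.Span

/-!
# The ring of Tate classes of abelian varieties with traces in a totally real field
-/

set_option autoImplicit false
set_option linter.unusedSectionVars false
set_option linter.unusedVariables false

namespace Pool.Agent.P8H27.RF

open NumberField Module Pool.Agent.H485R3 Pool.Agent.H925R2 Pool.Agent.W527.TateRing

/-- Supersingular. -/
def SS {Ω : Type} [Field Ω] (q : ℕ) (α : Ω) : Prop := ∃ s : ℕ, 0 < s ∧ α ^ (2 * s) = (q : Ω) ^ s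

section data

variable {p m : ℕ} [hp : Fact p.Prime] {L : Type} [Field L] [NumberField L] [IsTotallyReal L]
  [IsGalois ℚ L] {Ω : Type} [Field Ω] [CharZero Ω] [IsAlgClosed Ω]

/-- The numbers of a family as elements of a Galois number field. -/
structure Data (p m : ℕ) [Fact p.Prime] (L : Type) [Field L] [NumberField L] {Ω : Type} [Field Ω]
    (S : Set (𝓞 L)) {K : Type} [Fintype K] (c : K → Ω) where
  E : Type
  [fld : Field E]
  [nf : NumberField E]
  [gal : IsGalois ℚ E]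
  [alg : Algebra L E]
  [tow : IsScalarTower ℚ L E]
  [galL : IsGalois L E]
  j : E →+* Ω
  jp : E →+* PadicAlgCl p
  a : K → E
  σ : K → (L ≃ₐ[ℚ] L)
  b : K → 𝓞 L
  mem : ∀ k, b k ∈ S
  ja : ∀ k, j (a k) = c k
  tr : ∀ k, a k + ((p ^ m : ℕ) : E) / a k = algebraMap L E (σ k (b k : L))
  weil : ∀ k, IsWeil (p ^ m) (a k)
  ne : ∀ k, a k ≠ ((p ^ m : ℕ) : E) / a k
  nz : ∀ k, ∃ g, wt jp m g (a k) ≠ 0
  sum : ∀ g, ∑ k, wt jp m g (a k) = 0

attribute [instance] Data.fld Data.nf Data.gal Data.alg Data.tow Data.galL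

theorem exists_data {S : Set (𝓞 L)} (hS : WeilBound (p ^ m) S) {K : Type} [Fintype K]
    [Nonempty K] {c : K → Ω} (hss : ∀ k, ¬ SS (p ^ m) (c k))
    (hc : ∀ k, ∃ φ : L →+* Ω, ∃ b ∈ S, c k ^ 2 - φ b * c k + ((p ^ m : ℕ) : Ω) = 0)
    (hrel : Rel (p ^ m) c) : Nonempty (Data p m L S c) := by
  classical
  choose φ b hb hroot using hc
  obtain ⟨k₀⟩ := (inferInstance : Nonempty K)
  have hq0 : ((p ^ m : ℕ) : Ω) ≠ 0 := q_ne Ω
  have hc0 : ∀ k, c k ≠ 0 := by
    intro k h0
    have h1 := hroot k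
    rw [h0] at h1
    apply hq0
    linear_combination h1
  have hint : ∀ k, IsIntegral ℚ (c k) := by
    intro k
    have hβ : IsIntegral ℤ (φ k (b k : L)) := (b k).isIntegral_coe.map (φ k).toIntAlgHom
    have h2 : IsIntegral ℤ (c k) := by
      let R := integralClosure ℤ Ω
      let βR : R := ⟨φ k (b k : L), hβ⟩
      have h2 : IsIntegral R (c k) := by
        refine ⟨Polynomial.X ^ 2 - Polynomial.C βR * Polynomial.X +
          Polynomial.C ((p ^ m : ℕ) : R), ?_, ?_⟩
        · monicity!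
        · simp only [Polynomial.eval₂_add, Polynomial.eval₂_sub, Polynomial.eval₂_mul,
            Polynomial.eval₂_pow, Polynomial.eval₂_X, Polynomial.eval₂_C]
          rw [map_natCast]
          exact hroot k
      exact isIntegral_trans (c k) h2
    exact h2.tower_top
  let φ₀ := φ k₀
  obtain ⟨E, _, _, _, _, _, _, jΩ, a, ha, hjL⟩ := exists_field φ₀ c hint
  have hσ : ∀ k, ∃ σ : L ≃ₐ[ℚ] L, ∀ x, φ k x = φ₀ (σ x) := by
    intro k
    exact Pool.Agent.H485R3.exists_gal (φ₀.toRatAlgHom) ((φ k).toRatAlgHom)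
  choose σ hσ using hσ
  have ha0 : ∀ k, a k ≠ 0 := by
    intro k h0
    apply hc0 k
    rw [← ha k, h0, map_zero]
  have htr : ∀ k, a k + ((p ^ m : ℕ) : E) / a k = algebraMap L E (σ k (b k : L)) := by
    intro k
    apply jΩ.injective
    rw [map_add, map_div₀, map_natCast, hjL, ← hσ, ha]
    have h1 := hroot k
    have h2 := hc0 k
    field_simp
    linear_combination h1
  have hweil : ∀ k, IsWeil (p ^ m) (a k) := by
    intro k
    refine isWeil_of_trace ?_ ?_ (ha0 k) (htr k)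
    · exact (b k).isIntegral_coe.map ((σ k : L →+* L)).toIntAlgHom
    · intro e
      exact hS (b k) (hb k) (e.comp (σ k : L →+* L))
  have hssE : ∀ k (s : ℕ), 0 < s → a k ^ (2 * s) ≠ ((p ^ m : ℕ) : E) ^ s := by
    intro k s hs h1
    apply hss k
    refine ⟨s, hs, ?_⟩
    have h2 := congrArg jΩ h1
    rw [map_pow, map_pow, ha, map_natCast] at h2
    exact h2
  let jp : E →+* PadicAlgCl p := ((IsAlgClosed.lift : E →ₐ[ℚ] PadicAlgCl p) : E →+* PadicAlgCl p)
  refine ⟨⟨E, jΩ, jp, a, σ, b, hb, ha, htr, hweil, fun k hk => ?_, fun k => ?_, ?_⟩⟩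
  · apply hssE k 1 one_pos
    have h1 : a k * a k = ((p ^ m : ℕ) : E) := by
      nth_rewrite 2 [hk]
      exact mul_div_cancel₀ _ (ha0 k)
    rw [mul_one, pow_one, sq, h1]
  · by_contra hcon
    push Not at hcon
    obtain ⟨s, hs, h1⟩ := rel_of_sum (K := Unit) (m := m) jp (a := fun _ => a k)
      (fun _ => hweil k) (fun g => by rw [Fintype.sum_unique]; exact hcon g)
    rw [Fintype.prod_unique, Fintype.card_unit, mul_one] at h1
    exact hssE k s hs h1
  · obtain ⟨s, hs, h1⟩ := hrel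
    refine sum_of_rel jp ha0 hs ?_
    apply jΩ.injective
    rw [map_pow, map_prod, map_pow, map_natCast, ← h1]
    congr 1
    exact Finset.prod_congr rfl fun k _ => ha k

variable {S : Set (𝓞 L)} {K : Type} [Fintype K] {c : K → Ω}

omit [IsTotallyReal L] [CharZero Ω] [IsAlgClosed Ω] in
/-- Balanced subfamilies give relations in `Ω`. -/
theorem Data.rel (D : Data p m L S c) (T : Finset K)
    (hT : ∀ g : D.E ≃ₐ[ℚ] D.E, ∑ k ∈ T, wt D.jp m g (D.a k) = 0) :
    Rel (p ^ m) (fun k : {k // k ∈ T} => c k) := by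
  classical
  obtain ⟨s, hs, h1⟩ := rel_of_sum (K := {k // k ∈ T}) (m := m) D.jp (a := fun k => D.a k)
    (fun k => D.weil k) (fun g => by
      rw [← hT g]
      exact Finset.sum_coe_sort T (fun k => wt D.jp m g (D.a k)))
  refine ⟨s, hs, ?_⟩
  have h2 := congrArg D.j h1
  rw [map_pow, map_prod, map_pow, map_natCast] at h2
  rw [← h2]
  congr 1
  exact Finset.prod_congr rfl fun k _ => (D.ja k).symm

omit [IsTotallyReal L] [CharZero Ω] [IsAlgClosed Ω] in
theorem Data.realIn (D : Data p m L S c) (k : K) : RealIn L (p ^ m) (D.a k) :=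
  ⟨D.σ k (D.b k : L), D.tr k⟩

/-- Equal slopes. -/
theorem block_equal (hm : 0 < m) (hE : EqualSlopes p m S) [Nonempty K] (D : Data p m L S c)
    {t d : ℕ} (hb : Bound t d) (ht : numPrimes p L ≤ t) :
    ∃ T : Finset K, T.Nonempty ∧ T.card ≤ d ∧ Even T.card ∧
      Rel (p ^ m) (fun k : {k // k ∈ T} => c k) := by
  classical
  obtain ⟨P, hP⟩ := exists_index (m := m) (L := L) D.jp ht
  have hmain : ∀ k k', chi (q_ne D.E) (D.weil k).ne_zero (D.realIn k) (D.ne k) =
      chi (q_ne D.E) (D.weil k').ne_zero (D.realIn k') (D.ne k') →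
      ∀ g, |wt D.jp m g (D.a k)| = |wt D.jp m g (D.a k')| := by
    intro k k' hχ g
    have hsq := isSquare_of_chi (q_ne D.E) _ _ (D.realIn k) (D.realIn k') (D.ne k) (D.ne k') hχ
      (D.tr k) (D.tr k')
    rw [abs_wt D.jp hm (D.weil k).ne_zero (D.tr k) g,
      abs_wt D.jp hm (D.weil k').ne_zero (D.tr k') g]
    have hsq' : IsSquare ((((D.b k : 𝓞 L) : L) ^ 2 - 4 * (p : L) ^ m) *
        (((D.σ k').trans (D.σ k).symm ((D.b k' : 𝓞 L) : L)) ^ 2 - 4 * (p : L) ^ m)) := by
      obtain ⟨r, hr⟩ := hsq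
      refine ⟨(D.σ k).symm r, (D.σ k).injective ?_⟩
      rw [map_mul, map_mul, map_sub, map_sub, map_pow, map_pow, map_mul, map_pow, map_natCast,
        AlgEquiv.apply_symm_apply, AlgEquiv.trans_apply, AlgEquiv.apply_symm_apply, ← hr]
      have e3 : (D.σ k) 4 = 4 := map_ofNat _ 4
      rw [e3]
      push_cast
      rfl
    have h5 := hE (D.b k) (D.mem k) (D.b k') (D.mem k') ((D.σ k').trans (D.σ k).symm) hsq'
      ((emb (L := L) D.jp g).comp (D.σ k : L →+* L))
    have e1 : ((emb (L := L) D.jp g).comp (D.σ k : L →+* L)) (D.b k : L) =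
        D.jp (g (algebraMap L D.E (D.σ k (D.b k : L)))) := rfl
    have e2 : ((emb (L := L) D.jp g).comp (D.σ k : L →+* L))
        (((D.σ k').trans (D.σ k).symm) (D.b k' : L)) =
        D.jp (g (algebraMap L D.E (D.σ k' (D.b k' : L)))) := by
      change D.jp (g (algebraMap L D.E (D.σ k ((D.σ k).symm (D.σ k' (D.b k' : L)))))) = _
      rw [AlgEquiv.apply_symm_apply]
    rw [e1, e2] at h5
    rw [h5]
  obtain ⟨T, h1, h2, h3, h4⟩ := exists_block D.jp hb P hP (fun k => (D.weil k).ne_zero)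
    D.realIn D.ne D.nz hmain D.sum
  exact ⟨T, h1, h2, h3, D.rel T h4⟩

/-- The values of the weights. -/
def Vals (Λ : Set ℝ) : Set ℝ := insert 0 ((fun x => 1 - 2 * x) '' Λ ∪ (fun x => 2 * x - 1) '' Λ)

/-- Finitely many slopes. -/
theorem block_slopes (hm : 0 < m) {Λ : Set ℝ} (hE : SlopesIn p m Λ S) [Nonempty K]
    (D : Data p m L S c) {t d : ℕ} (hb : BoundR t (Vals Λ) d) (ht : numPrimes p L ≤ t) :
    ∃ T : Finset K, T.Nonempty ∧ T.card ≤ d ∧
      Rel (p ^ m) (fun k : {k // k ∈ T} => c k) := by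
  classical
  obtain ⟨P, hP⟩ := exists_index (m := m) (L := L) D.jp ht
  have hp1 : (1 : ℝ) < p := by exact_mod_cast hp.out.one_lt
  have hlogp : 0 < Real.log p := Real.log_pos hp1
  have hm0 : (0 : ℝ) < m := by exact_mod_cast hm
  have hmlog : 0 < (m : ℝ) * Real.log p := mul_pos hm0 hlogp
  have hmain : ∀ k g, wt D.jp m g (D.a k) / (m * Real.log p) ∈ Vals Λ := by
    intro k g
    have h5 := abs_wt D.jp hm (D.weil k).ne_zero (D.tr k) g
    have h6 := hE (D.b k) (D.mem k) ((emb (L := L) D.jp g).comp (D.σ k : L →+* L))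
    have e1 : ((emb (L := L) D.jp g).comp (D.σ k : L →+* L)) (D.b k : L) =
        D.jp (g (algebraMap L D.E (D.σ k (D.b k : L)))) := rfl
    rw [e1] at h6
    refine Or.inr ?_
    rcases abs_eq_abs.1 ((abs_abs _).symm.trans (congrArg abs h5)) with h7 | h7
    · refine Or.inl ⟨_, h6, ?_⟩
      change 1 - 2 * _ = _
      rw [h7, mul_div_cancel_left₀ _ hmlog.ne']
    · refine Or.inr ⟨_, h6, ?_⟩
      change 2 * _ - 1 = _
      rw [h7, neg_div, mul_div_cancel_left₀ _ hmlog.ne']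
      ring
  obtain ⟨T, h1, h2, h4⟩ := exists_block_of_slopes D.jp hb (V := Vals Λ) (Or.inl rfl) hmlog.ne'
    P hP (fun k => (D.weil k).ne_zero) D.realIn D.ne hmain D.sum
  exact ⟨T, h1, h2, D.rel T h4⟩

end data

end Pool.Agent.P8H27.RF
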