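import Mathlib
import Pool.Agent.P8H27.RF.Final

/-!
# Decomposition of relations into relations of even length
-/

set_option autoImplicit false
set_option linter.unusedSectionVars false
set_option linter.unusedVariables false

namespace Pool.Agent.P8H27.RF

open NumberField Module Pool.Agent.H485R3 Pool.Agent.H925R2 Pool.Agent.W527.TateRing

section rel

variable {Ω : Type} [Field Ω] {q : ℕ} {κ : Type} {c : κ → Ω}

/-- The product of the numbers with index in `T` is, up to a root of unity, a power of `√q`. -/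
def RelS (q : ℕ) (c : κ → Ω) (T : Finset κ) : Prop :=
  ∃ s : ℕ, 0 < s ∧ (∏ k ∈ T, c k) ^ (2 * s) = (q : Ω) ^ (s * T.card)

theorem relS_iff (T : Finset κ) : RelS q c T ↔ Rel q (fun k : {k // k ∈ T} => c k) := by
  unfold RelS Rel
  rw [Fintype.card_coe]
  have h1 : ∏ k : {k // k ∈ T}, c k = ∏ k ∈ T, c k := Finset.prod_coe_sort T c
  rw [h1]

theorem relS_univ [Fintype κ] : RelS q c Finset.univ ↔ Rel q c := by
  unfold RelS Rel
  rw [Finset.card_univ]

theorem relS_map {P : κ → Prop} {T : Finset {k // P k}} :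
    RelS q c (T.map (Function.Embedding.subtype _)) ↔
      Rel q (fun k : {k // k ∈ T} => c k) := by
  unfold RelS Rel
  rw [Finset.prod_map, Finset.card_map, Fintype.card_coe]
  have h1 : ∏ k : {k // k ∈ T}, c k = ∏ k ∈ T, c k :=
    Finset.prod_coe_sort T (fun k => c k)
  rw [h1]
  rfl

theorem RelS.pow {T : Finset κ} {s : ℕ}
    (h : (∏ k ∈ T, c k) ^ (2 * s) = (q : Ω) ^ (s * T.card)) (t : ℕ) :
    (∏ k ∈ T, c k) ^ (2 * (s * t)) = (q : Ω) ^ (s * t * T.card) := by
  rw [← mul_assoc, pow_mul, h, ← pow_mul]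
  congr 1
  ring

theorem RelS.union [DecidableEq κ] {T T' : Finset κ} (h : RelS q c T) (h' : RelS q c T')
    (hd : Disjoint T T') : RelS q c (T ∪ T') := by
  obtain ⟨s, hs, h⟩ := h
  obtain ⟨t, ht, h'⟩ := h'
  refine ⟨s * t, Nat.mul_pos hs ht, ?_⟩
  rw [Finset.prod_union hd, Finset.card_union_of_disjoint hd, mul_pow, RelS.pow h t, mul_comm s t,
    RelS.pow h' s, ← pow_add]
  congr 1
  ring

theorem RelS.sdiff [DecidableEq κ] (hq : (q : Ω) ≠ 0) {T T' : Finset κ} (h : RelS q c T)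
    (h' : RelS q c T') (hd : T' ⊆ T) : RelS q c (T \ T') := by
  obtain ⟨s, hs, h⟩ := h
  obtain ⟨t, ht, h'⟩ := h'
  refine ⟨s * t, Nat.mul_pos hs ht, ?_⟩
  have h1 := RelS.pow h t
  have h2 := RelS.pow h' s
  rw [mul_comm t s] at h2
  have hcard : T.card = T'.card + (T \ T').card := by
    rw [Finset.card_sdiff_of_subset hd]
    have := Finset.card_le_card hd
    omega
  rw [← Finset.prod_sdiff hd, mul_pow, h2, hcard, mul_add, pow_add, mul_comm] at h1
  exact mul_left_cancel₀ (pow_ne_zero _ hq) h1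

theorem relS_of_ss [DecidableEq κ] (T : Finset κ) (h : ∀ k ∈ T, SS q (c k)) : RelS q c T := by
  induction T using Finset.induction_on with
  | empty => exact ⟨1, one_pos, by simp⟩
  | insert a T ha ih =>
    have h1 : RelS q c {a} := by
      obtain ⟨s, hs, h1⟩ := h a (Finset.mem_insert_self a T)
      exact ⟨s, hs, by rw [Finset.prod_singleton, Finset.card_singleton, mul_one, h1]⟩
    have h2 := RelS.union h1 (ih fun k hk => h k (Finset.mem_insert_of_mem hk))
      (Finset.disjoint_singleton_left.2 ha)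
    rwa [← Finset.insert_eq] at h2

theorem exists_even [Fintype κ] [Nonempty κ] [DecidableEq κ] (hq : (q : Ω) ≠ 0) {d : ℕ}
    (hd : 1 ≤ d)
    (hsub : ∀ T : Finset κ, T.Nonempty → (∀ k ∈ T, ¬ SS q (c k)) → RelS q c T →
      ∃ T' ⊆ T, T'.Nonempty ∧ T'.card ≤ d ∧ RelS q c T')
    (hev : Even (Fintype.card κ)) (hrel : RelS q c Finset.univ) :
    ∃ S : Finset κ, S.Nonempty ∧ Even S.card ∧ S.card ≤ 2 * d ∧ RelS q c S := by
  classical
  let Z : Finset κ := Finset.univ.filter fun k => SS q (c k)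
  have hZ : ∀ k ∈ Z, SS q (c k) := fun k hk => (Finset.mem_filter.1 hk).2
  by_cases hZ2 : 2 ≤ Z.card
  · obtain ⟨S, hS, hS2⟩ := Finset.exists_subset_card_eq hZ2
    refine ⟨S, ?_, ?_, ?_, relS_of_ss S fun k hk => hZ k (hS hk)⟩
    · rw [← Finset.card_pos]
      omega
    · rw [hS2]
      exact even_two
    · omega
  have hN : ∀ k ∈ Finset.univ \ Z, ¬ SS q (c k) := by
    intro k hk hss
    exact (Finset.mem_sdiff.1 hk).2 (Finset.mem_filter.2 ⟨Finset.mem_univ k, hss⟩)
  have hNrel : RelS q c (Finset.univ \ Z) :=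
    RelS.sdiff hq hrel (relS_of_ss Z hZ) (Finset.subset_univ Z)
  have hNcard : (Finset.univ \ Z).card = Fintype.card κ - Z.card := by
    rw [Finset.card_sdiff_of_subset (Finset.subset_univ Z), Finset.card_univ]
  have hZle : Z.card ≤ Fintype.card κ := Finset.card_le_univ Z
  have hpos : 0 < Fintype.card κ := Fintype.card_pos
  have hNne : (Finset.univ \ Z).Nonempty := by
    rw [← Finset.card_pos, hNcard]
    obtain ⟨r, hr⟩ := hev
    omega
  obtain ⟨T₁, hT1, hT1ne, hT1d, hT1rel⟩ := hsub _ hNne hN hNrel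
  by_cases hT1e : Even T₁.card
  · exact ⟨T₁, hT1ne, hT1e, by omega, hT1rel⟩
  rw [Nat.not_even_iff_odd] at hT1e
  by_cases hZ1 : Z.card = 1
  · have hdis : Disjoint T₁ Z := by
      rw [Finset.disjoint_left]
      intro k hk hk'
      exact (Finset.mem_sdiff.1 (hT1 hk)).2 hk'
    refine ⟨T₁ ∪ Z, hT1ne.mono Finset.subset_union_left, ?_, ?_,
      RelS.union hT1rel (relS_of_ss Z hZ) hdis⟩
    · rw [Finset.card_union_of_disjoint hdis, hZ1]
      exact hT1e.add_odd odd_one
    · rw [Finset.card_union_of_disjoint hdis, hZ1]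
      omega
  have hZ0 : Z.card = 0 := by omega
  have hNcard' : (Finset.univ \ Z).card = Fintype.card κ := by omega
  have hT1card : T₁.card ≤ (Finset.univ \ Z).card := Finset.card_le_card hT1
  have hRcard : ((Finset.univ \ Z) \ T₁).card = Fintype.card κ - T₁.card := by
    rw [Finset.card_sdiff_of_subset hT1, hNcard']
  have hRne : ((Finset.univ \ Z) \ T₁).Nonempty := by
    rw [← Finset.card_pos, hRcard]
    obtain ⟨r, hr⟩ := hev
    obtain ⟨r', hr'⟩ := hT1e
    omega
  obtain ⟨T₂, hT2, hT2ne, hT2d, hT2rel⟩ := hsub _ hRne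
    (fun k hk => hN k (Finset.mem_sdiff.1 hk).1) (RelS.sdiff hq hNrel hT1rel hT1)
  by_cases hT2e : Even T₂.card
  · exact ⟨T₂, hT2ne, hT2e, by omega, hT2rel⟩
  rw [Nat.not_even_iff_odd] at hT2e
  have hdis : Disjoint T₁ T₂ := by
    rw [Finset.disjoint_right]
    intro k hk
    exact (Finset.mem_sdiff.1 (hT2 hk)).2
  refine ⟨T₁ ∪ T₂, hT1ne.mono Finset.subset_union_left, ?_, ?_, RelS.union hT1rel hT2rel hdis⟩
  · rw [Finset.card_union_of_disjoint hdis]
    exact hT1e.add_odd hT2e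
  · rw [Finset.card_union_of_disjoint hdis]
    omega

theorem exists_even' [Fintype κ] [Nonempty κ] [DecidableEq κ] (hq : (q : Ω) ≠ 0) {d : ℕ}
    (hd : 2 ≤ d)
    (hsub : ∀ T : Finset κ, T.Nonempty → (∀ k ∈ T, ¬ SS q (c k)) → RelS q c T →
      ∃ T' ⊆ T, T'.Nonempty ∧ T'.card ≤ d ∧ Even T'.card ∧ RelS q c T')
    (hev : Even (Fintype.card κ)) (hrel : RelS q c Finset.univ) :
    ∃ S : Finset κ, S.Nonempty ∧ Even S.card ∧ S.card ≤ d ∧ RelS q c S := by
  classical
  let Z : Finset κ := Finset.univ.filter fun k => SS q (c k)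
  have hZ : ∀ k ∈ Z, SS q (c k) := fun k hk => (Finset.mem_filter.1 hk).2
  by_cases hZ2 : 2 ≤ Z.card
  · obtain ⟨S, hS, hS2⟩ := Finset.exists_subset_card_eq hZ2
    refine ⟨S, ?_, ?_, ?_, relS_of_ss S fun k hk => hZ k (hS hk)⟩
    · rw [← Finset.card_pos]
      omega
    · rw [hS2]
      exact even_two
    · omega
  have hN : ∀ k ∈ Finset.univ \ Z, ¬ SS q (c k) := by
    intro k hk hss
    exact (Finset.mem_sdiff.1 hk).2 (Finset.mem_filter.2 ⟨Finset.mem_univ k, hss⟩)
  have hNrel : RelS q c (Finset.univ \ Z) :=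
    RelS.sdiff hq hrel (relS_of_ss Z hZ) (Finset.subset_univ Z)
  have hNcard : (Finset.univ \ Z).card = Fintype.card κ - Z.card := by
    rw [Finset.card_sdiff_of_subset (Finset.subset_univ Z), Finset.card_univ]
  have hpos : 0 < Fintype.card κ := Fintype.card_pos
  have hNne : (Finset.univ \ Z).Nonempty := by
    rw [← Finset.card_pos, hNcard]
    obtain ⟨r, hr⟩ := hev
    omega
  obtain ⟨T₁, hT1, hT1ne, hT1d, hT1e, hT1rel⟩ := hsub _ hNne hN hNrel
  exact ⟨T₁, hT1ne, hT1e, hT1d, hT1rel⟩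

end rel

section main

variable {p m : ℕ} [hp : Fact p.Prime] {L : Type} [Field L] [NumberField L] [IsTotallyReal L]
  [IsGalois ℚ L] {S : Set (𝓞 L)} {Ω : Type} [Field Ω] [CharZero Ω] [IsAlgClosed Ω]
  {X : FrobSpace Ω}

/-- Equal slopes: generation by classes of small degree. -/
theorem main_equal (hm : 0 < m) (hS : WeilBound (p ^ m) S) (hE : EqualSlopes p m S)
    (hX : TracesIn (p ^ m) S X) {t d : ℕ} (hb : Bound t d) (hd : 2 ≤ d) (ht : numPrimes p L ≤ t)
    {κ : Type} [Finite κ] (hκ : Even (Nat.card κ)) (f : Coh X κ) :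
    IsTate (p ^ m) f ↔ GenByDegree (p ^ m) d X κ f := by
  classical
  have := Fintype.ofFinite κ
  refine ⟨fun hf => ?_, isTate_of_gen⟩
  obtain ⟨η, _, b, c, hbc, hc⟩ := exists_eigenbasis hX
  have hq0 : ((p ^ m : ℕ) : Ω) ≠ 0 := q_ne Ω
  rw [Nat.card_eq_fintype_card] at hκ
  refine gen_of_decomp hq0 b c hbc (fun K _ _ x hev hrel => ?_) hκ hf
  obtain ⟨T, h1, h2, h3, h4⟩ := exists_even' (q := p ^ m) (c := fun k => c (x k)) hq0 hd
    (fun T hT hTss hTrel => by
      have : Nonempty {k // k ∈ T} := hT.to_subtype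
      obtain ⟨D⟩ := exists_data (L := L) (S := S) hS (c := fun k : {k // k ∈ T} => c (x k))
        (fun k => hTss k k.2) (fun k => (hc (x k)).resolve_left (hTss k k.2))
        ((relS_iff T).1 hTrel)
      obtain ⟨T', h1, h2, h3, h4⟩ := block_equal hm hE D hb ht
      refine ⟨T'.map (Function.Embedding.subtype _), ?_, h1.map, by rwa [Finset.card_map],
        by rwa [Finset.card_map], relS_map.2 h4⟩
      intro k hk
      obtain ⟨k', _, rfl⟩ := Finset.mem_map.1 hk
      exact k'.2) hev (relS_univ.2 hrel)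
  exact ⟨T, h1, h2, h3, (relS_iff T).1 h4⟩

/-- Finitely many slopes: generation by classes of bounded degree. -/
theorem main_slopes (hm : 0 < m) (hS : WeilBound (p ^ m) S) {Λ : Set ℝ} (hE : SlopesIn p m Λ S)
    (hX : TracesIn (p ^ m) S X) {t d : ℕ} (hb : BoundR t (Vals Λ) d) (hd : 1 ≤ d)
    (ht : numPrimes p L ≤ t) {κ : Type} [Finite κ] (hκ : Even (Nat.card κ)) (f : Coh X κ) :
    IsTate (p ^ m) f ↔ GenByDegree (p ^ m) (2 * d) X κ f := by
  classical
  have := Fintype.ofFinite κ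
  refine ⟨fun hf => ?_, isTate_of_gen⟩
  obtain ⟨η, _, b, c, hbc, hc⟩ := exists_eigenbasis hX
  have hq0 : ((p ^ m : ℕ) : Ω) ≠ 0 := q_ne Ω
  rw [Nat.card_eq_fintype_card] at hκ
  refine gen_of_decomp hq0 b c hbc (fun K _ _ x hev hrel => ?_) hκ hf
  obtain ⟨T, h1, h2, h3, h4⟩ := exists_even (q := p ^ m) (c := fun k => c (x k)) hq0 hd
    (fun T hT hTss hTrel => by
      have : Nonempty {k // k ∈ T} := hT.to_subtype
      obtain ⟨D⟩ := exists_data (L := L) (S := S) hS (c := fun k : {k // k ∈ T} => c (x k))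
        (fun k => hTss k k.2) (fun k => (hc (x k)).resolve_left (hTss k k.2))
        ((relS_iff T).1 hTrel)
      obtain ⟨T', h1, h2, h4⟩ := block_slopes hm hE D hb ht
      refine ⟨T'.map (Function.Embedding.subtype _), ?_, h1.map, by rwa [Finset.card_map],
        relS_map.2 h4⟩
      intro k hk
      obtain ⟨k', _, rfl⟩ := Finset.mem_map.1 hk
      exact k'.2) hev (relS_univ.2 hrel)
  exact ⟨T, h1, h2, h3, (relS_iff T).1 h4⟩

end main

end Pool.Agent.P8H27.RF
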