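import Mathlib
import Pool.Agent.P8H27.RF.RelS
import Pool.Agent.H498R2.KlWeil

/-!
# Kloosterman sums
-/

set_option autoImplicit false
set_option linter.unusedSectionVars false
set_option linter.unusedVariables false

namespace Pool.Agent.P8H27.RF

open NumberField Module Pool.Agent.H485R3 Pool.Agent.H925R2 Pool.Agent.W527.TateRing

open Classical in
/-- The Kloosterman sum of the additive character `ψ`: the sum of the numbers `ψ (x + a / x)` over
the nonzero elements `x` of the finite field `F`. -/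
noncomputable def kloosterman {F R : Type} [Field F] [Fintype F] [CommRing R] (ψ : AddChar F R) (a : F) : R :=
  ∑ x ∈ Finset.univ.filter (fun x : F => x ≠ 0), ψ (x + a * x⁻¹)

/-- The Frobenius of `X` is semisimple and each of its eigenvalues `α` is supersingular or a root of
`T ^ 2 + K T + q`, where `K` is the Kloosterman sum of a nontrivial additive character of the field
`F` with `q` elements and of a nonzero element of `F`. -/
def KloostermanType (F : Type) [Field F] [Fintype F] {Ω : Type} [Field Ω]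
    (X : FrobSpace Ω) : Prop :=
  Submodule.span Ω {v : X.V | ∃ α : Ω, X.F v = α • v ∧
    ((∃ s : ℕ, 0 < s ∧ α ^ (2 * s) = (Fintype.card F : Ω) ^ s) ∨
      ∃ ψ : AddChar F Ω, ψ ≠ 1 ∧ ∃ a : F, a ≠ 0 ∧
        α ^ 2 + kloosterman ψ a * α + Fintype.card F = 0)} = ⊤

section gen

variable {p m : ℕ} [hp : Fact p.Prime] {L : Type} [Field L] [NumberField L]

theorem slope_of_norm_one {x : PadicAlgCl p} (h : ‖x‖ = 1) : slope p m x = 0 := by
  unfold slope
  have hp1 : (1 : ℝ) ≤ p := by exact_mod_cast hp.out.one_lt.le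
  have h1 : (√((p : ℝ) ^ m))⁻¹ ≤ 1 := by
    apply inv_le_one_of_one_le₀
    rw [Real.one_le_sqrt]
    exact one_le_pow₀ hp1
  rw [h, max_eq_left h1, Real.logb_one, neg_zero]

theorem equalSlopes_of_norm {S : Set (𝓞 L)}
    (h : ∀ b ∈ S, ∀ τ : L →+* PadicAlgCl p, ‖τ b‖ = 1) : EqualSlopes p m S := by
  intro b hb b' hb' σ _ τ
  rw [slope_of_norm_one (h b hb τ)]
  have h1 := h b' hb' (τ.comp (σ : L →+* L))
  exact (slope_of_norm_one h1).symm

theorem equalSlopes_of_primeTo {S : Set (𝓞 L)} (h : PrimeTo p S) : EqualSlopes p m S :=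
  equalSlopes_of_norm fun b hb τ => norm_of_not_mem τ (h b hb _ (primeOf_mem τ))

end gen

section field

/-- The maximal real subfield. -/
def realPart (K : Type) [Field K] [NumberField K] : IntermediateField ℚ K where
  carrier := {x | ∀ φ : K →+* ℂ, star (φ x) = φ x}
  mul_mem' := by
    intro x y hx hy φ
    rw [map_mul, star_mul, hx, hy, mul_comm]
  add_mem' := by
    intro x y hx hy φ
    rw [map_add, star_add, hx, hy]
  algebraMap_mem' := by
    intro x φ
    rw [eq_ratCast, map_ratCast, RCLike.star_def, map_ratCast]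
  inv_mem' := by
    intro x hx φ
    rw [map_inv₀, star_inv₀, hx]

theorem mem_realPart {K : Type} [Field K] [NumberField K] {x : K} :
    x ∈ realPart K ↔ ∀ φ : K →+* ℂ, star (φ x) = φ x := Iff.rfl

/-- Embeddings extend. -/
theorem exists_extension {K : Type} [Field K] [NumberField K] (L : IntermediateField ℚ K)
    {A : Type} [Field A] [IsAlgClosed A] (φ : L →+* A) :
    ∃ ψ : K →+* A, ∀ x : L, ψ x = φ x := by
  let _ : Algebra L A := φ.toAlgebra
  have : Algebra.IsAlgebraic L K := Algebra.IsAlgebraic.tower_top (K := ℚ) L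
  refine ⟨((IsAlgClosed.lift : K →ₐ[L] A) : K →+* A), fun x => ?_⟩
  exact (IsAlgClosed.lift : K →ₐ[L] A).commutes x

instance isTotallyReal_realPart (K : Type) [Field K] [NumberField K] :
    IsTotallyReal (realPart K) where
  isReal w := by
    rw [InfinitePlace.isReal_iff, ComplexEmbedding.isReal_iff]
    obtain ⟨ψ, hψ⟩ := exists_extension (realPart K) w.embedding
    ext x
    rw [ComplexEmbedding.conjugate_coe_eq, ← hψ]
    exact mem_realPart.1 x.2 ψ

instance isGalois_realPart (K : Type) [Field K] [NumberField K] [IsGalois ℚ K] :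
    IsGalois ℚ (realPart K) := by
  have h1 : Normal ℚ (realPart K) := by
    refine IntermediateField.normal_iff_forall_map_le.2 ?_
    intro σ x hx
    rw [IntermediateField.mem_map] at hx
    obtain ⟨y, hy, rfl⟩ := hx
    rw [mem_realPart] at hy ⊢
    intro φ
    exact hy (φ.comp (σ : K →+* K))
  exact { }

theorem numPrimes_le_one {p : ℕ} [hp : Fact p.Prime] {K : Type} [Field K] [NumberField K]
    (L : IntermediateField ℚ K)
    (h : (Ideal.primesOver (Ideal.span {(p : ℤ)}) (𝓞 K)).ncard ≤ 1) : numPrimes p L ≤ 1 := by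
  have hmax : (Ideal.span {(p : ℤ)}).IsMaximal := Int.ideal_span_isMaximal_of_prime p
  have hfin : (Ideal.primesOver (Ideal.span {(p : ℤ)}) (𝓞 K)).Finite :=
    IsDedekindDomain.primesOver_finite _ _
  have hfin' : (Ideal.primesOver (Ideal.span {(p : ℤ)}) (𝓞 L)).Finite :=
    IsDedekindDomain.primesOver_finite _ _
  rw [numPrimes, Set.ncard_le_one hfin']
  rw [Set.ncard_le_one hfin] at h
  intro P hP P' hP'
  have hP1 : P.IsPrime := hP.1
  have hP1' : P'.IsPrime := hP'.1
  have hP2 : P.LiesOver (Ideal.span {(p : ℤ)}) := hP.2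
  have hP2' : P'.LiesOver (Ideal.span {(p : ℤ)}) := hP'.2
  obtain ⟨⟨Q, hQ, hQ2⟩⟩ := P.nonempty_primesOver (S := 𝓞 K)
  obtain ⟨⟨Q', hQ', hQ2'⟩⟩ := P'.nonempty_primesOver (S := 𝓞 K)
  have e : Q = Q' := h Q ⟨hQ, Ideal.LiesOver.trans Q P _⟩ Q' ⟨hQ', Ideal.LiesOver.trans Q' P' _⟩
  rw [hQ2.over, hQ2'.over, e]

end field

section chars

variable {F : Type} [Field F] [Fintype F]

/-- The composition of a character with a homomorphism. -/
def mapChar {R R' : Type} [CommRing R] [CommRing R'] (e : R →+* R') (ψ : AddChar F R) :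
    AddChar F R' where
  toFun x := e (ψ x)
  map_zero_eq_one' := by rw [AddChar.map_zero_eq_one, map_one]
  map_add_eq_mul' x y := by rw [AddChar.map_add_eq_mul, map_mul]

theorem mapChar_apply {R R' : Type} [CommRing R] [CommRing R'] (e : R →+* R') (ψ : AddChar F R)
    (x : F) : mapChar e ψ x = e (ψ x) := rfl

theorem kloosterman_map {R R' : Type} [CommRing R] [CommRing R'] (e : R →+* R')
    (ψ : AddChar F R) (a : F) : kloosterman (mapChar e ψ) a = e (kloosterman ψ a) := by
  unfold kloosterman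
  rw [map_sum]
  rfl

theorem mapChar_ne {R R' : Type} [CommRing R] [CommRing R'] {e : R →+* R'}
    (he : Function.Injective e) {ψ : AddChar F R} (h : ψ ≠ 1) : mapChar e ψ ≠ 1 := by
  intro h1
  apply h
  ext x
  apply he
  have h2 : mapChar e ψ x = (1 : AddChar F R') x := by rw [h1]
  rw [AddChar.one_apply, mapChar_apply] at h2
  rw [h2, AddChar.one_apply, map_one]

variable {p m : ℕ} [hp : Fact p.Prime] [CharP F p]

theorem char_pow {R : Type} [CommRing R] (ψ : AddChar F R) (x : F) : ψ x ^ p = 1 := by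
  rw [← AddChar.map_nsmul_eq_pow, nsmul_eq_mul, CharP.cast_eq_zero, zero_mul,
    AddChar.map_zero_eq_one]

/-- All characters come from the field of `p`-th roots of unity. -/
theorem exists_char {K : Type} [Field K] [NumberField K] [IsCyclotomicExtension {p} ℚ K]
    {A : Type} [Field A] [CharZero A] (e : K →+* A) (ψ : AddChar F A) :
    ∃ ψ' : AddChar F K, ψ = mapChar e ψ' := by
  have hζ := IsCyclotomicExtension.zeta_spec p ℚ K
  have hζ' := hζ.map_of_injective e.injective
  have h1 : ∀ x, ∃ y : K, e y = ψ x := by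
    intro x
    obtain ⟨i, _, hi⟩ := hζ'.eq_pow_of_pow_eq_one (char_pow (p := p) ψ x)
    exact ⟨IsCyclotomicExtension.zeta p ℚ K ^ i, by rw [map_pow, hi]⟩
  choose f hf using h1
  refine ⟨⟨f, ?_, ?_⟩, ?_⟩
  · apply e.injective
    rw [hf, AddChar.map_zero_eq_one, map_one]
  · intro x y
    apply e.injective
    rw [hf, AddChar.map_add_eq_mul, map_mul, hf, hf]
  · ext x
    exact (hf x).symm

omit [CharP F p] hp in
/-- Kloosterman sums are real. -/
theorem kloosterman_star (ψ : AddChar F ℂ) (a : F) :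
    star (kloosterman ψ a) = kloosterman ψ a := by
  classical
  unfold kloosterman
  rw [star_sum]
  refine Finset.sum_bij' (fun x _ => -x) (fun x _ => -x) ?_ ?_ ?_ ?_ ?_
  · intro x hx
    rw [Finset.mem_filter] at hx ⊢
    exact ⟨Finset.mem_univ _, neg_ne_zero.2 hx.2⟩
  · intro x hx
    rw [Finset.mem_filter] at hx ⊢
    exact ⟨Finset.mem_univ _, neg_ne_zero.2 hx.2⟩
  · intro x _
    exact neg_neg x
  · intro x _
    exact neg_neg x
  · intro x _
    have h1 : -x + a * (-x)⁻¹ = -(x + a * x⁻¹) := by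
      rw [inv_neg]
      ring
    rw [h1, AddChar.map_neg_eq_conj]
    rfl

omit [CharP F p] hp in
/-- Weil's bound. -/
theorem kloosterman_bound (hF : ringChar F ≠ 2) {ψ : AddChar F ℂ} (hψ : ψ ≠ 1) {a : F}
    (ha : a ≠ 0) : ‖kloosterman ψ a‖ ≤ 2 * Real.sqrt (Fintype.card F) := by
  classical
  have h1 := Pool.Agent.H498R2.Kl.kloosterman_le hF (AddChar.IsPrimitive.of_ne_one hψ)
    (one_ne_zero) ha
  have h2 : kloosterman ψ a = ∑ x : F, (if x = 0 then (0 : ℂ) else ψ (1 * x + a * x⁻¹)) := by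
    unfold kloosterman
    rw [Finset.sum_filter]
    refine Finset.sum_congr rfl fun x _ => ?_
    by_cases hx : x = 0
    · rw [if_pos hx, if_neg (fun h => h hx)]
    · rw [if_neg hx, if_pos hx, one_mul]
  rw [h2]
  exact h1

/-- The characters are trivial modulo the primes above `p`. -/
theorem norm_char_sub {K : Type} [Field K] [NumberField K] (hp2 : p ≠ 2) (ψ : AddChar F K)
    (τ : K →+* PadicAlgCl p) (x : F) : ‖τ (ψ x) - 1‖ < 1 := by
  have hpow := char_pow (p := p) ψ x
  have hint : IsIntegral ℤ (ψ x) := by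
    refine ⟨Polynomial.X ^ p - 1, ?_, ?_⟩
    · exact Polynomial.monic_X_pow_sub_C (1 : ℤ) hp.out.ne_zero
    · simp [hpow]
  let u : 𝓞 K := ⟨ψ x, hint⟩
  have hu : u ^ p = 1 := by
    apply RingOfIntegers.coe_injective
    rw [map_pow, map_one]
    exact hpow
  obtain ⟨r, hr⟩ := exists_add_pow_prime_eq hp.out u (-1)
  have hodd : Odd p := hp.out.odd_of_ne_two hp2
  rw [hodd.neg_one_pow, hu] at hr
  have h1 : ‖τ (algebraMap (𝓞 K) K (u + -1))‖ ^ p < 1 := by
    rw [← norm_pow, ← map_pow, ← map_pow, hr]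
    rw [add_neg_cancel, zero_add, mul_assoc, mul_assoc, map_mul, map_mul,
      map_natCast, map_natCast, norm_mul]
    calc ‖(p : PadicAlgCl p)‖ * ‖τ (algebraMap (𝓞 K) K (u * (-1 * r)))‖
        ≤ ‖(p : PadicAlgCl p)‖ * 1 :=
          mul_le_mul_of_nonneg_left (norm_int_le p τ _) (norm_nonneg _)
      _ < 1 := by rw [mul_one]; exact norm_p_lt p
  have h2 : ‖τ (algebraMap (𝓞 K) K (u + -1))‖ < 1 := by
    by_contra hcon
    push Not at hcon
    exact absurd h1 (not_lt.2 (one_le_pow₀ hcon))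
  have h3 : τ (ψ x) - 1 = τ (algebraMap (𝓞 K) K (u + -1)) := by
    rw [map_add, map_add, map_neg, map_neg, map_one, map_one, sub_eq_add_neg]
    rfl
  rw [h3]
  exact h2

/-- Kloosterman sums are units at the primes above `p`. -/
theorem norm_kloosterman {K : Type} [Field K] [NumberField K] (hp2 : p ≠ 2) (hm : 0 < m)
    (hcard : Fintype.card F = p ^ m) (ψ : AddChar F K) (a : F) (τ : K →+* PadicAlgCl p) :
    ‖τ (kloosterman ψ a)‖ = 1 := by
  classical
  have hn : (Finset.univ.filter (fun x : F => x ≠ 0)).card = p ^ m - 1 := by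
    rw [← hcard]
    rw [Finset.filter_ne' Finset.univ (0 : F), Finset.card_erase_of_mem (Finset.mem_univ _),
      Finset.card_univ]
  have h1 : ‖τ (kloosterman ψ a) - ((p ^ m - 1 : ℕ) : PadicAlgCl p)‖ < 1 := by
    have h2 : τ (kloosterman ψ a) - ((p ^ m - 1 : ℕ) : PadicAlgCl p) =
        ∑ x ∈ Finset.univ.filter (fun x : F => x ≠ 0), (τ (ψ (x + a * x⁻¹)) - 1) := by
      rw [Finset.sum_sub_distrib, Finset.sum_const, hn, nsmul_eq_mul, mul_one]
      unfold kloosterman
      rw [map_sum]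
    rw [h2]
    have hne : (Finset.univ.filter (fun x : F => x ≠ 0)).Nonempty :=
      ⟨1, Finset.mem_filter.2 ⟨Finset.mem_univ _, one_ne_zero⟩⟩
    obtain ⟨i, hi, hi'⟩ := IsUltrametricDist.exists_norm_finsetSum_le_of_nonempty hne
      (fun x : F => (τ (ψ (x + a * x⁻¹)) - 1))
    exact hi'.trans_lt (norm_char_sub hp2 ψ τ _)
  have h2 : ‖((p ^ m - 1 : ℕ) : PadicAlgCl p)‖ = 1 := by
    rw [Nat.cast_sub (Nat.one_le_pow _ _ hp.out.pos), Nat.cast_one, Nat.cast_pow]
    have h3 : ‖(p : PadicAlgCl p) ^ m‖ < 1 := by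
      rw [norm_pow]
      exact pow_lt_one₀ (norm_nonneg _) (norm_p_lt p) hm.ne'
    have h4 : ‖(p : PadicAlgCl p) ^ m - 1‖ = max ‖(p : PadicAlgCl p) ^ m‖ ‖(-1 : PadicAlgCl p)‖ := by
      rw [sub_eq_add_neg]
      apply IsUltrametricDist.norm_add_eq_max_of_norm_ne_norm
      rw [norm_neg, norm_one]
      exact h3.ne
    rw [h4, norm_neg, norm_one, max_eq_right h3.le]
  have h3 : τ (kloosterman ψ a) = (τ (kloosterman ψ a) - ((p ^ m - 1 : ℕ) : PadicAlgCl p)) +
      ((p ^ m - 1 : ℕ) : PadicAlgCl p) := by ring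
  rw [h3, IsUltrametricDist.norm_add_eq_max_of_norm_ne_norm (by rw [h2]; exact h1.ne), h2,
    max_eq_right h1.le]

include hp in
omit [CharP F p] in
theorem kloosterman_isIntegral [CharP F p] {R : Type} [CommRing R] (ψ : AddChar F R) (a : F) :
    IsIntegral ℤ (kloosterman ψ a) := by
  unfold kloosterman
  refine IsIntegral.sum _ fun x _ => ?_
  have hpow := char_pow (p := p) ψ (x + a * (x : F)⁻¹)
  refine ⟨Polynomial.X ^ p - 1, ?_, ?_⟩
  · exact Polynomial.monic_X_pow_sub_C (1 : ℤ) hp.out.ne_zero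
  · simp [hpow]

end chars

/-- The Tate classes on products of Kloosterman curves are generated by those of degree two. -/
theorem kloosterman_tate {F : Type} [Field F] [Fintype F] (hF : ringChar F ≠ 2) {Ω : Type}
    [Field Ω] [IsAlgClosed Ω] [CharZero Ω] (X : FrobSpace Ω) (hX : KloostermanType F X)
    {κ : Type} [Finite κ] (hκ : Even (Nat.card κ)) (f : Coh X κ) :
    IsTate (Fintype.card F) f ↔ GenByDegree (Fintype.card F) 2 X κ f := by
  classical
  obtain ⟨m, hp, hcard⟩ := FiniteField.card F (ringChar F)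
  set p := ringChar F with hpdef
  have : Fact p.Prime := ⟨hp⟩
  let K := CyclotomicField p ℚ
  have : IsCyclotomicExtension {p} ℚ K := CyclotomicField.isCyclotomicExtension p ℚ
  have : NumberField K := IsCyclotomicExtension.numberField {p} ℚ K
  have : IsGalois ℚ K := IsCyclotomicExtension.isGalois {p} ℚ K
  let L := realPart K
  have hL : numPrimes p L ≤ 1 := by
    apply numPrimes_le_one
    exact (IsCyclotomicExtension.Rat.ncard_primesOver_of_prime p K).le
  let S : Set (𝓞 L) := {b | ∃ ψ : AddChar F K, ψ ≠ 1 ∧ ∃ a : F, a ≠ 0 ∧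
    (((b : L) : K)) = - kloosterman ψ a}
  have hS : WeilBound (p ^ (m : ℕ)) S := by
    rintro b ⟨ψ, hψ, a, ha, hb⟩ σ
    obtain ⟨φ, hφ⟩ := exists_extension L σ
    rw [← hφ, hb, map_neg, norm_neg, ← kloosterman_map]
    have h1 := kloosterman_bound hF (mapChar_ne φ.injective hψ) ha
    rw [← hcard]
    calc ‖kloosterman (mapChar φ ψ) a‖ ^ 2 ≤ (2 * Real.sqrt (Fintype.card F)) ^ 2 :=
          pow_le_pow_left₀ (norm_nonneg _) h1 2
      _ = 4 * ((Fintype.card F : ℕ) : ℝ) := by
          rw [mul_pow, Real.sq_sqrt (Nat.cast_nonneg _)]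
          norm_num
  have hE : EqualSlopes p (m : ℕ) S := by
    apply equalSlopes_of_norm
    rintro b ⟨ψ, hψ, a, ha, hb⟩ τ
    obtain ⟨φ, hφ⟩ := exists_extension L τ
    rw [← hφ, hb, map_neg, norm_neg]
    exact norm_kloosterman hF m.pos hcard ψ a φ
  have hX' : TracesIn (p ^ (m : ℕ)) S X := by
    unfold TracesIn
    rw [← hcard]
    refine eq_top_iff.2 (hX.ge.trans (Submodule.span_mono ?_))
    rintro v ⟨α, hα, h | ⟨ψ, hψ, a, ha, h⟩⟩
    · exact ⟨α, hα, Or.inl h⟩
    · let e : K →+* Ω := ((IsAlgClosed.lift : K →ₐ[ℚ] Ω) : K →+* Ω)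
      obtain ⟨ψ', rfl⟩ := exists_char (p := p) e ψ
      have hψ' : ψ' ≠ 1 := by
        rintro rfl
        apply hψ
        ext x
        rw [mapChar_apply, AddChar.one_apply, AddChar.one_apply, map_one]
      have hreal : - kloosterman ψ' a ∈ L := by
        rw [mem_realPart]
        intro φ
        rw [map_neg, star_neg, ← kloosterman_map, kloosterman_star]
      have hint : IsIntegral ℤ (⟨- kloosterman ψ' a, hreal⟩ : L) := by
        have h1 : IsIntegral ℤ (- kloosterman ψ' a) :=
          (kloosterman_isIntegral (p := p) ψ' a).neg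
        exact (isIntegral_algHom_iff (L.val.restrictScalars ℤ) L.val.injective).1 h1
      refine ⟨α, hα, Or.inr ⟨e.comp (L.val : L →+* K), ⟨⟨- kloosterman ψ' a, hreal⟩, hint⟩,
        ⟨ψ', hψ', a, ha, rfl⟩, ?_⟩⟩
      have h1 : (e.comp (L.val : L →+* K)) (⟨- kloosterman ψ' a, hreal⟩ : L) =
          - kloosterman (mapChar e ψ') a := by
        rw [kloosterman_map]
        exact map_neg e _
      change α ^ 2 - (e.comp (L.val : L →+* K)) (⟨- kloosterman ψ' a, hreal⟩ : L) * α +
        ((Fintype.card F : ℕ) : Ω) = 0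
      rw [h1, neg_mul, sub_neg_eq_add]
      exact h
  rw [hcard]
  exact main_equal m.pos hS hE hX' bound_two le_rfl (hL.trans one_le_two) hκ f

end Pool.Agent.P8H27.RF
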