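import Pool.Agent.W495.FM.Eigen
import Pool.Agent.P8H27.RF.Kl

/-!
# Reductions of abelian varieties of CM type with traces in a totally real field
-/

set_option autoImplicit false
set_option linter.unusedSectionVars false
set_option linter.unusedVariables false

namespace Pool.Agent.P8H27.RF

open NumberField Module Pool.Agent.W495.TA Pool.Agent.W495.FM Pool.Agent.W547.KB
open scoped TensorProduct

noncomputable section

variable {p : ℕ} [hp : Fact p.Prime] {ν : PadicAlgCl p ≃+* ℂ}

/-- The traces of Frobenius lie in the totally real field `L`: for a power `s` and a set `S` of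
integers of `L` with equal slopes, each factor of `Y` is supersingular or the trace
`π ^ s + (q / π) ^ s` of the `s`-th power of its Frobenius endomorphism `π` is conjugate to a number
in `S`. -/
def HasTracesIn (L : Type) [Field L] [NumberField L] (Y : RedAV p ν) : Prop :=
  ∃ (s : ℕ) (S : Set (𝓞 L)), 0 < s ∧ EqualSlopes p (Y.a * s) S ∧
    ∀ i : Y.X.I, IsSupersingular Y i ∨
      ∃ b ∈ S, minpoly ℚ (Y.π i ^ s + (((p : (Y.X.factor i).E) ^ Y.a) / Y.π i) ^ s) =
        minpoly ℚ (b : L)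

/-- Eigenvectors. -/
theorem span_eigen (Ω : Type) [Field Ω] [IsAlgClosed Ω] [CharZero Ω] (Y : RedAV p ν) :
    Submodule.span Ω {v : TM Ω Y | ∃ (i : Y.X.I) (σ : (Y.X.factor i).E →+* Ω),
      F Ω Y v = σ (Y.π i) • v} = ⊤ := by
  classical
  rcases isEmpty_or_nonempty Y.X.I with hI | hI
  · have h0 : Subsingleton Y.X.H1 := ⟨fun a b => funext fun i => (hI.false i).elim⟩
    have h1 : ∀ c : TM Ω Y, c = 0 := by
      intro c
      induction c using TensorProduct.induction_on with
      | zero => rfl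
      | tmul x y => rw [Subsingleton.elim y 0, TensorProduct.tmul_zero]
      | add x y hx hy => rw [hx, hy, add_zero]
    rw [eq_top_iff]
    intro c _
    rw [h1 c]
    exact Submodule.zero_mem _
  obtain ⟨L, _, _, _, _, j, hj⟩ := exists_cm Y.X
  have hYj : Big Y.X j := hj
  let jO : L →+* Ω := ((IsAlgClosed.lift : L →ₐ[ℚ] Ω) : L →+* Ω)
  obtain ⟨e, h1, h2⟩ := Pool.Agent.W67.TA.basis p ν Ω L j jO Y hYj
  have := Pool.Agent.W495.TB.finite_wt j hYj
  rw [eq_top_iff, ← e.span_eq]
  refine Submodule.span_mono ?_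
  rintro _ ⟨w, rfl⟩
  exact ⟨w.1, jO.comp w.2, F_e jO e h1 h2 w⟩

/-- The Frobenius space of `Y` over the extension of degree `s` of the ground field. -/
def frobSpace (Ω : Type) [Field Ω] [CharZero Ω] (Y : RedAV p ν) (s : ℕ) :
    Pool.Agent.W527.TateRing.FrobSpace Ω where
  V := TM Ω Y
  F := F Ω Y ^ s

theorem pow_eigen {Ω : Type} [Field Ω] {V : Type} [AddCommGroup V] [Module Ω V] {G : V →ₗ[Ω] V}
    {c : Ω} {v : V} (h : G v = c • v) (s : ℕ) : (G ^ s) v = c ^ s • v := by
  induction s with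
  | zero => simp
  | succ s ih => rw [pow_succ', Module.End.mul_apply, ih, map_smul, h, smul_smul, pow_succ]

/-- From the ring generated by classes of degree two to algebraic classes. -/
theorem alg_of_gen {Ω : Type} [Field Ω] [CharZero Ω] {Y : RedAV p ν} {s : ℕ} (hs : 0 < s)
    {κ : Type} {f : Pool.Agent.W527.TateRing.Coh (frobSpace Ω Y s) κ}
    (h : GenByDegree (p ^ (Y.a * s)) 2 (frobSpace Ω Y s) κ f) : Alg Ω Y κ f := by
  induction h with
  | @small κ _ hκ hd f hf =>
    obtain ⟨r, hr⟩ := hκ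
    rcases Nat.eq_zero_or_pos r with h0 | h0
    · have h1 : Nat.card κ = 0 := by omega
      have h2 : IsEmpty κ := by
        rcases Nat.card_eq_zero.1 h1 with h | h
        · exact h
        · exact absurd ‹Finite κ› (not_finite_iff_infinite.2 h)
      exact Alg.unit f
    · have h1 : Nat.card κ = 2 := by omega
      obtain ⟨t, ht, hf⟩ := hf
      refine Alg.divisor h1 f (s * (2 * t)) (by positivity) fun v => ?_
      have h2 := hf v
      rw [h1] at h2
      change f (fun k => ((F Ω Y ^ s) ^ (2 * t)) (v k)) = _ at h2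
      rw [← pow_mul] at h2
      refine h2.trans (congrArg (fun x : Ω => x * f v) ?_)
      push_cast
      ring
  | zero κ => exact Alg.zero Y κ
  | add f g _ _ ihf ihg => exact Alg.add f g ihf ihg
  | smul a f _ ih => exact Alg.smul a f ih
  | reindex e f _ ih => exact Alg.reindex e f ih
  | cup f g _ _ h hh ihf ihg => exact Alg.cup f g ihf ihg h hh

/-- The traces. -/
theorem tracesIn_of {L : Type} [Field L] [NumberField L] {Ω : Type} [Field Ω] [IsAlgClosed Ω]
    [CharZero Ω] {Y : RedAV p ν} {s : ℕ} (hs : 0 < s) {S : Set (𝓞 L)}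
    (h : ∀ i : Y.X.I, IsSupersingular Y i ∨
      ∃ b ∈ S, minpoly ℚ (Y.π i ^ s + (((p : (Y.X.factor i).E) ^ Y.a) / Y.π i) ^ s) =
        minpoly ℚ (b : L)) :
    TracesIn (p ^ (Y.a * s)) S (frobSpace Ω Y s) := by
  have hsp := span_eigen Ω Y
  refine eq_top_iff.2 (le_trans (le_of_eq hsp.symm) (Submodule.span_mono ?_))
  rintro v ⟨i, σ, hv⟩
  have hπ0 : Y.π i ≠ 0 := by
    intro h0
    obtain ⟨e⟩ := (inferInstance : Nonempty ((Y.X.factor i).E →+* ℂ))
    have h1 := (Y.frob i).weil e
    rw [h0, map_zero, norm_zero] at h1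
    have h2 : (0 : ℝ) < (p : ℝ) ^ Y.a := pow_pos (by exact_mod_cast hp.out.pos) _
    rw [← h1] at h2
    norm_num at h2
  refine ⟨σ (Y.π i) ^ s, pow_eigen hv s, ?_⟩
  rcases h i with ⟨r, hr, hss⟩ | ⟨b, hb, hmin⟩
  · refine Or.inl ⟨r, hr, ?_⟩
    have h1 := congrArg σ hss
    rw [map_pow, map_pow, map_pow, map_natCast] at h1
    rw [← pow_mul, mul_comm s, pow_mul, h1]
    push_cast
    ring
  · refine Or.inr ?_
    set t := Y.π i ^ s + (((p : (Y.X.factor i).E) ^ Y.a) / Y.π i) ^ s with ht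
    have hbi : IsIntegral ℚ (b : L) := Algebra.IsIntegral.isIntegral _
    have h1 : Polynomial.aeval (σ t) (minpoly ℚ (b : L)) = 0 := by
      rw [← hmin]
      have h2 := congrArg σ (minpoly.aeval ℚ t)
      rw [map_zero] at h2
      rw [← h2]
      exact (Polynomial.aeval_algHom_apply (σ.toRatAlgHom) t (minpoly ℚ t))
    obtain ⟨φ, hφ⟩ := IntermediateField.exists_algHom_of_splits_of_aeval (F := ℚ) (E := L) (K := Ω)
      (fun x : L => ⟨Algebra.IsIntegral.isIntegral x, IsAlgClosed.splits _⟩) h1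
    refine ⟨(φ : L →+* Ω), b, hb, ?_⟩
    change (σ (Y.π i) ^ s) ^ 2 - φ (b : L) * σ (Y.π i) ^ s + ((p ^ (Y.a * s) : ℕ) : Ω) = 0
    rw [hφ, ht, map_add, map_pow, map_pow, map_div₀, map_pow, map_natCast]
    have h3 : σ (Y.π i) ^ s ≠ 0 := pow_ne_zero _ ((map_ne_zero σ).2 hπ0)
    push_cast
    rw [div_pow, ← pow_mul, add_mul, div_mul_cancel₀ _ h3]
    ring

end

end Pool.Agent.P8H27.RF
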