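import Pool.Agent.P8H27.RF.RedT
import Pool.Agent.W495.FM.Hom
import Pool.Agent.W495.FM.DimMain

/-!
# The conjecture of Tate and Beilinson for schemes generated by abelian varieties with traces in a
# totally real field
-/

set_option autoImplicit false
set_option linter.unusedSectionVars false
set_option linter.unusedVariables false

namespace Pool.Agent.P8H27.RF

open NumberField Module Pool.Agent.W495.TA Pool.Agent.W495.FM Pool.Agent.W547.KB
open scoped TensorProduct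

noncomputable section

variable {p : ℕ} [hp : Fact p.Prime] {ν : PadicAlgCl p ≃+* ℂ}

/-- The conjugates of a trace of Frobenius are small. -/
theorem trace_bound {L : Type} [Field L] [NumberField L] {Y : RedAV p ν} {s : ℕ} {i : Y.X.I}
    {b : 𝓞 L} (h : minpoly ℚ (Y.π i ^ s + (((p : (Y.X.factor i).E) ^ Y.a) / Y.π i) ^ s) =
      minpoly ℚ (b : L)) (σ : L →+* ℂ) : ‖σ b‖ ^ 2 ≤ 4 * ((p ^ (Y.a * s) : ℕ) : ℝ) := by
  set t := Y.π i ^ s + (((p : (Y.X.factor i).E) ^ Y.a) / Y.π i) ^ s with ht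
  have h1 : Polynomial.aeval (σ b) (minpoly ℚ t) = 0 := by
    rw [h]
    have h2 := congrArg σ (minpoly.aeval ℚ (b : L))
    rw [map_zero] at h2
    rw [← h2]
    exact (Polynomial.aeval_algHom_apply (σ.toRatAlgHom) (b : L) (minpoly ℚ (b : L)))
  obtain ⟨φ, hφ⟩ := IntermediateField.exists_algHom_of_splits_of_aeval (F := ℚ)
    (E := (Y.X.factor i).E) (K := ℂ)
    (fun x => ⟨Algebra.IsIntegral.isIntegral x, IsAlgClosed.splits _⟩) h1
  have hw := (Y.frob i).weil (φ : (Y.X.factor i).E →+* ℂ)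
  have hw' : ‖φ (Y.π i)‖ ^ 2 = (p : ℝ) ^ Y.a := hw
  have hq0 : (0 : ℝ) < (p : ℝ) ^ Y.a := pow_pos (by exact_mod_cast hp.out.pos) _
  have hn : ‖φ (Y.π i)‖ = √((p : ℝ) ^ Y.a) := by
    rw [← hw', Real.sqrt_sq (norm_nonneg _)]
  have hs0 : 0 < √((p : ℝ) ^ Y.a) := Real.sqrt_pos.2 hq0
  have hn' : ‖((p : ℂ) ^ Y.a) / φ (Y.π i)‖ = √((p : ℝ) ^ Y.a) := by
    rw [norm_div, hn, norm_pow, Complex.norm_natCast, div_eq_iff hs0.ne', Real.mul_self_sqrt hq0.le]
  have hle : ‖σ b‖ ≤ 2 * √((p : ℝ) ^ Y.a) ^ s := by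
    rw [← hφ, ht, map_add, map_pow, map_pow, map_div₀, map_pow, map_natCast]
    refine (norm_add_le _ _).trans ?_
    rw [norm_pow, norm_pow, hn, hn']
    linarith
  calc ‖σ b‖ ^ 2 ≤ (2 * √((p : ℝ) ^ Y.a) ^ s) ^ 2 := by
        exact pow_le_pow_left₀ (norm_nonneg _) hle 2
    _ = 4 * ((√((p : ℝ) ^ Y.a)) ^ 2) ^ s := by ring
    _ = 4 * ((p ^ (Y.a * s) : ℕ) : ℝ) := by
        rw [Real.sq_sqrt hq0.le]
        push_cast
        ring

/-- The Tate classes are generated by Tate classes of degree two. -/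
theorem tate_alg {L : Type} [Field L] [NumberField L] [IsTotallyReal L] [IsGalois ℚ L]
    (hL : numPrimes p L ≤ 2) {Ω : Type} [Field Ω] [IsAlgClosed Ω] [CharZero Ω] {Y : RedAV p ν}
    (hY : HasTracesIn L Y) (r j : ℕ) (hr : 0 < r) (f : (TM Ω Y) [⋀^Fin (2 * j)]→ₗ[Ω] Ω)
    (hf : IsTateClass Ω Y r j f) : Alg Ω Y (Fin (2 * j)) f := by
  obtain ⟨s, S, hs, hE, htr⟩ := hY
  let S' : Set (𝓞 L) := {b | b ∈ S ∧ ∃ i : Y.X.I,
    minpoly ℚ (Y.π i ^ s + (((p : (Y.X.factor i).E) ^ Y.a) / Y.π i) ^ s) = minpoly ℚ (b : L)}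
  have hE' : EqualSlopes p (Y.a * s) S' := fun b hb b' hb' => hE b hb.1 b' hb'.1
  have hS : WeilBound (p ^ (Y.a * s)) S' := by
    rintro b ⟨_, i, hi⟩ σ
    exact trace_bound hi σ
  have hX : TracesIn (p ^ (Y.a * s)) S' (frobSpace Ω Y s) := by
    refine tracesIn_of hs fun i => ?_
    rcases htr i with h | ⟨b, hb, hmin⟩
    · exact Or.inl h
    · exact Or.inr ⟨b, ⟨hb, i, hmin⟩, hmin⟩
  have hm : 0 < Y.a * s := Nat.mul_pos Y.pos hs
  have hT : Pool.Agent.W527.TateRing.IsTate (p ^ (Y.a * s)) (X := frobSpace Ω Y s)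
      (κ := Fin (2 * j)) f := by
    refine ⟨r, hr, fun v => ?_⟩
    rw [Nat.card_eq_fintype_card, Fintype.card_fin]
    change f (fun k => ((F Ω Y ^ s) ^ (2 * r)) (v k)) = _
    have h2 : ∀ n : ℕ, ∀ w : Fin (2 * j) → TM Ω Y, f (fun k => ((F Ω Y ^ r) ^ n) (w k)) =
        (((p : Ω) ^ Y.a) ^ (j * r)) ^ n * f w := by
      intro n
      induction n with
      | zero => intro w; simp
      | succ n ih =>
        intro w
        have h3 : ∀ k, ((F Ω Y ^ r) ^ (n + 1)) (w k) = ((F Ω Y ^ r) ^ n) ((F Ω Y ^ r) (w k)) := by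
          intro k
          rw [pow_succ, Module.End.mul_apply]
        rw [funext h3]
        refine (ih fun k => (F Ω Y ^ r) (w k)).trans ?_
        rw [hf w]
        ring
    have h4 : ∀ k, ((F Ω Y ^ s) ^ (2 * r)) (v k) = ((F Ω Y ^ r) ^ (s * 2)) (v k) := by
      intro k
      rw [← pow_mul, ← pow_mul]
      congr 2
      ring
    rw [funext h4]
    refine (h2 (s * 2) v).trans (congrArg (fun x : Ω => x * f v) ?_)
    push_cast
    ring
  have h5 := (main_equal (L := L) hm hS hE' hX bound_two le_rfl hL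
    (κ := Fin (2 * j)) ⟨j, by rw [Nat.card_eq_fintype_card, Fintype.card_fin]; ring⟩ f).1 hT
  exact alg_of_gen hs h5

/-- The groups of motivic and of `ℓ`-adic homology of `X` are those of an abelian variety `Y` over a
finite field the traces of whose Frobenius lie in `L`. -/
def IsTracesAbelian {Ω V : Type} [Field Ω] [CharZero Ω] (p : ℕ) [Fact p.Prime]
    (ν : PadicAlgCl p ≃+* ℂ) (L : Type) [Field L] [NumberField L] (T : Homology Ω V) (X : V) :
    Prop :=
  ∃ (Y : RedAV p ν) (C : Cycles Ω Y) (M : Motivic C) (g : ℕ), HasTracesIn L Y ∧ IsChow C ∧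
    IsMotivic M ∧ IsAbelian T X M g

variable {Ω : Type} [Field Ω] [IsAlgClosed Ω] [CharZero Ω] {L : Type} [Field L] [NumberField L]
  [IsTotallyReal L] [IsGalois ℚ L]

theorem tateHolds_traces (hL : numPrimes p L ≤ 2) {Y : RedAV p ν} {C : Cycles Ω Y}
    (hY : HasTracesIn L Y) (hC : IsChow C) : TateHolds C :=
  fun j f hf => hC.algebraic j f (tate_alg hL hY 1 j one_pos f hf) hf

variable {V : Type} {T : Homology Ω V}

theorem tb_traces (hL : numPrimes p L ≤ 2) (hT : IsHomology T) {X : V}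
    (hX : Generated T (IsTracesAbelian p ν L T) X) : TB T X := by
  refine tb_generated hT (fun X hX => ?_) hX
  obtain ⟨Y, C, M, g, hY, hC, hM, hX⟩ := hX
  exact tb_abelian hT hC (tateHolds_traces hL hY hC) hM hX

theorem isoAbove_traces (hL : numPrimes p L ≤ 2) (hT : IsHomology T) (hW : HasWeights T) :
    IsoAbove T (IsTracesAbelian p ν L T) := fun _ _ _ _ h hX hZ i hi =>
  iso_opened hT hW h (onto_of_dim hT hZ hi) ((tb_traces hL hT hX).iso hT i)

end

end Pool.Agent.P8H27.RF
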