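import Pool.Agent.P8H27.RF.Defs

/-!
# Eigenvalues which are separated from the abelian varieties with traces in a totally real field
-/

set_option autoImplicit false

namespace Pool.Agent.P8H27.RF

open NumberField Pool.Agent.W527.TateRing

/-- The `p`-adic valuation, normalized such that the valuation of `p ^ m` is one. -/
noncomputable def val (p m : ℕ) [Fact p.Prime] (z : PadicAlgCl p) : ℝ :=
  - Real.logb ((p : ℝ) ^ m) ‖z‖

open Classical in
/-- The `p`-adic conjugates of the algebraic number `β`: the roots of its minimal polynomial over `ℚ`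
in an algebraic closure of `ℚ_p`. Their valuations are the slopes of `β`. -/
noncomputable def padicConj (p : ℕ) [Fact p.Prime] {Ω : Type} [Field Ω] [CharZero Ω] (β : Ω) :
    Finset (PadicAlgCl p) :=
  ((minpoly ℚ β).aroots (PadicAlgCl p)).toFinset

/-- The number `β` is separated from the ordinary Weil `q`-numbers, `q = p ^ m`, with traces in `S`, for
the weight `w`: one of the following conditions holds, where `s` and `s'` run through the slopes of
`β`, that is, through the valuations of the `p`-adic conjugates:

* all slopes are equal to `w / 2`;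
* the difference of two slopes is not an integer, or two times a slope is not an integer;
* `L` has at most two primes above `p`, and some number `|2 s - w|` is greater than the mean value of
  the numbers `(2 s' - w) ^ 2`, where `s'` runs through the slopes of all conjugates;
* for some `n > 0` the roots of `T ^ 2 - φ(b) T + q` do not belong to the field generated by `β ^ n` and
  by the images of `L`, that is, the discriminant `φ(b) ^ 2 - 4 q` has no square root in this field,
  for all `b ∈ S` and all embeddings `φ` of `L`. -/
def Separated (p m : ℕ) [Fact p.Prime] {L : Type} [Field L] [NumberField L] (S : Set (𝓞 L)) {Ω : Type}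
    [Field Ω] [CharZero Ω] (w : ℤ) (β : Ω) : Prop :=
  (∀ z ∈ padicConj p β, 2 * val p m z = w) ∨
  (∃ z ∈ padicConj p β, ∃ z' ∈ padicConj p β, ∀ n : ℤ, val p m z - val p m z' ≠ n) ∨
  (∃ z ∈ padicConj p β, ∀ n : ℤ, 2 * val p m z ≠ n) ∨
  (numPrimes p L ≤ 2 ∧ ∃ z ∈ padicConj p β,
    ∑ z' ∈ padicConj p β, (2 * val p m z' - w) ^ 2 <
      |2 * val p m z - w| * (padicConj p β).card) ∨
  ∃ n : ℕ, 0 < n ∧ ∀ (φ : L →+* Ω), ∀ b ∈ S,
    ∀ x ∈ IntermediateField.adjoin ℚ (insert (β ^ n) {y : Ω | ∃ ψ : L →+* Ω, y ∈ Set.range ψ}),
      x ^ 2 ≠ φ b ^ 2 - 4 * (p : Ω) ^ m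

end Pool.Agent.P8H27.RF
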