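import Mathlib

/-!
# Families of sign functions on a group
-/

set_option autoImplicit false

namespace Pool.Agent.P8H27.RF

variable {G : Type} [Group G] [Fintype G]

/-- A function on the group which depends only on one of two classes and has a positive value has a
nonnegative sum, if it has constant absolute value. -/
theorem sum_nonneg_of_classes {X : Type} (P : G → X)
    (hmul : ∀ g g' h, P g = P g' → P (g * h) = P (g' * h))
    (htwo : ∀ g₀ g₁ g₂, P g₀ = P g₁ ∨ P g₁ = P g₂ ∨ P g₀ = P g₂) (f : G → ℝ) {C : ℝ}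
    (hC : ∀ g, |f g| = C) (hf : ∀ g g', P g = P g' → f g = f g') {g₀ : G} (hg₀ : 0 < f g₀) :
    0 ≤ ∑ g, f g := by
  by_cases hneg : ∃ g, f g < 0
  · obtain ⟨g₁, hg₁⟩ := hneg
    have h1 : ∀ g, 0 ≤ f g + f (g * (g₁⁻¹ * g₀)) := by
      intro g
      rcases lt_or_ge (f g) 0 with h2 | h2
      · have h3 : P g₁ ≠ P g₀ := fun h => by
          have := hf _ _ h
          linarith
        have h4 : P g ≠ P g₀ := fun h => by
          have := hf _ _ h
          linarith
        have h5 : P g = P g₁ := by
          rcases htwo g g₁ g₀ with h | h | h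
          · exact h
          · exact absurd h h3
          · exact absurd h h4
        have h6 : P (g * (g₁⁻¹ * g₀)) = P g₀ := by
          rw [hmul _ _ _ h5, mul_inv_cancel_left]
        have h7 := hf _ _ h6
        have h8 := hC g
        have h9 := hC g₀
        rw [abs_of_neg h2] at h8
        rw [abs_of_pos hg₀] at h9
        rw [h7]
        linarith
      · have h3 := neg_abs_le (f (g * (g₁⁻¹ * g₀)))
        rw [hC, ← hC g, abs_of_nonneg h2] at h3
        linarith
    have h2 : ∑ g, f (g * (g₁⁻¹ * g₀)) = ∑ g, f g :=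
      Equiv.sum_comp (Equiv.mulRight (g₁⁻¹ * g₀)) f
    have h3 : 0 ≤ ∑ g, (f g + f (g * (g₁⁻¹ * g₀))) := Finset.sum_nonneg fun g _ => h1 g
    rw [Finset.sum_add_distrib, h2] at h3
    linarith
  · push Not at hneg
    exact Finset.sum_nonneg fun g _ => hneg g

/-- Families of functions with constant absolute value and nonnegative scalar products, up to
opposite functions. -/
theorem mean_bound {K : Type} (v : K → G → ℝ) {C : ℝ} (hC : 0 < C)
    (hv : ∀ k g, |v k g| = C)
    (hpos : ∀ k l, (∃ g, v l g ≠ - v k g) → 0 ≤ ∑ g, v k g * v l g) (n : ℕ) :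
    ∀ T : Finset K, T.card = n → ∀ g₀, |∑ k ∈ T, v k g₀| * C * Fintype.card G ≤
      ∑ g, (∑ k ∈ T, v k g) ^ 2 := by
  classical
  induction n using Nat.strong_induction_on with
  | _ n ih =>
  intro T hT g₀
  by_cases hop : ∃ k ∈ T, ∃ l ∈ T, ∀ g, v l g = - v k g
  · obtain ⟨k, hk, l, hl, hkl⟩ := hop
    have hne : k ≠ l := by
      rintro rfl
      have h1 := hkl 1
      have h2 := hv k 1
      have h3 : v k 1 = 0 := by linarith
      rw [h3, abs_zero] at h2
      linarith
    have hl' : l ∈ T.erase k := Finset.mem_erase.2 ⟨hne.symm, hl⟩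
    have hsum : ∀ g, ∑ i ∈ T, v i g = ∑ i ∈ (T.erase k).erase l, v i g := by
      intro g
      rw [← Finset.add_sum_erase T _ hk, ← Finset.add_sum_erase (T.erase k) _ hl', hkl g]
      ring
    have hcard : ((T.erase k).erase l).card < n := by
      rw [Finset.card_erase_of_mem hl', Finset.card_erase_of_mem hk, hT]
      have : 0 < T.card := Finset.card_pos.2 ⟨k, hk⟩
      omega
    have h1 := ih _ hcard ((T.erase k).erase l) rfl g₀
    rw [hsum g₀]
    refine h1.trans_eq (Finset.sum_congr rfl fun g _ => ?_)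
    rw [hsum g]
  · push Not at hop
    have h1 : |∑ k ∈ T, v k g₀| ≤ T.card * C := by
      refine (Finset.abs_sum_le_sum_abs _ _).trans_eq ?_
      rw [Finset.sum_congr rfl fun k _ => hv k g₀, Finset.sum_const, nsmul_eq_mul]
    have h2 : ∑ g, (∑ k ∈ T, v k g) ^ 2 = ∑ k ∈ T, ∑ l ∈ T, ∑ g, v k g * v l g := by
      have e1 : ∀ g, (∑ k ∈ T, v k g) ^ 2 = ∑ k ∈ T, ∑ l ∈ T, v k g * v l g := by
        intro g
        rw [sq, Finset.sum_mul_sum]
      rw [Finset.sum_congr rfl fun g _ => e1 g, Finset.sum_comm]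
      refine Finset.sum_congr rfl fun k _ => ?_
      rw [Finset.sum_comm]
    have h3 : ∀ k ∈ T, C ^ 2 * Fintype.card G ≤ ∑ l ∈ T, ∑ g, v k g * v l g := by
      intro k hk
      have h4 : ∑ g, v k g * v k g = C ^ 2 * Fintype.card G := by
        have e1 : ∀ g, v k g * v k g = C ^ 2 := by
          intro g
          rw [← hv k g, sq_abs, sq]
        rw [Finset.sum_congr rfl fun g _ => e1 g, Finset.sum_const, Finset.card_univ,
          nsmul_eq_mul]
        ring
      rw [← h4]
      exact Finset.single_le_sum (f := fun l => ∑ g, v k g * v l g)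
        (fun l hl => hpos k l (hop k hk l hl)) hk
    have h4 := Finset.sum_le_sum h3
    rw [← h2, Finset.sum_const, nsmul_eq_mul] at h4
    refine le_trans ?_ h4
    have h5 : (0 : ℝ) ≤ C * Fintype.card G := mul_nonneg hC.le (Nat.cast_nonneg _)
    calc |∑ k ∈ T, v k g₀| * C * Fintype.card G = |∑ k ∈ T, v k g₀| * (C * Fintype.card G) := by ring
      _ ≤ (T.card * C) * (C * Fintype.card G) := mul_le_mul_of_nonneg_right h1 h5
      _ = T.card * (C ^ 2 * Fintype.card G) := by ring

end Pool.Agent.P8H27.RF
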