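import Pool.Agent.P8H27.RF.SepDefs
import Pool.Agent.P8H27.RF.Kl

/-!
# Relations between ordinary Weil numbers with traces in a totally real field and another number
-/

set_option autoImplicit false
set_option linter.unusedSectionVars false
set_option linter.unusedVariables false

namespace Pool.Agent.P8H27.RF

open NumberField Module Pool.Agent.H485R3 Pool.Agent.H925R2 Pool.Agent.W527.TateRing

noncomputable section

section wtb

variable {p m : ℕ} [hp : Fact p.Prime] {E : Type} [Field E] [NumberField E] [IsGalois ℚ E]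

/-- The weight of a number `r`, considered as a Weil number of weight `w`. -/
def wtb (jp : E →+* PadicAlgCl p) (m : ℕ) (w : ℤ) (g : E ≃ₐ[ℚ] E) (r : E) : ℝ :=
  - (2 * Real.log ‖jp (g r)‖ + w * (m * Real.log p))

/-- Multiplicative relations. -/
theorem sum_of_rel2 (jp : E →+* PadicAlgCl p) {K : Type} [Fintype K] {a : K → E}
    (ha : ∀ k, a k ≠ 0) {r : E} (hr : r ≠ 0) {w : ℤ} {s : ℕ} (hs : 0 < s)
    (hrel : (∏ k, a k) ^ (2 * s) * r ^ (2 * s) =
      ((p ^ m : ℕ) : E) ^ ((s : ℤ) * (Fintype.card K + w))) (g : E ≃ₐ[ℚ] E) :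
    ∑ k, wt jp m g (a k) + wtb jp m w g r = 0 := by
  have h1 := log_prod (m := m) jp ha g
  have hP0 : ∏ k, a k ≠ 0 := Finset.prod_ne_zero_iff.2 fun k _ => ha k
  have h2 := congrArg (fun x => Real.log ‖jp (g x)‖) hrel
  simp only [map_mul, map_pow, norm_mul, norm_pow, map_zpow₀, norm_zpow, map_natCast] at h2
  rw [Real.log_mul (pow_ne_zero _ (norm_pos' jp hP0 g).ne')
    (pow_ne_zero _ (norm_pos' jp hr g).ne'), Real.log_pow, Real.log_pow, Real.log_zpow,
    log_norm_q] at h2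
  have hs' : (s : ℝ) ≠ 0 := by exact_mod_cast hs.ne'
  push_cast at h2
  have h4 : (s : ℝ) * ((2 * Real.log ‖jp (g (∏ k, a k))‖ +
      Fintype.card K * (m * Real.log p)) + (2 * Real.log ‖jp (g r)‖ + w * (m * Real.log p))) = 0 := by
    linear_combination h2
  have h5 := (mul_eq_zero.1 h4).resolve_left hs'
  rw [h1] at h5
  unfold wtb
  linarith

end wtb

section data

variable {p m : ℕ} [hp : Fact p.Prime] {L : Type} [Field L] [NumberField L] [IsTotallyReal L]
  [IsGalois ℚ L] {Ω : Type} [Field Ω] [CharZero Ω] [IsAlgClosed Ω]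

/-- The numbers of a family and the number `β` as elements of a Galois number field. -/
structure Data2 (p m : ℕ) [Fact p.Prime] (L : Type) [Field L] [NumberField L] {Ω : Type} [Field Ω]
    (S : Set (𝓞 L)) {K : Type} [Fintype K] (c : K → Ω) (β : Ω) (w : ℤ) where
  E : Type
  [fld : Field E]
  [nf : NumberField E]
  [gal : IsGalois ℚ E]
  [alg : Algebra L E]
  [tow : IsScalarTower ℚ L E]
  [galL : IsGalois L E]
  j : E →+* Ω
  jp : E →+* PadicAlgCl p
  a : K → E
  σ : K → (L ≃ₐ[ℚ] L)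
  b : K → 𝓞 L
  mem : ∀ k, b k ∈ S
  ja : ∀ k, j (a k) = c k
  tr : ∀ k, a k + ((p ^ m : ℕ) : E) / a k = algebraMap L E (σ k (b k : L))
  weil : ∀ k, IsWeil (p ^ m) (a k)
  ne : ∀ k, a k ≠ ((p ^ m : ℕ) : E) / a k
  r : E
  jr : j r = β
  sum : ∀ g, ∑ k, wt jp m g (a k) + wtb jp m w g r = 0

attribute [instance] Data2.fld Data2.nf Data2.gal Data2.alg Data2.tow Data2.galL

theorem root_integral {L : Type} [Field L] [NumberField L] {Ω : Type} [Field Ω] [CharZero Ω]
    {q : ℕ} {φ : L →+* Ω} {b : 𝓞 L} {c : Ω}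
    (h : c ^ 2 - φ b * c + (q : Ω) = 0) : IsIntegral ℤ c := by
  have hβ : IsIntegral ℤ (φ (b : L)) := b.isIntegral_coe.map φ.toIntAlgHom
  let R := integralClosure ℤ Ω
  let βR : R := ⟨φ (b : L), hβ⟩
  have h2 : IsIntegral R c := by
    refine ⟨Polynomial.X ^ 2 - Polynomial.C βR * Polynomial.X +
      Polynomial.C (q : R), ?_, ?_⟩
    · monicity!
    · simp only [Polynomial.eval₂_add, Polynomial.eval₂_sub, Polynomial.eval₂_mul,
        Polynomial.eval₂_pow, Polynomial.eval₂_X, Polynomial.eval₂_C]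
      rw [map_natCast]
      exact h
  exact isIntegral_trans c h2

theorem exists_data2 {S : Set (𝓞 L)} (hS : WeilBound (p ^ m) S) {K : Type} [Fintype K]
    [Nonempty K] {c : K → Ω} (hss : ∀ k, ¬ SS (p ^ m) (c k))
    (hc : ∀ k, ∃ φ : L →+* Ω, ∃ b ∈ S, c k ^ 2 - φ b * c k + ((p ^ m : ℕ) : Ω) = 0) {β : Ω}
    (hβ : β ≠ 0) {w : ℤ} {s : ℕ} (hs : 0 < s) (hrel : (∏ k, c k) ^ (2 * s) * β ^ (2 * s) =
      ((p ^ m : ℕ) : Ω) ^ ((s : ℤ) * (Fintype.card K + w))) :
    Nonempty (Data2 p m L S c β w) := by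
  classical
  choose φ b hb hroot using hc
  obtain ⟨k₀⟩ := (inferInstance : Nonempty K)
  have hq0 : ((p ^ m : ℕ) : Ω) ≠ 0 := q_ne Ω
  have hc0 : ∀ k, c k ≠ 0 := by
    intro k h0
    have h1 := hroot k
    rw [h0] at h1
    apply hq0
    linear_combination h1
  have hint : ∀ k, IsIntegral ℚ (c k) := fun k => (root_integral (hroot k)).tower_top
  have hP0 : ∏ k, c k ≠ 0 := Finset.prod_ne_zero_iff.2 fun k _ => hc0 k
  have hβi : IsIntegral ℚ β := by
    have h1 : β ^ (2 * s) = ((p ^ m : ℕ) : Ω) ^ ((s : ℤ) * (Fintype.card K + w)) *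
        ((∏ k, c k) ^ (2 * s))⁻¹ := by
      rw [← hrel, mul_comm ((∏ k, c k) ^ (2 * s)), mul_assoc, mul_inv_cancel₀ (pow_ne_zero _ hP0),
        mul_one]
    have h2 : IsIntegral ℚ (β ^ (2 * s)) := by
      rw [h1]
      have h3 : IsIntegral ℚ (((p ^ m : ℕ) : Ω) ^ ((s : ℤ) * (Fintype.card K + w))) := by
        have h4 : ((p ^ m : ℕ) : Ω) ^ ((s : ℤ) * (Fintype.card K + w)) =
            algebraMap ℚ Ω (((p ^ m : ℕ) : ℚ) ^ ((s : ℤ) * (Fintype.card K + w))) := by
          rw [map_zpow₀, map_natCast]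
        rw [h4]
        exact isIntegral_algebraMap
      have h5 : IsIntegral ℚ ((∏ k, c k) ^ (2 * s)) := (IsIntegral.prod _ fun k _ => hint k).pow _
      exact h3.mul h5.inv
    exact IsIntegral.of_pow (by omega) h2
  let φ₀ := φ k₀
  obtain ⟨E, _, _, _, _, _, _, jΩ, a', ha', hjL⟩ := exists_field φ₀
    (K := Option K) (fun o => o.elim β c) (by
      rintro (_ | k)
      · exact hβi
      · exact hint k)
  let a : K → E := fun k => a' (some k)
  let r : E := a' none
  have ha : ∀ k, jΩ (a k) = c k := fun k => ha' (some k)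
  have hr : jΩ r = β := ha' none
  have hσ : ∀ k, ∃ σ : L ≃ₐ[ℚ] L, ∀ x, φ k x = φ₀ (σ x) := by
    intro k
    exact Pool.Agent.H485R3.exists_gal (φ₀.toRatAlgHom) ((φ k).toRatAlgHom)
  choose σ hσ using hσ
  have ha0 : ∀ k, a k ≠ 0 := by
    intro k h0
    apply hc0 k
    rw [← ha k, h0, map_zero]
  have htr : ∀ k, a k + ((p ^ m : ℕ) : E) / a k = algebraMap L E (σ k (b k : L)) := by
    intro k
    apply jΩ.injective
    rw [map_add, map_div₀, map_natCast, hjL, ← hσ, ha]
    have h1 := hroot k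
    have h2 := hc0 k
    field_simp
    linear_combination h1
  have hweil : ∀ k, IsWeil (p ^ m) (a k) := by
    intro k
    refine isWeil_of_trace ?_ ?_ (ha0 k) (htr k)
    · exact (b k).isIntegral_coe.map ((σ k : L →+* L)).toIntAlgHom
    · intro e
      exact hS (b k) (hb k) (e.comp (σ k : L →+* L))
  have hssE : ∀ k (s : ℕ), 0 < s → a k ^ (2 * s) ≠ ((p ^ m : ℕ) : E) ^ s := by
    intro k s hs h1
    apply hss k
    refine ⟨s, hs, ?_⟩
    have h2 := congrArg jΩ h1
    rw [map_pow, map_pow, ha, map_natCast] at h2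
    exact h2
  let jp : E →+* PadicAlgCl p := ((IsAlgClosed.lift : E →ₐ[ℚ] PadicAlgCl p) : E →+* PadicAlgCl p)
  refine ⟨⟨E, jΩ, jp, a, σ, b, hb, ha, htr, hweil, fun k hk => ?_, r, hr, fun g => ?_⟩⟩
  · apply hssE k 1 one_pos
    have h1 : a k * a k = ((p ^ m : ℕ) : E) := by
      nth_rewrite 2 [hk]
      exact mul_div_cancel₀ _ (ha0 k)
    rw [mul_one, pow_one, sq, h1]
  · refine sum_of_rel2 jp ha0 ?_ hs ?_ g
    · intro h0
      apply hβ
      rw [← hr, h0, map_zero]
    · apply jΩ.injective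
      rw [map_mul, map_pow, map_prod, map_pow, map_zpow₀, map_natCast, hr, ← hrel]
      congr 2
      exact Finset.prod_congr rfl fun k _ => ha k

end data

end

end Pool.Agent.P8H27.RF
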