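import Pool.Agent.P8H27.RF.SepMain

/-!
# Separated numbers do not occur in relations: conclusion
-/

set_option autoImplicit false
set_option linter.unusedSectionVars false
set_option linter.unusedVariables false

namespace Pool.Agent.P8H27.RF

open NumberField Module Pool.Agent.H485R3 Pool.Agent.H925R2 Pool.Agent.W527.TateRing

noncomputable section

section data

variable {p m : ℕ} [hp : Fact p.Prime] {L : Type} [Field L] [NumberField L] [IsTotallyReal L]
  [IsGalois ℚ L] {Ω : Type} [Field Ω] [CharZero Ω] [IsAlgClosed Ω] {S : Set (𝓞 L)} {K : Type}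
  [Fintype K] {c : K → Ω} {β : Ω} {w : ℤ}

theorem Data2.exists_int (hm : 0 < m) (hP : PrimeTo p S) (D : Data2 p m L S c β w)
    (g : D.E ≃ₐ[ℚ] D.E) : ∃ n : ℤ, Even (n - Fintype.card K) ∧
      2 * val p m (D.jp (g D.r)) - w = n := by
  classical
  have h0 := cst_pos (p := p) hm
  have h1 : ∀ k, ∃ e : ℤ, Even (e - 1) ∧ - wt D.jp m g (D.a k) = cst p m * e := by
    intro k
    have h2 := D.abs_wt hm hP k g
    rcases abs_eq h0.le |>.1 h2 with h3 | h3
    · exact ⟨-1, by decide, by rw [h3]; push_cast; ring⟩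
    · exact ⟨1, by decide, by rw [h3]; push_cast; ring⟩
  choose e he1 he2 using h1
  refine ⟨∑ k, e k, ?_, ?_⟩
  · have h2 : ∑ k, e k - Fintype.card K = ∑ k, (e k - 1) := by
      rw [Finset.sum_sub_distrib, Finset.sum_const, Finset.card_univ, nsmul_eq_mul, mul_one]
    rw [h2]
    exact Finset.even_sum _ fun k _ => he1 k
  · have h2 := D.sum g
    rw [D.wtb_val hm] at h2
    have h3 : ∑ k, wt D.jp m g (D.a k) = - (cst p m * ∑ k, (e k : ℝ)) := by
      rw [Finset.mul_sum, ← Finset.sum_neg_distrib]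
      refine Finset.sum_congr rfl fun k _ => ?_
      rw [← he2 k, neg_neg]
    rw [h3] at h2
    have h4 : cst p m * ((2 * val p m (D.jp (g D.r)) - w) - ∑ k, (e k : ℝ)) = 0 := by
      linear_combination h2
    have h5 := (mul_eq_zero.1 h4).resolve_left h0.ne'
    push_cast
    linarith

theorem Data2.zero_of_separated (hm : 0 < m) (hP : PrimeTo p S) (D : Data2 p m L S c β w)
    (hsep : Separated p m S w β) (g : D.E ≃ₐ[ℚ] D.E) : wtb D.jp m w g D.r = 0 := by
  classical
  have h0 := cst_pos (p := p) hm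
  rcases hsep with h | ⟨z, hz, z', hz', h⟩ | ⟨z, hz, h⟩ | ⟨hL, z, hz, h⟩ | ⟨n, hn, h⟩
  · rw [D.wtb_val hm, h _ ((D.mem_padicConj _).2 ⟨g, rfl⟩), sub_self, mul_zero]
  · exfalso
    obtain ⟨g₁, rfl⟩ := (D.mem_padicConj z).1 hz
    obtain ⟨g₂, rfl⟩ := (D.mem_padicConj z').1 hz'
    obtain ⟨n₁, e₁, h₁⟩ := D.exists_int hm hP g₁
    obtain ⟨n₂, e₂, h₂⟩ := D.exists_int hm hP g₂
    have e3 : Even (n₁ - n₂) := by
      have h3 := e₁.sub e₂
      rwa [sub_sub_sub_cancel_right] at h3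
    obtain ⟨r, hr⟩ := e3
    refine h r ?_
    have h4 : (n₁ : ℝ) - n₂ = r + r := by exact_mod_cast congrArg (fun x : ℤ => (x : ℝ)) hr
    linarith
  · exfalso
    obtain ⟨g₁, rfl⟩ := (D.mem_padicConj z).1 hz
    obtain ⟨n₁, e₁, h₁⟩ := D.exists_int hm hP g₁
    refine h (n₁ + w) ?_
    push_cast
    linarith
  · exfalso
    obtain ⟨g₀, rfl⟩ := (D.mem_padicConj z).1 hz
    obtain ⟨N, hN, hcard, hsum⟩ := D.sum_conj
    have h1 := mean_bound (G := D.E ≃ₐ[ℚ] D.E) (fun k g => wt D.jp m g (D.a k)) h0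
      (fun k g => D.abs_wt hm hP k g) (fun k l hkl => D.scalar hm hP hL k l hkl)
      _ Finset.univ rfl g₀
    have h2 : ∀ g, ∑ k, wt D.jp m g (D.a k) = - (cst p m * (2 * val p m (D.jp (g D.r)) - w)) := by
      intro g
      have h3 := D.sum g
      rw [D.wtb_val hm] at h3
      linarith
    have h3 : ∑ g, (∑ k, wt D.jp m g (D.a k)) ^ 2 =
        cst p m ^ 2 * (N * ∑ z ∈ padicConj p β, (2 * val p m z - w) ^ 2) := by
      rw [← hsum (fun z => (2 * val p m z - w) ^ 2), Finset.mul_sum]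
      refine Finset.sum_congr rfl fun g _ => ?_
      rw [h2]
      ring
    have h1' : |∑ k, wt D.jp m g₀ (D.a k)| * cst p m * Fintype.card (D.E ≃ₐ[ℚ] D.E) ≤
        ∑ g, (∑ k, wt D.jp m g (D.a k)) ^ 2 := h1
    rw [h3, h2 g₀, abs_neg, abs_mul, abs_of_pos h0, hcard] at h1'
    push_cast at h1'
    have hN0 : (0 : ℝ) < N := by exact_mod_cast hN
    have h4 : (cst p m ^ 2 * N) * (|2 * val p m (D.jp (g₀ D.r)) - w| * (padicConj p β).card) ≤
        (cst p m ^ 2 * N) * ∑ z ∈ padicConj p β, (2 * val p m z - w) ^ 2 := by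
      linarith
    have h5 := le_of_mul_le_mul_left h4 (mul_pos (pow_pos h0 2) hN0)
    linarith
  · refine D.wtb_zero_of_indep hn (fun k => ?_) g
    by_contra hcon
    push Not at hcon
    have hqE : ((p ^ m : ℕ) : D.E) ≠ 0 := q_ne D.E
    have hfix : ∀ v : D.E ≃ₐ[L] D.E, v (D.r ^ n) = D.r ^ n → v (D.a k) = D.a k := by
      intro v hv
      exact (conj_or (D.weil k).ne_zero (D.realIn k) v).resolve_right (hcon v hv)
    let M : IntermediateField L D.E := IntermediateField.adjoin L {D.r ^ n}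
    have hmem : D.a k ∈ M := by
      rw [← IsGalois.fixedField_fixingSubgroup M, IntermediateField.mem_fixedField_iff]
      intro v hv
      refine hfix v ?_
      exact hv ⟨D.r ^ n, IntermediateField.mem_adjoin_simple_self L _⟩
    have hj : ∀ x ∈ M, D.j x ∈ IntermediateField.adjoin ℚ
        (insert (β ^ n) {y : Ω | ∃ ψ : L →+* Ω, y ∈ Set.range ψ}) := by
      intro x hx
      induction hx using IntermediateField.adjoin_induction with
      | mem x hx =>
        rw [Set.mem_singleton_iff.1 hx, map_pow, D.jr]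
        exact IntermediateField.subset_adjoin ℚ _ (Set.mem_insert _ _)
      | algebraMap x =>
        refine IntermediateField.subset_adjoin ℚ _ (Set.mem_insert_of_mem _ ?_)
        exact ⟨D.j.comp (algebraMap L D.E), x, rfl⟩
      | add x y _ _ hx hy =>
        rw [map_add]
        exact add_mem hx hy
      | inv x _ hx =>
        rw [map_inv₀]
        exact inv_mem hx
      | mul x y _ _ hx hy =>
        rw [map_mul]
        exact mul_mem hx hy
    have hmem' : D.a k - ((p ^ m : ℕ) : D.E) / D.a k ∈ M := by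
      refine sub_mem hmem (div_mem ?_ hmem)
      exact natCast_mem M (p ^ m)
    refine h ((D.j.comp (algebraMap L D.E)).comp (D.σ k : L →+* L)) (D.b k) (D.mem k) _
      (hj _ hmem') ?_
    have h2 : (D.a k - ((p ^ m : ℕ) : D.E) / D.a k) ^ 2 =
        (algebraMap L D.E (D.σ k (D.b k : L))) ^ 2 - 4 * (p : D.E) ^ m := by
      rw [← D.tr k]
      have h3 := (D.weil k).ne_zero
      field_simp
      push_cast
      ring
    rw [← map_pow, h2, map_sub, map_pow, map_mul, map_pow, map_natCast, map_ofNat]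
    rfl

/-- A relation which contains a separated number gives a relation without it. -/
theorem rel_of_separated (hm : 0 < m) (hS : WeilBound (p ^ m) S) (hP : PrimeTo p S)
    (hss : ∀ k, ¬ SS (p ^ m) (c k))
    (hc : ∀ k, ∃ φ : L →+* Ω, ∃ b ∈ S, c k ^ 2 - φ b * c k + ((p ^ m : ℕ) : Ω) = 0)
    (hβ : β ≠ 0) (hsep : Separated p m S w β) {s : ℕ} (hs : 0 < s)
    (hrel : (∏ k, c k) ^ (2 * s) * β ^ (2 * s) =
      ((p ^ m : ℕ) : Ω) ^ ((s : ℤ) * (Fintype.card K + w))) : Rel (p ^ m) c := by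
  classical
  rcases isEmpty_or_nonempty K with hK | hK
  · exact ⟨1, one_pos, by simp⟩
  obtain ⟨D⟩ := exists_data2 (L := L) (S := S) hS hss hc hβ hs hrel
  have h0 := D.zero_of_separated hm hP hsep
  obtain ⟨s', hs', h1⟩ := rel_of_sum (m := m) D.jp (a := D.a) D.weil (fun g => by
    have h2 := D.sum g
    rwa [h0, add_zero] at h2)
  refine ⟨s', hs', ?_⟩
  have h2 := congrArg D.j h1
  rw [map_pow, map_prod, map_pow, map_natCast] at h2
  rw [← h2]
  congr 1
  exact Finset.prod_congr rfl fun k _ => (D.ja k).symm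

/-- The same with supersingular numbers. -/
theorem rel_of_separated' (hm : 0 < m) (hS : WeilBound (p ^ m) S) (hP : PrimeTo p S)
    (hc : ∀ k, SS (p ^ m) (c k) ∨
      ∃ φ : L →+* Ω, ∃ b ∈ S, c k ^ 2 - φ b * c k + ((p ^ m : ℕ) : Ω) = 0)
    (hβ : β ≠ 0) (hsep : Separated p m S w β) {s : ℕ} (hs : 0 < s)
    (hrel : (∏ k, c k) ^ (2 * s) * β ^ (2 * s) =
      ((p ^ m : ℕ) : Ω) ^ ((s : ℤ) * (Fintype.card K + w))) : Rel (p ^ m) c := by
  classical
  have hq0 : ((p ^ m : ℕ) : Ω) ≠ 0 := q_ne Ω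
  let Z : Finset K := Finset.univ.filter fun k => SS (p ^ m) (c k)
  have hZ : RelS (p ^ m) c Z := relS_of_ss Z fun k hk => (Finset.mem_filter.1 hk).2
  have hZc : ∀ k : {k // k ∉ Z}, ¬ SS (p ^ m) (c k) := fun k hk =>
    k.2 (Finset.mem_filter.2 ⟨Finset.mem_univ _, hk⟩)
  obtain ⟨t, ht, hZt⟩ := hZ
  have hprod : ∏ k, c k = (∏ k ∈ Z, c k) * ∏ k : {k // k ∉ Z}, c k := by
    rw [← Finset.prod_mul_prod_compl Z c]
    congr 1
    exact Finset.prod_subtype Zᶜ (fun k => Finset.mem_compl) c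
  have hcard : (Fintype.card K : ℤ) = Z.card + Fintype.card {k // k ∉ Z} := by
    have h1 : Fintype.card {k // k ∉ Z} = Fintype.card K - Z.card := by
      rw [Fintype.card_subtype_compl, Fintype.card_coe]
    have h2 := Finset.card_le_univ Z
    omega
  have hrel' : (∏ k : {k // k ∉ Z}, c k) ^ (2 * (s * t)) * β ^ (2 * (s * t)) =
      ((p ^ m : ℕ) : Ω) ^ (((s * t : ℕ) : ℤ) * (Fintype.card {k // k ∉ Z} + w)) := by
    have h1 : (∏ k, c k) ^ (2 * s * t) * β ^ (2 * s * t) =
        ((p ^ m : ℕ) : Ω) ^ (((s * t : ℕ) : ℤ) * (Fintype.card K + w)) := by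
      rw [pow_mul, pow_mul β, ← mul_pow, hrel, ← zpow_natCast, ← zpow_mul]
      congr 1
      push_cast
      ring
    rw [hprod, mul_pow] at h1
    have h2 : (∏ k ∈ Z, c k) ^ (2 * s * t) = ((p ^ m : ℕ) : Ω) ^ (((s * t : ℕ) : ℤ) * Z.card) := by
      have h3 : 2 * s * t = (2 * t) * s := by ring
      rw [h3, pow_mul, hZt, ← pow_mul, ← zpow_natCast]
      congr 1
      push_cast
      ring
    have h4 : ((p ^ m : ℕ) : Ω) ^ (((s * t : ℕ) : ℤ) * Z.card) ≠ 0 := zpow_ne_zero _ hq0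
    apply mul_left_cancel₀ h4
    rw [← zpow_add₀ hq0, ← h2]
    have h5 : 2 * (s * t) = 2 * s * t := by ring
    rw [h5, ← mul_assoc, h1, hcard]
    congr 1
    push_cast
    ring
  have h1 := rel_of_separated (c := fun k : {k // k ∉ Z} => c k) hm hS hP hZc
    (fun k => (hc k).resolve_left (hZc k)) hβ hsep (Nat.mul_pos hs ht) hrel'
  have h2 : RelS (p ^ m) c (Zᶜ) := by
    obtain ⟨u, hu, h3⟩ := h1
    refine ⟨u, hu, ?_⟩
    have h4 : ∏ k : {k // k ∉ Z}, c k = ∏ k ∈ Zᶜ, c k :=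
      (Finset.prod_subtype Zᶜ (fun k => Finset.mem_compl) c).symm
    have h5 : Fintype.card {k // k ∉ Z} = Zᶜ.card := by
      rw [Fintype.card_subtype_compl, Fintype.card_coe, Finset.card_compl]
    rw [h4, h5] at h3
    exact h3
  have h3 := RelS.union ⟨t, ht, hZt⟩ h2 disjoint_compl_right
  rw [Finset.union_compl] at h3
  exact relS_univ.1 h3

end data

end

end Pool.Agent.P8H27.RF
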