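import Pool.Agent.P8H27.RF.Sep
import Pool.Agent.P8H27.RF.Ortho
import Pool.Agent.P8H27.RF.RelS

/-!
# Separated numbers do not occur in relations
-/

set_option autoImplicit false
set_option linter.unusedSectionVars false
set_option linter.unusedVariables false

namespace Pool.Agent.P8H27.RF

open NumberField Module Pool.Agent.H485R3 Pool.Agent.H925R2 Pool.Agent.W527.TateRing

noncomputable section

section data

variable {p m : ℕ} [hp : Fact p.Prime] {L : Type} [Field L] [NumberField L] [IsTotallyReal L]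
  [IsGalois ℚ L] {Ω : Type} [Field Ω] [CharZero Ω] [IsAlgClosed Ω] {S : Set (𝓞 L)} {K : Type}
  [Fintype K] {c : K → Ω} {β : Ω} {w : ℤ}

/-- The constant `m log p`. -/
def cst (p m : ℕ) : ℝ := m * Real.log p

theorem cst_pos (hm : 0 < m) : 0 < cst p m := by
  have hp1 : (1 : ℝ) < p := by exact_mod_cast hp.out.one_lt
  exact mul_pos (by exact_mod_cast hm) (Real.log_pos hp1)

theorem Data2.realIn (D : Data2 p m L S c β w) (k : K) : RealIn L (p ^ m) (D.a k) :=
  ⟨D.σ k (D.b k : L), D.tr k⟩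

theorem Data2.abs_wt (hm : 0 < m) (hP : PrimeTo p S) (D : Data2 p m L S c β w) (k : K)
    (g : D.E ≃ₐ[ℚ] D.E) : |wt D.jp m g (D.a k)| = cst p m := by
  rw [Pool.Agent.P8H27.RF.abs_wt D.jp hm (D.weil k).ne_zero (D.tr k) g]
  have h1 : slope p m (D.jp (g (algebraMap L D.E (D.σ k (D.b k : L))))) = 0 := by
    refine slope_of_norm_one ?_
    exact norm_of_not_mem ((emb (L := L) D.jp g).comp (D.σ k : L →+* L))
      (hP (D.b k) (D.mem k) _ (primeOf_mem _))
  rw [h1, mul_zero, sub_zero, mul_one]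
  rfl

theorem Data2.wtb_val (hm : 0 < m) (D : Data2 p m L S c β w) (g : D.E ≃ₐ[ℚ] D.E) :
    wtb D.jp m w g D.r = cst p m * (2 * val p m (D.jp (g D.r)) - w) := by
  have h1 := (cst_pos (p := p) hm).ne'
  unfold wtb val Real.logb
  rw [Real.log_pow]
  change - (2 * _ + w * cst p m) = cst p m * (2 * (- (_ / cst p m)) - w)
  field_simp
  ring

/-- The `p`-adic conjugates are given by the Galois group. -/
theorem Data2.mem_padicConj (D : Data2 p m L S c β w) (z : PadicAlgCl p) :
    z ∈ padicConj p β ↔ ∃ g : D.E ≃ₐ[ℚ] D.E, D.jp (g D.r) = z := by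
  classical
  have hmin : minpoly ℚ β = minpoly ℚ D.r :=
    (congrArg (minpoly ℚ) D.jr).symm.trans
      (minpoly.algHom_eq (D.j.toRatAlgHom) D.j.injective D.r)
  have hi : IsIntegral ℚ D.r := Algebra.IsIntegral.isIntegral _
  unfold padicConj
  rw [Multiset.mem_toFinset, hmin, Polynomial.mem_aroots]
  constructor
  · rintro ⟨_, h⟩
    obtain ⟨φ, hφ⟩ := IntermediateField.exists_algHom_of_splits_of_aeval (F := ℚ) (E := D.E)
      (K := PadicAlgCl p)
      (fun x => ⟨Algebra.IsIntegral.isIntegral x, IsAlgClosed.splits _⟩) h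
    obtain ⟨g, hg⟩ := Pool.Agent.H485R3.exists_gal (D.jp.toRatAlgHom) φ
    exact ⟨g, (hg D.r).symm.trans hφ⟩
  · rintro ⟨g, rfl⟩
    refine ⟨minpoly.ne_zero hi, ?_⟩
    have h2 : Polynomial.aeval (((D.jp.toRatAlgHom).comp (g : D.E →ₐ[ℚ] D.E)) D.r)
        (minpoly ℚ D.r) = 0 := by
      rw [Polynomial.aeval_algHom_apply, minpoly.aeval, map_zero]
    exact h2

/-- Sums over the Galois group and over the conjugates. -/
theorem Data2.sum_conj (D : Data2 p m L S c β w) : ∃ N : ℕ, 0 < N ∧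
    Fintype.card (D.E ≃ₐ[ℚ] D.E) = N * (padicConj p β).card ∧
    ∀ h : PadicAlgCl p → ℝ, ∑ g : D.E ≃ₐ[ℚ] D.E, h (D.jp (g D.r)) =
      N * ∑ z ∈ padicConj p β, h z := by
  classical
  let F : PadicAlgCl p → Finset (D.E ≃ₐ[ℚ] D.E) := fun z =>
    Finset.univ.filter fun g => D.jp (g D.r) = z
  have hF : ∀ z ∈ padicConj p β, (F z).card = (F (D.jp D.r)).card := by
    intro z hz
    obtain ⟨g₀, hg₀⟩ := (D.mem_padicConj z).1 hz
    refine (Finset.card_bij (fun g _ => g₀ * g) ?_ ?_ ?_).symm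
    · intro g hg
      have h1 : D.jp (g D.r) = D.jp D.r := (Finset.mem_filter.1 hg).2
      have h2 : g D.r = D.r := D.jp.injective h1
      refine Finset.mem_filter.2 ⟨Finset.mem_univ _, ?_⟩
      rw [AlgEquiv.mul_apply, h2, hg₀]
    · intro g _ g' _ h
      exact mul_left_cancel h
    · intro g hg
      have h1 : D.jp (g D.r) = z := (Finset.mem_filter.1 hg).2
      refine ⟨g₀⁻¹ * g, Finset.mem_filter.2 ⟨Finset.mem_univ _, ?_⟩, mul_inv_cancel_left _ _⟩
      have h2 : g D.r = g₀ D.r := D.jp.injective (h1.trans hg₀.symm)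
      rw [AlgEquiv.mul_apply, h2, ← AlgEquiv.mul_apply, inv_mul_cancel]
      rfl
  have hmaps : ∀ g ∈ (Finset.univ : Finset (D.E ≃ₐ[ℚ] D.E)), D.jp (g D.r) ∈ padicConj p β :=
    fun g _ => (D.mem_padicConj _).2 ⟨g, rfl⟩
  refine ⟨(F (D.jp D.r)).card, ?_, ?_, fun h => ?_⟩
  · refine Finset.card_pos.2 ⟨1, Finset.mem_filter.2 ⟨Finset.mem_univ _, rfl⟩⟩
  · rw [← Finset.card_univ, Finset.card_eq_sum_card_fiberwise hmaps,
      Finset.sum_congr rfl fun z hz => hF z hz, Finset.sum_const, smul_eq_mul, mul_comm]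
  · rw [← Finset.sum_fiberwise_of_maps_to hmaps, Finset.mul_sum]
    refine Finset.sum_congr rfl fun z hz => ?_
    rw [Finset.sum_congr rfl (g := fun _ => h z)
      (fun g hg => by rw [(Finset.mem_filter.1 hg).2]), Finset.sum_const, nsmul_eq_mul]
    congr 2
    exact hF z hz

/-- Independent numbers. -/
theorem Data2.wtb_zero_of_indep (D : Data2 p m L S c β w) {n : ℕ} (hn : 0 < n)
    (h : ∀ k, ∃ v : D.E ≃ₐ[L] D.E, v (D.r ^ n) = D.r ^ n ∧
      v (D.a k) = ((p ^ m : ℕ) : D.E) / D.a k) (g : D.E ≃ₐ[ℚ] D.E) :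
    wtb D.jp m w g D.r = 0 := by
  classical
  let F : Finset (D.E ≃ₐ[L] D.E) := Finset.univ.filter fun v => v (D.r ^ n) = D.r ^ n
  have hone : (1 : D.E ≃ₐ[L] D.E) ∈ F := Finset.mem_filter.2 ⟨Finset.mem_univ _, rfl⟩
  have h1 : ∀ k, ∑ v ∈ F, wt D.jp m (g * res v) (D.a k) = 0 := by
    intro k
    obtain ⟨v₀, hv₀, hv₀'⟩ := h k
    have h2 : ∑ v ∈ F, wt D.jp m (g * res v) (D.a k) =
        ∑ v ∈ F, wt D.jp m (g * res (v * v₀)) (D.a k) := by
      symm
      refine Finset.sum_bij (fun v _ => v * v₀) ?_ ?_ ?_ ?_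
      · intro v hv
        refine Finset.mem_filter.2 ⟨Finset.mem_univ _, ?_⟩
        rw [AlgEquiv.mul_apply, hv₀]
        exact (Finset.mem_filter.1 hv).2
      · intro v _ v' _ hvv
        exact mul_right_cancel hvv
      · intro v hv
        refine ⟨v * v₀⁻¹, Finset.mem_filter.2 ⟨Finset.mem_univ _, ?_⟩, inv_mul_cancel_right _ _⟩
        have h3 : v₀⁻¹ (D.r ^ n) = D.r ^ n := by
          conv_lhs => rw [← hv₀]
          rw [← AlgEquiv.mul_apply, inv_mul_cancel]
          rfl
        rw [AlgEquiv.mul_apply, h3]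
        exact (Finset.mem_filter.1 hv).2
      · intro v _
        rfl
    have h3 : ∀ v, wt D.jp m (g * res (v * v₀)) (D.a k) = - wt D.jp m (g * res v) (D.a k) := by
      intro v
      have e1 : wt D.jp m (g * res (v * v₀)) (D.a k) =
          wt D.jp m (g * res v) (((p ^ m : ℕ) : D.E) / D.a k) := by
        rw [← hv₀']
        rfl
      rw [e1, wt_inv D.jp (D.weil k).ne_zero]
    rw [Finset.sum_congr rfl fun v _ => h3 v, Finset.sum_neg_distrib] at h2
    linarith
  have h2 : ∀ v ∈ F, wtb D.jp m w (g * res v) D.r = wtb D.jp m w g D.r := by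
    intro v hv
    have h3 : v (D.r ^ n) = D.r ^ n := (Finset.mem_filter.1 hv).2
    have h4 : Real.log ‖D.jp ((g * res v) D.r)‖ = Real.log ‖D.jp (g D.r)‖ := by
      have h5 : (n : ℝ) * Real.log ‖D.jp ((g * res v) D.r)‖ =
          n * Real.log ‖D.jp (g D.r)‖ := by
        rw [← Real.log_pow, ← Real.log_pow, ← norm_pow, ← norm_pow, ← map_pow, ← map_pow,
          ← map_pow, ← map_pow, AlgEquiv.mul_apply, res_apply, h3]
      exact mul_left_cancel₀ (by exact_mod_cast hn.ne') h5
    unfold wtb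
    rw [h4]
  have h3 : ∑ v ∈ F, (∑ k, wt D.jp m (g * res v) (D.a k) + wtb D.jp m w (g * res v) D.r) = 0 :=
    Finset.sum_eq_zero fun v _ => D.sum _
  rw [Finset.sum_add_distrib, Finset.sum_comm, Finset.sum_eq_zero fun k _ => h1 k, zero_add,
    Finset.sum_congr rfl h2, Finset.sum_const, nsmul_eq_mul] at h3
  rcases mul_eq_zero.1 h3 with h4 | h4
  · exfalso
    have h5 : 0 < F.card := Finset.card_pos.2 ⟨1, hone⟩
    have h6 : F.card = 0 := by exact_mod_cast h4
    omega
  · exact h4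

/-- The scalar products. -/
theorem Data2.scalar (hm : 0 < m) (hP : PrimeTo p S) (hL : numPrimes p L ≤ 2)
    (D : Data2 p m L S c β w) (k l : K)
    (hkl : ∃ g, wt D.jp m g (D.a l) ≠ - wt D.jp m g (D.a k)) :
    0 ≤ ∑ g, wt D.jp m g (D.a k) * wt D.jp m g (D.a l) := by
  classical
  by_cases hχ : chi (q_ne D.E) (D.weil k).ne_zero (D.realIn k) (D.ne k) =
      chi (q_ne D.E) (D.weil l).ne_zero (D.realIn l) (D.ne l)
  · -- the same quadratic extension
    have habs : ∀ g, |wt D.jp m g (D.a k) * wt D.jp m g (D.a l)| = cst p m * cst p m := by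
      intro g
      rw [abs_mul, D.abs_wt hm hP, D.abs_wt hm hP]
    have hpos : ∃ g, 0 < wt D.jp m g (D.a k) * wt D.jp m g (D.a l) := by
      obtain ⟨g, hg⟩ := hkl
      refine ⟨g, ?_⟩
      have h1 := D.abs_wt hm hP k g
      have h2 := D.abs_wt hm hP l g
      have h0 := cst_pos (p := p) hm
      rcases abs_eq_abs.1 (h1.trans h2.symm) with h3 | h3
      · rw [h3]
        have h4 : wt D.jp m g (D.a l) ≠ 0 := by
          intro h5
          rw [h5, abs_zero] at h2
          linarith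
        exact mul_self_pos.2 h4
      · exact absurd (by rw [h3, neg_neg]) hg
    obtain ⟨g₀, hg₀⟩ := hpos
    have hp0 : (Ideal.span {(p : ℤ)}) ≠ ⊥ := by
      rw [Ne, Ideal.span_singleton_eq_bot]
      exact_mod_cast hp.out.ne_zero
    have hfin : (Ideal.primesOver (Ideal.span {(p : ℤ)}) (𝓞 L)).Finite := by
      have hmax : (Ideal.span {(p : ℤ)}).IsMaximal := Int.ideal_span_isMaximal_of_prime p
      exact IsDedekindDomain.primesOver_finite _ _
    refine sum_nonneg_of_classes (fun g => primeOf p (emb (L := L) D.jp g)) ?_ ?_ _ habs ?_ hg₀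
    · intro g g' h hgg
      let σ : L ≃ₐ[ℚ] L := AlgEquiv.restrictNormal h L
      have hσ : ∀ g : D.E ≃ₐ[ℚ] D.E, ∀ x : L, emb (L := L) D.jp (g * h) x =
          emb (L := L) D.jp g (σ x) := by
        intro g x
        rw [emb_apply, emb_apply, AlgEquiv.mul_apply]
        congr 2
        exact (AlgEquiv.restrictNormal_commutes h L x).symm
      ext b
      rw [mem_primeOf, mem_primeOf, hσ, hσ]
      have h1 : ∀ g : D.E ≃ₐ[ℚ] D.E, ‖emb (L := L) D.jp g (σ (algebraMap (𝓞 L) L b))‖ < 1 ↔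
          (RingOfIntegers.mapRingEquiv (σ : L ≃+* L) b) ∈ primeOf p (emb (L := L) D.jp g) := by
        intro g
        rw [mem_primeOf]
        rfl
      rw [h1, h1]
      have hgg' : primeOf p (emb (L := L) D.jp g) = primeOf p (emb (L := L) D.jp g') := hgg
      rw [hgg']
    · intro g₀ g₁ g₂
      by_contra hcon
      push Not at hcon
      obtain ⟨e1, e2, e3⟩ := hcon
      have h1 : ({primeOf p (emb (L := L) D.jp g₀), primeOf p (emb (L := L) D.jp g₁),
          primeOf p (emb (L := L) D.jp g₂)} : Set (Ideal (𝓞 L))) ⊆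
          Ideal.primesOver (Ideal.span {(p : ℤ)}) (𝓞 L) := by
        rintro _ (rfl | rfl | rfl)
        · exact primeOf_mem _
        · exact primeOf_mem _
        · exact primeOf_mem _
      have h2 := Set.ncard_le_ncard h1 hfin
      rw [Set.ncard_eq_three.2 ⟨_, _, _, e1, e3, e2, rfl⟩] at h2
      have h3 : (Ideal.primesOver (Ideal.span {(p : ℤ)}) (𝓞 L)).ncard ≤ 2 := hL
      omega
    · intro g g' hgg
      obtain ⟨v, hv⟩ := transfer (m := m) (L := L) D.jp g g' hgg
      rw [hv, hv, wt_chi D.jp (D.weil k).ne_zero (D.realIn k) (D.ne k),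
        wt_chi D.jp (D.weil l).ne_zero (D.realIn l) (D.ne l), hχ]
      rcases chi_sq (q_ne D.E) (D.weil l).ne_zero (D.realIn l) (D.ne l) v with h1 | h1
      · rw [h1]
        ring
      · rw [h1]
        ring
  · -- different quadratic extensions
    have h1 : ∃ v : D.E ≃ₐ[L] D.E, chi (q_ne D.E) (D.weil k).ne_zero (D.realIn k) (D.ne k) v ≠
        chi (q_ne D.E) (D.weil l).ne_zero (D.realIn l) (D.ne l) v := by
      by_contra hcon
      push Not at hcon
      exact hχ (MonoidHom.ext hcon)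
    obtain ⟨v, hv⟩ := h1
    have h2 : ∑ g, wt D.jp m g (D.a k) * wt D.jp m g (D.a l) =
        ∑ g, wt D.jp m (g * res v) (D.a k) * wt D.jp m (g * res v) (D.a l) :=
      (Equiv.sum_comp (Equiv.mulRight (res v))
        (fun g => wt D.jp m g (D.a k) * wt D.jp m g (D.a l))).symm
    have h3 : ∀ g, wt D.jp m (g * res v) (D.a k) * wt D.jp m (g * res v) (D.a l) =
        - (wt D.jp m g (D.a k) * wt D.jp m g (D.a l)) := by
      intro g
      rw [wt_mul, wt_mul, res_apply, res_apply,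
        wt_chi D.jp (D.weil k).ne_zero (D.realIn k) (D.ne k),
        wt_chi D.jp (D.weil l).ne_zero (D.realIn l) (D.ne l)]
      rcases chi_sq (q_ne D.E) (D.weil k).ne_zero (D.realIn k) (D.ne k) v with h4 | h4 <;>
      rcases chi_sq (q_ne D.E) (D.weil l).ne_zero (D.realIn l) (D.ne l) v with h5 | h5
      · exact absurd (h4.trans h5.symm) hv
      · rw [h4, h5]
        ring
      · rw [h4, h5]
        ring
      · exact absurd (h4.trans h5.symm) hv
    rw [Finset.sum_congr rfl fun g _ => h3 g, Finset.sum_neg_distrib] at h2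
    linarith

end data

end

end Pool.Agent.P8H27.RF
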